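import Mathlib
import Pool.Agent.Lib_helper17.CSF.Forest

set_option autoImplicit false

/-!
Random rooted trees (weights on ordered rooted forests), probability half of MP_1af41f_co.
-/

namespace RT

open Pool.MP_1af41f_co.CSF

open Classical in
/-- indicator of a proposition -/
noncomputable def ind (P : Prop) : ℝ := if P then 1 else 0

/-- number of vertices of the tree with branch forest `a` -/
def vs (a : Fr) : ℕ := 1 + a.size

/-- number of trees of the forest -/
def deg : Fr → ℕ
  | Fr.nil => 0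
  | Fr.cons _ b => 1 + deg b

/-- weight of a forest (Poisson(1) Galton-Watson weight, without the factor of the root) -/
noncomputable def w : Fr → ℝ
  | Fr.nil => 1
  | Fr.cons a b => Real.exp (-1) * w a * w b / (1 + deg b)

lemma finite_size (m : ℕ) : {f : Fr | f.size = m}.Finite := by
  induction m using Nat.strong_induction_on with
  | _ m ih =>
    rcases m with _ | m
    · apply (Set.finite_singleton Fr.nil).subset
      intro f hf
      cases f with
      | nil => rfl
      | cons a b => simp [Fr.size] at hf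
    · have h : {f : Fr | f.size = m + 1} ⊆ ⋃ i ∈ Finset.range (m + 1),
          (fun p : Fr × Fr => Fr.cons p.1 p.2) '' ({f | f.size = i} ×ˢ {f | f.size = m - i}) := by
        intro f hf
        cases f with
        | nil => simp [Fr.size] at hf
        | cons a b =>
          have hf' : 1 + a.size + b.size = m + 1 := hf
          simp only [Set.mem_iUnion]
          refine ⟨a.size, Finset.mem_range.2 (by omega), ⟨(a, b), ⟨rfl, ?_⟩, rfl⟩⟩
          show b.size = m - a.size
          omega
      refine Set.Finite.subset ?_ h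
      apply Set.Finite.biUnion (Finset.finite_toSet _)
      intro i hi
      have hi' : i < m + 1 := Finset.mem_range.1 hi
      exact ((ih i (by omega)).prod (ih (m - i) (by omega))).image _

/-- all forests with `m` vertices -/
noncomputable def FS (m : ℕ) : Finset Fr := (finite_size m).toFinset

@[simp] lemma mem_FS {m : ℕ} {f : Fr} : f ∈ FS m ↔ f.size = m := by
  simp [FS]

/-- weighted sum over the forests with `m` vertices -/
noncomputable def E (m : ℕ) (Φ : Fr → ℝ) : ℝ := ∑ f ∈ FS m, w f * Φ f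

/-- weighted sum over the trees with `k` vertices (given by their branch forests) -/
noncomputable def ET (k : ℕ) (Φ : Fr → ℝ) : ℝ :=
  if k = 0 then 0 else Real.exp (-1) * E (k - 1) Φ

/-- `τ k = k ^ (k-1) / k! e ^ (-k)`: total weight of the trees with `k` vertices -/
noncomputable def τ (k : ℕ) : ℝ :=
  if k = 0 then 0 else (k : ℝ) ^ (k - 1) / (k.factorial : ℝ) * Real.exp (-(k : ℝ))

/-- `υ k = k ^ k / k! e ^ (-k)` -/
noncomputable def υ (k : ℕ) : ℝ := (k : ℝ) ^ k / (k.factorial : ℝ) * Real.exp (-(k : ℝ))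

/-- all ways to mark a branch: pairs (branch, rest) -/
def br : Fr → List (Fr × Fr)
  | Fr.nil => []
  | Fr.cons a b => (a, b) :: (br b).map (fun p => (p.1, Fr.cons a p.2))

/-- all ways to split the set of branches in two -/
def splits : Fr → List (Fr × Fr)
  | Fr.nil => [(Fr.nil, Fr.nil)]
  | Fr.cons a b => (splits b).map (fun p => (Fr.cons a p.1, p.2))
      ++ (splits b).map (fun p => (p.1, Fr.cons a p.2))

/-- all fringe subtrees at the vertices of the forest (as branch forests) -/
def fr : Fr → List Fr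
  | Fr.nil => []
  | Fr.cons a b => a :: (fr a ++ fr b)

/-- all branches have at most `y` vertices -/
def AllLe (y : ℕ) (f : Fr) : Prop := ∀ a ∈ f.toList, vs a ≤ y

open Classical in
/-- sizes larger than `y` of the fringe subtrees of the tree with branch forest `a`
(the tree itself included) -/
noncomputable def Wset (y : ℕ) (a : Fr) : Finset ℕ :=
  (((a :: fr a).map vs).toFinset).filter (fun k => y < k)

open Classical in
/-- sizes larger than `y` of the fringe subtrees at the vertices of the forest `g` -/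
noncomputable def Bset (y : ℕ) (g : Fr) : Finset ℕ :=
  (((fr g).map vs).toFinset).filter (fun k => y < k)

/-! ### basic properties -/

lemma ind_nonneg (P : Prop) : 0 ≤ ind P := by unfold ind; split_ifs <;> norm_num
lemma ind_le_one (P : Prop) : ind P ≤ 1 := by unfold ind; split_ifs <;> norm_num
lemma ind_of {P : Prop} (h : P) : ind P = 1 := if_pos h
lemma ind_of_not {P : Prop} (h : ¬ P) : ind P = 0 := if_neg h
lemma ind_mono {P Q : Prop} (h : P → Q) : ind P ≤ ind Q := by
  by_cases hP : P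
  · rw [ind_of hP, ind_of (h hP)]
  · rw [ind_of_not hP]; exact ind_nonneg Q
lemma ind_or_le (P Q : Prop) : ind (P ∨ Q) ≤ ind P + ind Q := by
  by_cases hP : P
  · rw [ind_of hP, ind_of (Or.inl hP)]; linarith [ind_nonneg Q]
  · by_cases hQ : Q
    · rw [ind_of hQ, ind_of (Or.inr hQ)]; linarith [ind_nonneg P]
    · rw [ind_of_not (by tauto)]; linarith [ind_nonneg P, ind_nonneg Q]
lemma ind_and (P Q : Prop) : ind (P ∧ Q) = ind P * ind Q := by
  by_cases hP : P
  · by_cases hQ : Q
    · rw [ind_of hP, ind_of hQ, ind_of ⟨hP, hQ⟩, one_mul]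
    · rw [ind_of hP, ind_of_not hQ, ind_of_not (by tauto), one_mul]
  · rw [ind_of_not hP, ind_of_not (by tauto), zero_mul]

lemma w_pos (f : Fr) : 0 < w f := by
  induction f with
  | nil => exact one_pos
  | cons a b iha ihb =>
    unfold w
    positivity

lemma E_nonneg {m : ℕ} {Φ : Fr → ℝ} (h : ∀ f, 0 ≤ Φ f) : 0 ≤ E m Φ :=
  Finset.sum_nonneg fun f _ => mul_nonneg (w_pos f).le (h f)

lemma E_mono {m : ℕ} {Φ Ψ : Fr → ℝ} (h : ∀ f, f.size = m → Φ f ≤ Ψ f) : E m Φ ≤ E m Ψ :=
  Finset.sum_le_sum fun f hf => mul_le_mul_of_nonneg_left (h f (mem_FS.1 hf)) (w_pos f).le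

lemma E_congr {m : ℕ} {Φ Ψ : Fr → ℝ} (h : ∀ f, f.size = m → Φ f = Ψ f) : E m Φ = E m Ψ :=
  Finset.sum_congr rfl fun f hf => by rw [h f (mem_FS.1 hf)]

lemma E_add (m : ℕ) (Φ Ψ : Fr → ℝ) : E m (fun f => Φ f + Ψ f) = E m Φ + E m Ψ := by
  simp [E, mul_add, Finset.sum_add_distrib]

lemma E_mul_left (m : ℕ) (c : ℝ) (Φ : Fr → ℝ) : E m (fun f => c * Φ f) = c * E m Φ := by
  simp only [E, Finset.mul_sum]
  exact Finset.sum_congr rfl fun f _ => by ring

lemma E_sum {ι : Type*} (s : Finset ι) (m : ℕ) (Φ : ι → Fr → ℝ) :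
    E m (fun f => ∑ i ∈ s, Φ i f) = ∑ i ∈ s, E m (Φ i) := by
  simp only [E, Finset.mul_sum]
  exact Finset.sum_comm

lemma ET_zero (Φ : Fr → ℝ) : ET 0 Φ = 0 := if_pos rfl

lemma ET_succ (k : ℕ) (Φ : Fr → ℝ) : ET (k + 1) Φ = Real.exp (-1) * E k Φ := by
  simp [ET]

lemma ET_nonneg {k : ℕ} {Φ : Fr → ℝ} (h : ∀ f, 0 ≤ Φ f) : 0 ≤ ET k Φ := by
  unfold ET
  split_ifs
  · exact le_rfl
  · exact mul_nonneg (Real.exp_pos _).le (E_nonneg h)

lemma ET_mono {k : ℕ} {Φ Ψ : Fr → ℝ} (h : ∀ a, vs a = k → Φ a ≤ Ψ a) : ET k Φ ≤ ET k Ψ := by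
  rcases k with _ | k
  · rw [ET_zero, ET_zero]
  · rw [ET_succ, ET_succ]
    exact mul_le_mul_of_nonneg_left (E_mono fun f hf => h f (by unfold vs; omega))
      (Real.exp_pos _).le

lemma ET_congr {k : ℕ} {Φ Ψ : Fr → ℝ} (h : ∀ a, vs a = k → Φ a = Ψ a) : ET k Φ = ET k Ψ := by
  rcases k with _ | k
  · rw [ET_zero, ET_zero]
  · rw [ET_succ, ET_succ, E_congr fun f hf => h f (by unfold vs; omega)]

lemma ET_add (k : ℕ) (Φ Ψ : Fr → ℝ) : ET k (fun f => Φ f + Ψ f) = ET k Φ + ET k Ψ := by
  rcases k with _ | k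
  · simp [ET_zero]
  · rw [ET_succ, ET_succ, ET_succ, E_add]; ring

lemma ET_mul_left (k : ℕ) (c : ℝ) (Φ : Fr → ℝ) : ET k (fun f => c * Φ f) = c * ET k Φ := by
  rcases k with _ | k
  · simp [ET_zero]
  · rw [ET_succ, ET_succ, E_mul_left]; ring

lemma ET_sum {ι : Type*} (s : Finset ι) (k : ℕ) (Φ : ι → Fr → ℝ) :
    ET k (fun f => ∑ i ∈ s, Φ i f) = ∑ i ∈ s, ET k (Φ i) := by
  rcases k with _ | k
  · simp [ET_zero]
  · simp only [ET_succ, E_sum, Finset.mul_sum]

lemma E_zero (Φ : Fr → ℝ) : E 0 Φ = Φ Fr.nil := by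
  have h : FS 0 = {Fr.nil} := by
    ext f
    rw [mem_FS, Finset.mem_singleton]
    constructor
    · intro hf
      cases f with
      | nil => rfl
      | cons a b => simp [Fr.size] at hf
    · rintro rfl; rfl
  rw [E, h, Finset.sum_singleton]
  simp [w]

/-- first-branch decomposition -/
lemma E_succ (m : ℕ) (Φ : Fr → ℝ) : E (m + 1) Φ = ∑ i ∈ Finset.range (m + 1),
    ∑ a ∈ FS i, ∑ b ∈ FS (m - i), Real.exp (-1) * w a * w b / (1 + deg b) * Φ (Fr.cons a b) := by
  classical
  have h : FS (m + 1) = ((Finset.range (m + 1)).sigma (fun i => FS i ×ˢ FS (m - i))).image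
      (fun p => Fr.cons p.2.1 p.2.2) := by
    ext f
    rw [mem_FS, Finset.mem_image]
    constructor
    · intro hf
      cases f with
      | nil => simp [Fr.size] at hf
      | cons a b =>
        have hf' : 1 + a.size + b.size = m + 1 := hf
        refine ⟨⟨a.size, (a, b)⟩, ?_, rfl⟩
        rw [Finset.mem_sigma, Finset.mem_product, mem_FS, mem_FS, Finset.mem_range]
        refine ⟨?_, rfl, ?_⟩
        · show a.size < m + 1
          omega
        · show b.size = m - a.size
          omega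
    · rintro ⟨⟨i, a, b⟩, hp, rfl⟩
      rw [Finset.mem_sigma, Finset.mem_product, mem_FS, mem_FS, Finset.mem_range] at hp
      obtain ⟨h1, h2, h3⟩ := hp
      show 1 + a.size + b.size = m + 1
      simp only at h1 h2 h3
      omega
  rw [E, h, Finset.sum_image, Finset.sum_sigma]
  · apply Finset.sum_congr rfl
    intro i _
    rw [Finset.sum_product]
    rfl
  · rintro ⟨i, a, b⟩ hp ⟨j, a', b'⟩ hq heq
    simp only [Fr.cons.injEq] at heq
    obtain ⟨rfl, rfl⟩ := heq
    rw [Finset.mem_coe, Finset.mem_sigma, Finset.mem_product, mem_FS, mem_FS] at hp hq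
    obtain ⟨-, h2, -⟩ := hp
    obtain ⟨-, h2', -⟩ := hq
    simp only at h2 h2'
    subst h2
    subst h2'
    rfl

end RT
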