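import Mathlib
import Pool.Agent.Lib_helper86.RT.Defs

set_option autoImplicit false

/-!
Module ABEL, part D: elementary sums.
-/

namespace RT

open Finset

theorem AbelD_step (x : ℝ) (hx : 0 ≤ x) : 1 / √(x + 1) ≤ 2 * √(x + 1) - 2 * √x := by
  have h1 : 0 < √(x + 1) := Real.sqrt_pos.2 (by linarith)
  have h0 : 0 ≤ √x := Real.sqrt_nonneg x
  have h2 : √(x + 1) ^ 2 = x + 1 := Real.sq_sqrt (by linarith)
  have h3 : √x ^ 2 = x := Real.sq_sqrt hx
  rw [div_le_iff₀ h1]
  nlinarith [sq_nonneg (√(x + 1) - √x)]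

theorem AbelD_step2 (x : ℝ) (hx : 0 < x) :
    1 / ((x + 1) * √(x + 1)) ≤ 2 / √x - 2 / √(x + 1) := by
  have h1 : 0 < √(x + 1) := Real.sqrt_pos.2 (by linarith)
  have h0 : 0 < √x := Real.sqrt_pos.2 hx
  have h2 : √(x + 1) ^ 2 = x + 1 := Real.sq_sqrt (by linarith)
  have h3 : √x ^ 2 = x := Real.sq_sqrt hx.le
  have h4 : √x ≤ √(x + 1) := Real.sqrt_le_sqrt (by linarith)
  set s := √(x + 1) with hs
  set r := √x with hr
  have e : 2 / r - 2 / s = 2 * (s - r) / (r * s) := by
    field_simp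
  rw [e, div_le_div_iff₀ (by positivity) (by positivity), ← h2]
  have h5 : (s - r) * (s + r) = 1 := by nlinarith
  have h6 : 0 ≤ s - r := by linarith
  -- r s ≤ 2 (s - r) s² s
  have h7 : r ≤ 2 * (s - r) * s ^ 2 := by
    have h8 : 1 ≤ (s - r) * (2 * s) := by nlinarith
    nlinarith
  nlinarith

theorem sum_rsqrt_le (n : ℕ) : ∑ k ∈ Icc 1 n, 1 / √(k : ℝ) ≤ 2 * √n := by
  induction n with
  | zero => simp
  | succ n ih =>
    rw [sum_Icc_succ_top (by omega)]
    have h := AbelD_step (n : ℝ) (Nat.cast_nonneg n)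
    push_cast
    linarith

theorem sum_tail_le (a b : ℕ) (ha : 1 ≤ a) : ∑ k ∈ Ico a b, 1 / ((k : ℝ) * √k) ≤ 3 / √a := by
  have ha' : (1 : ℝ) ≤ a := by exact_mod_cast ha
  have hsa : 0 < √(a : ℝ) := Real.sqrt_pos.2 (by linarith)
  have key : ∀ m : ℕ, ∑ k ∈ Ico a (a + m + 1), 1 / ((k : ℝ) * √k) ≤
      3 / √a - 2 / √((a : ℝ) + m) := by
    intro m
    induction m with
    | zero =>
      rw [add_zero, Nat.Ico_succ_singleton, sum_singleton]
      have h1 : 1 / ((a : ℝ) * √a) ≤ 1 / √a := by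
        apply one_div_le_one_div_of_le hsa
        nlinarith
      have h2 : 3 / √(a : ℝ) - 2 / √((a : ℝ) + (0 : ℕ)) = 1 / √a := by
        rw [Nat.cast_zero, add_zero]; ring
      rw [h2]
      exact h1
    | succ m ih =>
      rw [show a + (m + 1) + 1 = (a + m + 1) + 1 by ring, sum_Ico_succ_top (by omega)]
      have h := AbelD_step2 ((a : ℝ) + m) (by positivity)
      push_cast
      have e : (a : ℝ) + (m + 1) = a + m + 1 := by ring
      rw [e]
      linarith
  rcases le_or_gt b a with h | h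
  · rw [Ico_eq_empty (by omega)]
    simp only [sum_empty]
    positivity
  · obtain ⟨m, rfl⟩ : ∃ m, b = a + m + 1 := ⟨b - a - 1, by omega⟩
    have h1 := key m
    have h2 : 0 ≤ 2 / √((a : ℝ) + m) := by positivity
    linarith

/-- distinct positive integers -/
theorem sum_set_rsqrt_le (S : Finset ℕ) (hS : ∀ k ∈ S, 1 ≤ k) :
    ∑ k ∈ S, 1 / √(k : ℝ) ≤ 2 * √(S.card) := by
  induction S using Finset.induction_on_max with
  | empty => simp
  | insert a s hlt ih =>
    have ha : a ∉ s := fun h => lt_irrefl _ (hlt a h)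
    rw [sum_insert ha, card_insert_of_notMem ha]
    have ih' := ih fun k hk => hS k (mem_insert_of_mem hk)
    have ha1 : 1 ≤ a := hS a (mem_insert_self _ _)
    have hcard : s.card + 1 ≤ a := by
      have h1 : s ⊆ Ico 1 a := fun k hk => mem_Ico.2 ⟨hS k (mem_insert_of_mem hk), hlt k hk⟩
      have h2 := card_le_card h1
      rw [Nat.card_Ico] at h2
      omega
    have h1 : 1 / √(a : ℝ) ≤ 1 / √((s.card : ℝ) + 1) := by
      apply one_div_le_one_div_of_le (Real.sqrt_pos.2 (by positivity))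
      apply Real.sqrt_le_sqrt
      exact_mod_cast hcard
    have h2 := AbelD_step (s.card : ℝ) (Nat.cast_nonneg _)
    push_cast
    linarith

end RT
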