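import Pool.Agent.Lib_helper86.RT.AbelC
import Pool.Agent.Lib_helper86.RT.AbelD

/-!
The numerical lemmas: `abel_one`, `abel_two` (Abel's identities, AbelA), the bounds for `υ`, `τ` and
the recursion of `υ` (AbelB), `τ_sum_le`, `conv` (AbelC), elementary sums (AbelD).
-/
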