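import Mathlib
import Pool.Agent.Lib_helper86.RT.Defs

set_option autoImplicit false

/-!
Abel's binomial identity.
-/

namespace RT

open Finset

namespace AbelA

/-- `x (x + k)^(k-1)` -/
noncomputable def b (x : ℝ) (k : ℕ) : ℝ := if k = 0 then 1 else x * (x + k) ^ (k - 1)

/-- the sum in Abel's identity -/
noncomputable def S (n : ℕ) (x y : ℝ) : ℝ :=
  ∑ k ∈ range (n + 1), (n.choose k : ℝ) * b x k * (y + n - k) ^ (n - k)

lemma S_at (n : ℕ) (x : ℝ) : S (n + 1) x (-(x + (n + 1 : ℕ))) = 0 := by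
  have h := congr_fun (fwdDiff_iter_pow_eq_zero_of_lt (R := ℝ) (Nat.lt_succ_self n)) x
  rw [fwdDiff_iter_eq_sum_shift] at h
  have h2 : S (n + 1) x (-(x + (n + 1 : ℕ))) =
      x * ∑ k ∈ range (n + 1 + 1), ((-1 : ℤ) ^ (n + 1 - k) * (n + 1).choose k) • (x + k • (1 : ℝ)) ^ n := by
    unfold S
    rw [Finset.mul_sum]
    refine Finset.sum_congr rfl fun k hk => ?_
    have hk' : k ≤ n + 1 := Nat.lt_succ_iff.1 (Finset.mem_range.1 hk)
    have e1 : -(x + (n + 1 : ℕ)) + (n + 1 : ℕ) - (k : ℝ) = (-1) * (x + k) := by push_cast; ring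
    rw [e1, mul_pow]
    have e2 : b x k * (x + k) ^ (n + 1 - k) = x * (x + k) ^ n := by
      unfold b
      split_ifs with h0
      · subst h0
        simp only [Nat.cast_zero, add_zero, Nat.sub_zero, one_mul]
        rw [pow_succ]; ring
      · rw [mul_assoc, ← pow_add, show k - 1 + (n + 1 - k) = n by omega]
    rw [zsmul_eq_mul]
    push_cast
    rw [nsmul_eq_mul, mul_one]
    calc ((n + 1).choose k : ℝ) * b x k * ((-1) ^ (n + 1 - k) * (x + k) ^ (n + 1 - k))
        = ((n + 1).choose k : ℝ) * (-1) ^ (n + 1 - k) * (b x k * (x + k) ^ (n + 1 - k)) := by ring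
      _ = ((n + 1).choose k : ℝ) * (-1) ^ (n + 1 - k) * (x * (x + k) ^ n) := by rw [e2]
      _ = _ := by ring
  rw [h2]
  have h3 : ∑ k ∈ range (n + 1 + 1), ((-1 : ℤ) ^ (n + 1 - k) * (n + 1).choose k) •
      (x + k • (1 : ℝ)) ^ n = 0 := h
  rw [h3, mul_zero]

/-- Abel's identity -/
theorem abel (n : ℕ) (x : ℝ) : ∀ y : ℝ, S n x y = (x + y + n) ^ n := by
  induction n with
  | zero => intro y; simp [S, b]
  | succ n ih =>
    -- derivative in `y`
    have hd : ∀ y : ℝ, HasDerivAt (fun y => S (n + 1) x y - (x + y + (n + 1 : ℕ)) ^ (n + 1)) 0 y := by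
      intro y
      have h1 : HasDerivAt (fun y => S (n + 1) x y) ((n + 1 : ℝ) * S n x (y + 1)) y := by
        have h2 : HasDerivAt (fun y => S (n + 1) x y)
            (∑ k ∈ range (n + 1 + 1), ((n + 1).choose k : ℝ) * b x k *
              (((n + 1 - k : ℕ) : ℝ) * (y + (n + 1 : ℕ) - k) ^ (n + 1 - k - 1) * 1)) y := by
          unfold S
          refine HasDerivAt.fun_sum fun k _ => ?_
          refine HasDerivAt.const_mul _ ?_
          have h3 : HasDerivAt (fun y : ℝ => y + (n + 1 : ℕ) - k) 1 y :=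
            ((hasDerivAt_id y).add_const _).sub_const _
          exact h3.pow (n + 1 - k)
        refine h2.congr_deriv ?_
        rw [Finset.sum_range_succ]
        simp only [Nat.sub_self, Nat.cast_zero, zero_mul, mul_zero, add_zero]
        unfold S
        rw [Finset.mul_sum]
        refine Finset.sum_congr rfl fun k hk => ?_
        have hk' : k ≤ n := Nat.lt_succ_iff.1 (Finset.mem_range.1 hk)
        have e1 : ((n + 1).choose k : ℝ) * ((n + 1 - k : ℕ) : ℝ) = (n + 1 : ℝ) * (n.choose k) := by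
          have := Nat.choose_mul_succ_eq n k
          rw [mul_comm] at this
          exact_mod_cast this.symm
        have e2 : y + (n + 1 : ℕ) - (k : ℝ) = y + 1 + n - k := by push_cast; ring
        rw [e2, show n + 1 - k - 1 = n - k by omega]
        calc ((n + 1).choose k : ℝ) * b x k * (((n + 1 - k : ℕ) : ℝ) * (y + 1 + n - k) ^ (n - k) * 1)
            = (((n + 1).choose k : ℝ) * ((n + 1 - k : ℕ) : ℝ)) * b x k *
              (y + 1 + n - k) ^ (n - k) := by ring
          _ = _ := by rw [e1]; ring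
      have h4 : HasDerivAt (fun y : ℝ => (x + y + (n + 1 : ℕ)) ^ (n + 1))
          (((n + 1 : ℕ) : ℝ) * (x + y + (n + 1 : ℕ)) ^ (n + 1 - 1) * 1) y := by
        have h5 : HasDerivAt (fun y : ℝ => x + y + (n + 1 : ℕ)) 1 y :=
          ((hasDerivAt_id y).const_add x).add_const _
        exact h5.pow (n + 1)
      refine (h1.sub h4).congr_deriv ?_
      rw [ih (y + 1)]
      push_cast
      ring
    have hconst : ∀ y y' : ℝ, (fun y => S (n + 1) x y - (x + y + (n + 1 : ℕ)) ^ (n + 1)) y =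
        (fun y => S (n + 1) x y - (x + y + (n + 1 : ℕ)) ^ (n + 1)) y' :=
      is_const_of_deriv_eq_zero (fun y => (hd y).differentiableAt) fun y => (hd y).deriv
    intro y
    have h0 := hconst y (-(x + (n + 1 : ℕ)))
    simp only at h0
    rw [S_at n x] at h0
    have h1 : (x + -(x + (n + 1 : ℕ)) + (n + 1 : ℕ) : ℝ) = 0 := by ring
    rw [h1] at h0
    simp only [ne_eq, Nat.add_eq_zero_iff, one_ne_zero, and_false, not_false_eq_true, zero_pow,
      sub_zero] at h0
    linarith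

end AbelA

open AbelA

theorem abel_one (N : ℕ) : ∑ i ∈ range (N + 1), (N.choose i : ℝ) * ((i : ℝ) + 1) ^ i
    * (((N - i : ℕ) : ℝ) + 1) ^ (N - i - 1) = ((N : ℝ) + 2) ^ N := by
  have h := abel N 1 1
  unfold S at h
  rw [← Finset.sum_range_reflect] at h
  rw [show (1 : ℝ) + 1 + N = N + 2 by ring] at h
  rw [← h]
  refine Finset.sum_congr rfl fun i hi => ?_
  have hi' : i ≤ N := Nat.lt_succ_iff.1 (Finset.mem_range.1 hi)
  have e0 : N + 1 - 1 - i = N - i := by omega
  rw [e0, Nat.choose_symm hi', show N - (N - i) = i by omega]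
  have e1 : (1 : ℝ) + N - ((N - i : ℕ) : ℝ) = (i : ℝ) + 1 := by
    rw [Nat.cast_sub hi']; ring
  rw [e1]
  have e2 : b 1 (N - i) = (((N - i : ℕ) : ℝ) + 1) ^ (N - i - 1) := by
    unfold b
    split_ifs with h0
    · rw [h0]; simp
    · rw [one_mul, add_comm]
  rw [e2]
  ring

theorem abel_two (k : ℕ) (hk : 1 ≤ k) : ∑ j ∈ Icc 1 k, (k.choose j : ℝ) * (j : ℝ) ^ (j - 1)
    * ((k - j : ℕ) : ℝ) ^ (k - j) = (k : ℝ) ^ k := by
  have hf : (fun x : ℝ => S k x 0) = fun x : ℝ => (x + 0 + k) ^ k := by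
    funext x; exact abel k x 0
  have h1 : HasDerivAt (fun x : ℝ => (x + 0 + k) ^ k) ((k : ℝ) * (0 + 0 + k) ^ (k - 1) * 1) 0 := by
    have h2 : HasDerivAt (fun x : ℝ => x + 0 + k) 1 0 :=
      ((hasDerivAt_id (0 : ℝ)).add_const _).add_const _
    exact h2.pow k
  have h3 : HasDerivAt (fun x : ℝ => S k x 0)
      (∑ j ∈ range (k + 1), (if j = 0 then 0 else (k.choose j : ℝ) * (j : ℝ) ^ (j - 1)
        * ((k - j : ℕ) : ℝ) ^ (k - j))) 0 := by
    unfold S
    refine HasDerivAt.fun_sum fun j hj => ?_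
    have hj' : j ≤ k := Nat.lt_succ_iff.1 (Finset.mem_range.1 hj)
    by_cases h0 : j = 0
    · subst h0
      have e : (fun x : ℝ => (k.choose 0 : ℝ) * b x 0 * (0 + (k : ℝ) - ((0 : ℕ) : ℝ)) ^ (k - 0)) =
          fun _ => (k.choose 0 : ℝ) * 1 * (0 + (k : ℝ) - ((0 : ℕ) : ℝ)) ^ (k - 0) := by
        funext x; simp [b]
      rw [e, if_pos rfl]
      exact hasDerivAt_const _ _
    · rw [if_neg h0]
      have e : (fun x : ℝ => (k.choose j : ℝ) * b x j * (0 + (k : ℝ) - (j : ℝ)) ^ (k - j)) =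
          fun x => (k.choose j : ℝ) * (x * (x + j) ^ (j - 1)) * (0 + (k : ℝ) - (j : ℝ)) ^ (k - j) := by
        funext x; simp [b, h0]
      rw [e]
      have h4 : HasDerivAt (fun x : ℝ => x * (x + j) ^ (j - 1)) ((j : ℝ) ^ (j - 1)) 0 := by
        have h5 : HasDerivAt (fun x : ℝ => (x + j) ^ (j - 1))
            (((j - 1 : ℕ) : ℝ) * (0 + j) ^ (j - 1 - 1) * 1) 0 := by
          have h6 : HasDerivAt (fun x : ℝ => x + j) 1 0 := (hasDerivAt_id (0 : ℝ)).add_const _
          exact h6.pow (j - 1)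
        have h7 := (hasDerivAt_id (0 : ℝ)).mul h5
        refine h7.congr_deriv ?_
        simp
      have h8 := (h4.const_mul (k.choose j : ℝ)).mul_const ((0 + (k : ℝ) - (j : ℝ)) ^ (k - j))
      refine h8.congr_deriv ?_
      rw [Nat.cast_sub hj', zero_add]
  rw [hf] at h3
  have h4 := h3.unique h1
  have h5 : ∑ j ∈ range (k + 1), (if j = 0 then 0 else (k.choose j : ℝ) * (j : ℝ) ^ (j - 1)
        * ((k - j : ℕ) : ℝ) ^ (k - j)) = ∑ j ∈ Icc 1 k, (k.choose j : ℝ) * (j : ℝ) ^ (j - 1)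
        * ((k - j : ℕ) : ℝ) ^ (k - j) := by
    rw [Finset.sum_ite, Finset.sum_const_zero, zero_add]
    refine Finset.sum_congr ?_ fun _ _ => rfl
    ext j
    simp only [Finset.mem_filter, Finset.mem_range, Finset.mem_Icc]
    omega
  rw [h5] at h4
  rw [h4]
  have h6 : (k : ℝ) ^ k = k * (k : ℝ) ^ (k - 1) := by
    conv_lhs => rw [show k = (k - 1) + 1 by omega]
    rw [pow_succ]
    rw [show k - 1 + 1 = k by omega]
    ring
  rw [h6]
  ring

end RT
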