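import Mathlib
import Pool.Agent.Lib_helper86.RT.AbelA

set_option autoImplicit false

namespace RT

open Finset

lemma υ_eq_div (k : ℕ) : υ k = ((k : ℝ) / Real.exp 1) ^ k / (k.factorial : ℝ) := by
  unfold υ
  rw [div_pow, ← Real.exp_nat_mul, mul_one, Real.exp_neg]
  field_simp

theorem υ_le (k : ℕ) (hk : 1 ≤ k) : υ k ≤ 1 / √k := by
  have hk' : (0 : ℝ) < k := by exact_mod_cast hk
  rw [υ_eq_div]
  have h := Stirling.le_factorial_stirling k
  have hA : 0 < ((k : ℝ) / Real.exp 1) ^ k := by positivity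
  have hf : (0 : ℝ) < (k.factorial : ℝ) := by exact_mod_cast k.factorial_pos
  have hs : √(k : ℝ) ≤ √(2 * Real.pi * k) := by
    apply Real.sqrt_le_sqrt
    nlinarith [Real.pi_gt_three]
  rw [div_le_div_iff₀ hf (Real.sqrt_pos.2 hk'), one_mul]
  calc ((k : ℝ) / Real.exp 1) ^ k * √(k : ℝ) ≤ ((k : ℝ) / Real.exp 1) ^ k * √(2 * Real.pi * k) :=
        mul_le_mul_of_nonneg_left hs hA.le
    _ = √(2 * Real.pi * k) * ((k : ℝ) / Real.exp 1) ^ k := mul_comm _ _
    _ ≤ _ := h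

theorem υ_ge (k : ℕ) (hk : 1 ≤ k) : 1 / (3 * √k) ≤ υ k := by
  have hk' : (0 : ℝ) < k := by exact_mod_cast hk
  rw [υ_eq_div]
  have hA : 0 < ((k : ℝ) / Real.exp 1) ^ k := by positivity
  have hf : (0 : ℝ) < (k.factorial : ℝ) := by exact_mod_cast k.factorial_pos
  have h : Stirling.stirlingSeq k ≤ Stirling.stirlingSeq 1 := by
    obtain ⟨m, rfl⟩ : ∃ m, k = m + 1 := ⟨k - 1, by omega⟩
    exact Stirling.stirlingSeq'_antitone (Nat.zero_le m)
  rw [Stirling.stirlingSeq_one] at h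
  unfold Stirling.stirlingSeq at h
  have h2k : (0 : ℝ) < √(2 * k) := by positivity
  have h2 : (0 : ℝ) < √2 := by positivity
  rw [div_le_div_iff₀ (by positivity) h2] at h
  have hs : √(2 * (k : ℝ)) = √2 * √(k : ℝ) := Real.sqrt_mul (by norm_num) _
  rw [hs] at h
  have h3 : (k.factorial : ℝ) ≤ Real.exp 1 * √(k : ℝ) * ((k : ℝ) / Real.exp 1) ^ k := by
    have : (k.factorial : ℝ) * √2 ≤ (Real.exp 1 * √(k : ℝ) * ((k : ℝ) / Real.exp 1) ^ k) * √2 := by
      calc (k.factorial : ℝ) * √2 ≤ _ := h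
        _ = _ := by ring
    exact le_of_mul_le_mul_right this h2
  have hsk : 0 < √(k : ℝ) := Real.sqrt_pos.2 hk'
  have he : Real.exp 1 ≤ 3 := by
    have := Real.exp_one_lt_d9
    linarith
  rw [div_le_div_iff₀ (by positivity) hf, one_mul]
  calc (k.factorial : ℝ) ≤ Real.exp 1 * √(k : ℝ) * ((k : ℝ) / Real.exp 1) ^ k := h3
    _ ≤ 3 * √(k : ℝ) * ((k : ℝ) / Real.exp 1) ^ k := by
        apply mul_le_mul_of_nonneg_right _ hA.le
        exact mul_le_mul_of_nonneg_right he hsk.le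
    _ = ((k : ℝ) / Real.exp 1) ^ k * (3 * √(k : ℝ)) := by ring

theorem τ_mul (k : ℕ) (hk : 1 ≤ k) : (k : ℝ) * τ k = υ k := by
  obtain ⟨m, rfl⟩ : ∃ m, k = m + 1 := ⟨k - 1, by omega⟩
  unfold τ υ
  rw [if_neg (by omega), Nat.add_sub_cancel, pow_succ]
  ring

lemma τ_eq (k : ℕ) (hk : 1 ≤ k) : τ k = υ k / k := by
  have hk' : (k : ℝ) ≠ 0 := by positivity
  rw [← τ_mul k hk]
  field_simp

theorem τ_le (k : ℕ) (hk : 1 ≤ k) : τ k ≤ 1 / (k * √k) := by
  have hk' : (0 : ℝ) < k := by exact_mod_cast hk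
  rw [τ_eq k hk]
  calc υ k / k ≤ (1 / √k) / k := div_le_div_of_nonneg_right (υ_le k hk) hk'.le
    _ = 1 / (k * √k) := by
      rw [div_div, mul_comm]

theorem τ_ge (k : ℕ) (hk : 1 ≤ k) : 1 / (3 * (k * √k)) ≤ τ k := by
  have hk' : (0 : ℝ) < k := by exact_mod_cast hk
  rw [τ_eq k hk]
  calc 1 / (3 * (k * √k)) = (1 / (3 * √k)) / k := by
        rw [div_div]
        congr 1
        ring
    _ ≤ υ k / k := div_le_div_of_nonneg_right (υ_ge k hk) hk'.le

theorem υ_rec (k : ℕ) (hk : 1 ≤ k) : υ k = ∑ j ∈ Icc 1 k, τ j * υ (k - j) := by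
  have hf : (k.factorial : ℝ) ≠ 0 := by positivity
  have key : ∀ j ∈ Icc 1 k, τ j * υ (k - j) = ((k.choose j : ℝ) * (j : ℝ) ^ (j - 1)
      * ((k - j : ℕ) : ℝ) ^ (k - j)) * (1 / (k.factorial : ℝ) * Real.exp (-(k : ℝ))) := by
    intro j hj
    rw [mem_Icc] at hj
    unfold τ υ
    rw [if_neg (by omega)]
    have h1 : ((k.choose j : ℕ) : ℝ) * (j.factorial : ℝ) * ((k - j).factorial : ℝ)
        = (k.factorial : ℝ) := by
      exact_mod_cast Nat.choose_mul_factorial_mul_factorial hj.2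
    have h2 : Real.exp (-(j : ℝ)) * Real.exp (-((k - j : ℕ) : ℝ)) = Real.exp (-(k : ℝ)) := by
      rw [← Real.exp_add]
      congr 1
      rw [Nat.cast_sub hj.2]
      ring
    have hj0 : (j.factorial : ℝ) ≠ 0 := by positivity
    have hkj0 : ((k - j).factorial : ℝ) ≠ 0 := by positivity
    rw [← h2, ← h1]
    have hc : ((k.choose j : ℕ) : ℝ) ≠ 0 := by
      have := Nat.choose_pos hj.2
      positivity
    field_simp
  rw [sum_congr rfl key, ← sum_mul, abel_two k hk]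
  unfold υ
  ring

end RT
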