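import Mathlib
import Pool.Agent.Lib_helper86.RT.AbelB

set_option autoImplicit false

namespace RT

open Finset

theorem τ_nonneg (k : ℕ) : 0 ≤ τ k := by
  unfold τ; split_ifs <;> positivity

theorem υ_nonneg (k : ℕ) : 0 ≤ υ k := by
  unfold υ; positivity

theorem υ_zero : υ 0 = 1 := by
  simp [υ]

/-! the lemmas -/

theorem υ_le_one (k : ℕ) : υ k ≤ 1 := by
  rcases Nat.eq_zero_or_pos k with rfl | hk
  · rw [υ_zero]
  · refine (υ_le k hk).trans ?_
    have h1 : (1 : ℝ) ≤ √k := by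
      rw [Real.one_le_sqrt]
      exact_mod_cast hk
    rw [div_le_one (by linarith)]
    exact h1

theorem τ_zero : τ 0 = 0 := if_pos rfl

/-- `(∑_{j ≤ N} τ j) (∑_{i ≤ M} υ i) ≤ ∑_{n ≤ N + M} υ n` -/
theorem τυ_conv (N M : ℕ) : (∑ j ∈ range (N + 1), τ j) * (∑ i ∈ range (M + 1), υ i)
    ≤ ∑ n ∈ range (N + M + 1), υ n := by
  have h1 : (∑ j ∈ range (N + 1), τ j) * (∑ i ∈ range (M + 1), υ i)
      = ∑ p ∈ (range (N + 1)) ×ˢ (range (M + 1)), τ p.1 * υ p.2 := by
    rw [Finset.sum_mul_sum, Finset.sum_product]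
  have h2 : ∑ n ∈ range (N + M + 1), ∑ j ∈ range (n + 1), τ j * υ (n - j)
      ≤ ∑ n ∈ range (N + M + 1), υ n := by
    apply Finset.sum_le_sum
    intro n _
    rcases Nat.eq_zero_or_pos n with rfl | hn
    · simp [τ_zero, υ_nonneg]
    · rw [Finset.sum_range_succ', τ_zero, zero_mul, add_zero, υ_rec n hn]
      apply le_of_eq
      rw [show Icc 1 n = Ico 1 (n + 1) from rfl, Finset.sum_Ico_eq_sum_range]
      refine Finset.sum_congr rfl fun i _ => ?_
      rw [add_comm 1 i]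
  refine le_trans ?_ h2
  rw [h1, Finset.sum_sigma']
  have hinj : Set.InjOn (fun p : ℕ × ℕ => (⟨p.1 + p.2, p.1⟩ : (_ : ℕ) × ℕ))
      ((range (N + 1)) ×ˢ (range (M + 1)) : Finset (ℕ × ℕ)) := by
    rintro ⟨a, b⟩ _ ⟨c, d⟩ _ h
    simp only [Sigma.mk.injEq, heq_eq_eq] at h
    obtain ⟨h1, h2⟩ := h
    subst h2
    have : b = d := by omega
    rw [this]
  have h3 : ∑ p ∈ (range (N + 1)) ×ˢ (range (M + 1)), τ p.1 * υ p.2
      = ∑ q ∈ ((range (N + 1)) ×ˢ (range (M + 1))).image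
          (fun p : ℕ × ℕ => (⟨p.1 + p.2, p.1⟩ : (_ : ℕ) × ℕ)), τ q.2 * υ (q.1 - q.2) := by
    rw [Finset.sum_image hinj]
    refine Finset.sum_congr rfl fun p _ => ?_
    simp
  rw [h3]
  apply Finset.sum_le_sum_of_subset_of_nonneg
  · intro q hq
    rw [Finset.mem_image] at hq
    obtain ⟨⟨a, b⟩, hp, rfl⟩ := hq
    rw [Finset.mem_product, Finset.mem_range, Finset.mem_range] at hp
    simp only at hp
    rw [Finset.mem_sigma, Finset.mem_range, Finset.mem_range]
    simp only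
    omega
  · intro q _ _
    exact mul_nonneg (τ_nonneg _) (υ_nonneg _)

theorem τ_sum_le (s : Finset ℕ) : ∑ k ∈ s, τ k ≤ 1 := by
  obtain ⟨N, hN⟩ : ∃ N, s ⊆ range (N + 1) := by
    refine ⟨s.sup id, fun k hk => ?_⟩
    rw [Finset.mem_range]
    exact Nat.lt_succ_of_le (Finset.le_sup (f := id) hk)
  refine le_trans (Finset.sum_le_sum_of_subset_of_nonneg hN fun k _ _ => τ_nonneg k) ?_
  by_contra hA
  rw [not_le] at hA
  set A := ∑ k ∈ range (N + 1), τ k with hAdef
  have h1 : ∀ k : ℕ, A ^ k ≤ ∑ n ∈ range (k * N + 1), υ n := by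
    intro k
    induction k with
    | zero => simp [υ_zero]
    | succ k ih =>
      have h2 := τυ_conv N (k * N)
      have e1 : N + k * N + 1 = (k + 1) * N + 1 := by ring
      rw [e1] at h2
      refine le_trans ?_ h2
      rw [pow_succ, mul_comm]
      exact mul_le_mul_of_nonneg_left ih (by linarith)
  have h2 : ∀ k : ℕ, A ^ k ≤ (k : ℝ) * N + 1 := by
    intro k
    refine (h1 k).trans ?_
    refine (Finset.sum_le_sum fun n _ => υ_le_one n).trans ?_
    simp
  have h3 := tendsto_pow_const_div_const_pow_of_one_lt 1 hA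
  have h4 := tendsto_pow_const_div_const_pow_of_one_lt 0 hA
  have h5 : Filter.Tendsto (fun k : ℕ => (N : ℝ) * ((k : ℝ) ^ 1 / A ^ k) + (k : ℝ) ^ 0 / A ^ k)
      Filter.atTop (nhds ((N : ℝ) * 0 + 0)) := (h3.const_mul (N : ℝ)).add h4
  rw [mul_zero, add_zero] at h5
  have h6 : ∀ᶠ k : ℕ in Filter.atTop,
      (N : ℝ) * ((k : ℝ) ^ 1 / A ^ k) + (k : ℝ) ^ 0 / A ^ k < 1 :=
    h5.eventually (gt_mem_nhds one_pos)
  obtain ⟨k, hk⟩ := h6.exists
  have hpos : 0 < A ^ k := by positivity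
  have h7 : (N : ℝ) * ((k : ℝ) ^ 1 / A ^ k) + (k : ℝ) ^ 0 / A ^ k = (k * N + 1) / A ^ k := by
    rw [pow_one, pow_zero]
    ring
  rw [h7, div_lt_one hpos] at hk
  linarith [h2 k]

/-- `j`-fold convolution of `τ` -/
noncomputable def conv : ℕ → ℕ → ℝ
  | 0, s => if s = 0 then 1 else 0
  | (j + 1), s => ∑ k ∈ range (s + 1), τ k * conv j (s - k)

theorem conv_nonneg (j s : ℕ) : 0 ≤ conv j s := by
  induction j generalizing s with
  | zero => unfold conv; split_ifs <;> norm_num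
  | succ j ih =>
    unfold conv
    exact Finset.sum_nonneg fun k _ => mul_nonneg (τ_nonneg k) (ih _)

theorem conv_sum_le (j : ℕ) (s : Finset ℕ) : ∑ k ∈ s, conv j k ≤ 1 := by
  induction j generalizing s with
  | zero =>
    have h : ∑ k ∈ s, conv 0 k = ∑ k ∈ s, if k = 0 then (1 : ℝ) else 0 := rfl
    rw [h, Finset.sum_ite_eq']
    split_ifs <;> norm_num
  | succ j ih =>
    obtain ⟨N, hN⟩ : ∃ N, s ⊆ range (N + 1) := by
      refine ⟨s.sup id, fun k hk => ?_⟩
      rw [Finset.mem_range]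
      exact Nat.lt_succ_of_le (Finset.le_sup (f := id) hk)
    refine le_trans (Finset.sum_le_sum_of_subset_of_nonneg hN fun k _ _ => conv_nonneg _ k) ?_
    have h1 : ∑ n ∈ range (N + 1), conv (j + 1) n
        = ∑ k ∈ range (N + 1), ∑ n ∈ Ico k (N + 1), τ k * conv j (n - k) := by
      have : ∀ n ∈ range (N + 1), conv (j + 1) n = ∑ k ∈ range (n + 1), τ k * conv j (n - k) :=
        fun n _ => rfl
      rw [Finset.sum_congr rfl this]
      apply Finset.sum_comm'
      intro x y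
      simp only [Finset.mem_range, Finset.mem_Ico]
      omega
    rw [h1]
    have h2 : ∀ k ∈ range (N + 1), ∑ n ∈ Ico k (N + 1), τ k * conv j (n - k) ≤ τ k := by
      intro k _
      rw [← Finset.mul_sum, Finset.sum_Ico_eq_sum_range]
      have h3 : ∑ i ∈ range (N + 1 - k), conv j (k + i - k)
          = ∑ i ∈ range (N + 1 - k), conv j i := by
        refine Finset.sum_congr rfl fun i _ => ?_
        rw [Nat.add_sub_cancel_left]
      rw [h3]
      calc τ k * ∑ i ∈ range (N + 1 - k), conv j i ≤ τ k * 1 :=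
            mul_le_mul_of_nonneg_left (ih _) (τ_nonneg k)
        _ = τ k := mul_one _
    exact (Finset.sum_le_sum h2).trans (τ_sum_le _)

end RT
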