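import Mathlib
import Pool.Agent.Lib_helper86.RT.Abel

set_option autoImplicit false

/-!
Module STAR (structure of the weights).  Paper proofs.

* `deg_formula`: E (m+1) (deg f * Φ f) = sum over a, b of e^(-1) w a w b Φ (cons a b): from `E_succ`.
* `splits_formula`: by induction on d, for H supported on pairs with deg g + deg h = d.  Both sides
  multiplied by d: left: deg f * ∑_{splits f} H = use `deg_formula` and
  splits (cons a b) = (cons a p1, p2), (p1, cons a p2); right: (deg g + deg h) H(g,h), `deg_formula` in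
  each variable.  d = 0: only nil.  General H: H = ∑_d H 1[deg g + deg h = d] (finite sum for each m
  since deg f ≤ size f), every split of f has total degree deg f.
* `br_formula`: same induction, or from `splits_formula` with H(g,h) = 1[g = cons a nil] H'(a,h)
  (w (cons a nil) = e^(-1) w a).
* `fr_br`: induction on f.
* `E_one`: from `br_formula` with H(a,g) = vs a: ∑_{br f} vs a = size f, so with F m = E m 1:
  m F m = ∑_{k=1}^m k e^(-1) F (k-1) F (m-k); verify with `abel_one` (strong induction).
* `fringe_formula`: N z := ET z (∑_{fr a} g), by `fr_br` and `br_formula` and `ET_one`: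
  N z = ∑_{k<z} (ET k g + N k) τ (z-k); conclude with `υ_rec` (strong induction).
-/

namespace RT

open Pool.MP_1af41f_co.CSF Finset

lemma sum_swap3 (m : ℕ) (F : ℕ → ℕ → ℕ → ℝ) :
    ∑ k ∈ range (m + 1), ∑ i ∈ range (k + 1), F i (k - i) (m - k)
      = ∑ i ∈ range (m + 1), ∑ j ∈ range (m - i + 1), F i j (m - i - j) := by
  rw [Finset.sum_sigma', Finset.sum_sigma']
  refine Finset.sum_bij' (fun p _ => (⟨p.2, p.1 - p.2⟩ : (_ : ℕ) × ℕ))
    (fun p _ => (⟨p.1 + p.2, p.1⟩ : (_ : ℕ) × ℕ)) ?_ ?_ ?_ ?_ ?_
  · rintro ⟨k, i⟩ h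
    simp only [Finset.mem_sigma, Finset.mem_range] at h ⊢
    omega
  · rintro ⟨i, j⟩ h
    simp only [Finset.mem_sigma, Finset.mem_range] at h ⊢
    omega
  · rintro ⟨k, i⟩ h
    simp only [Finset.mem_sigma, Finset.mem_range] at h
    obtain ⟨h1, h2⟩ := h
    have : i + (k - i) = k := by omega
    simp [this]
  · rintro ⟨i, j⟩ h
    have : i + j - i = j := by omega
    simp [this]
  · rintro ⟨k, i⟩ h
    simp only [Finset.mem_sigma, Finset.mem_range] at h
    have h3 : m - k = m - i - (k - i) := by omega
    simp only [h3]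

lemma deg_formula (m : ℕ) (Φ : Fr → ℝ) :
    E (m + 1) (fun f => (deg f : ℝ) * Φ f) = ∑ i ∈ range (m + 1),
      ∑ a ∈ FS i, Real.exp (-1) * w a * E (m - i) (fun b => Φ (Fr.cons a b)) := by
  rw [E_succ]
  refine Finset.sum_congr rfl fun i _ => Finset.sum_congr rfl fun a _ => ?_
  rw [E, Finset.mul_sum]
  refine Finset.sum_congr rfl fun b _ => ?_
  have h : (deg (Fr.cons a b) : ℝ) = 1 + deg b := by
    simp [deg]
  rw [h]
  have : (1 : ℝ) + deg b ≠ 0 := by positivity
  field_simp

/-- double weighted sum -/
noncomputable def DD (m : ℕ) (H : Fr → Fr → ℝ) : ℝ :=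
  ∑ k ∈ range (m + 1), E k (fun g => E (m - k) (fun h => H g h))

lemma DD_symm (m : ℕ) (H : Fr → Fr → ℝ) : DD m H = DD m (fun g h => H h g) := by
  unfold DD
  rw [← Finset.sum_range_reflect]
  refine Finset.sum_congr rfl fun k hk => ?_
  have hk' : k < m + 1 := Finset.mem_range.1 hk
  have e1 : m + 1 - 1 - k = m - k := by omega
  have e2 : m - (m - k) = k := by omega
  rw [e1, e2]
  simp only [E, Finset.mul_sum]
  rw [Finset.sum_comm]
  refine Finset.sum_congr rfl fun a _ => Finset.sum_congr rfl fun b _ => ?_
  ring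

lemma DD_deg_left (m : ℕ) (H : Fr → Fr → ℝ) :
    DD (m + 1) (fun g h => (deg g : ℝ) * H g h) = ∑ i ∈ range (m + 1),
      ∑ a ∈ FS i, Real.exp (-1) * w a * DD (m - i) (fun g h => H (Fr.cons a g) h) := by
  unfold DD
  rw [Finset.sum_range_succ']
  have h0 : E 0 (fun g => E (m + 1 - 0) (fun h => (deg g : ℝ) * H g h)) = 0 := by
    rw [E_zero]
    simp [deg, E]
  rw [h0, add_zero]
  have h1 : ∀ k ∈ range (m + 1), E (k + 1) (fun g => E (m + 1 - (k + 1)) (fun h => (deg g : ℝ) * H g h))
      = ∑ i ∈ range (k + 1), (fun i j l => ∑ a ∈ FS i, Real.exp (-1) * w a *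
        E j (fun b => E l (fun h => H (Fr.cons a b) h))) i (k - i) (m - k) := by
    intro k _
    have e1 : m + 1 - (k + 1) = m - k := by omega
    rw [e1]
    have h2 : (fun g => E (m - k) (fun h => (deg g : ℝ) * H g h))
        = (fun g => (deg g : ℝ) * E (m - k) (fun h => H g h)) := by
      funext g
      rw [E_mul_left]
    rw [h2, deg_formula]
  rw [Finset.sum_congr rfl h1, sum_swap3 m (fun i j l => ∑ a ∈ FS i, Real.exp (-1) * w a *
        E j (fun b => E l (fun h => H (Fr.cons a b) h)))]
  refine Finset.sum_congr rfl fun i _ => ?_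
  simp only [Finset.mul_sum]
  rw [Finset.sum_comm]

lemma splits_deg (f : Fr) : ∀ p ∈ splits f, deg p.1 + deg p.2 = deg f := by
  induction f with
  | nil =>
    intro p hp
    simp only [splits, List.mem_singleton] at hp
    subst hp
    rfl
  | cons a b _ ih =>
    intro p hp
    simp only [splits, List.mem_append, List.mem_map] at hp
    rcases hp with ⟨q, hq, rfl⟩ | ⟨q, hq, rfl⟩
    · have := ih q hq
      simp only [deg]
      omega
    · have := ih q hq
      simp only [deg]
      omega

lemma deg_pos_of_size {f : Fr} (h : 0 < f.size) : 0 < deg f := by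
  cases f with
  | nil => simp [Fr.size] at h
  | cons a b => simp [deg]

/-- marking a subset of the branches -/
theorem splits_formula (m : ℕ) (H : Fr → Fr → ℝ) :
    E m (fun f => ((splits f).map (fun p => H p.1 p.2)).sum)
      = ∑ k ∈ range (m + 1), E k (fun g => E (m - k) (fun h => H g h)) := by
  change _ = DD m H
  induction m using Nat.strong_induction_on generalizing H with
  | _ m ih =>
    rcases m with _ | m
    · rw [E_zero]
      simp [splits, DD, E_zero]
    · -- normalised function
      set K : Fr → Fr → ℝ := fun g h => H g h / ((deg g : ℝ) + deg h) with hK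
      have hL : E (m + 1) (fun f => ((splits f).map (fun p => H p.1 p.2)).sum)
          = E (m + 1) (fun f => (deg f : ℝ) * ((splits f).map (fun p => K p.1 p.2)).sum) := by
        apply E_congr
        intro f hf
        rw [← List.sum_map_mul_left]
        congr 1
        apply List.map_congr_left
        intro p hp
        have h1 := splits_deg f p hp
        have h2 : 0 < deg f := deg_pos_of_size (by omega)
        have h3 : (deg f : ℝ) = (deg p.1 : ℝ) + deg p.2 := by
          rw [← h1]; push_cast; ring
        have h4 : (deg p.1 : ℝ) + deg p.2 ≠ 0 := by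
          rw [← h3]
          exact_mod_cast h2.ne'
        rw [h3, hK]
        field_simp
      have hR : DD (m + 1) H = DD (m + 1) (fun g h => (deg g : ℝ) * K g h)
          + DD (m + 1) (fun g h => (deg h : ℝ) * K g h) := by
        unfold DD
        rw [← Finset.sum_add_distrib]
        refine Finset.sum_congr rfl fun k hk => ?_
        have hk' : k < m + 1 + 1 := Finset.mem_range.1 hk
        rw [← E_add]
        apply E_congr
        intro g hg
        rw [← E_add]
        apply E_congr
        intro h hh
        have h2 : 0 < deg g + deg h := by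
          rcases Nat.eq_zero_or_pos g.size with h0 | h0
          · have : 0 < deg h := deg_pos_of_size (by omega)
            omega
          · have : 0 < deg g := deg_pos_of_size h0
            omega
        have h4 : (deg g : ℝ) + deg h ≠ 0 := by
          have : ((deg g + deg h : ℕ) : ℝ) ≠ 0 := by exact_mod_cast h2.ne'
          push_cast at this
          exact this
        rw [hK]
        field_simp
      rw [hL, hR, deg_formula, DD_symm (m + 1) (fun g h => (deg h : ℝ) * K g h),
        DD_deg_left, DD_deg_left, ← Finset.sum_add_distrib]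
      refine Finset.sum_congr rfl fun i hi => ?_
      rw [← Finset.sum_add_distrib]
      refine Finset.sum_congr rfl fun a _ => ?_
      rw [← mul_add]
      congr 1
      have h5 : ∀ b : Fr, ((splits (Fr.cons a b)).map (fun p => K p.1 p.2)).sum
          = ((splits b).map (fun p => K (Fr.cons a p.1) p.2)).sum
            + ((splits b).map (fun p => K p.1 (Fr.cons a p.2))).sum := by
        intro b
        simp only [splits, List.map_append, List.map_map, List.sum_append]
        rfl
      simp only [h5]
      rw [E_add, ih (m - i) (by omega) (fun g h => K (Fr.cons a g) h),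
        ih (m - i) (by omega) (fun g h => K g (Fr.cons a h)),
        DD_symm (m - i) (fun g h => K g (Fr.cons a h))]


/-- the splits with empty first part -/
lemma splits_nil_sum (f : Fr) (G : Fr → Fr → ℝ) (hG : ∀ a b h, G (Fr.cons a b) h = 0) :
    ((splits f).map (fun p => G p.1 p.2)).sum = G Fr.nil f := by
  induction f generalizing G with
  | nil => simp [splits]
  | cons a b _ ih =>
    simp only [splits, List.map_append, List.map_map, List.sum_append]
    have h1 : ((splits b).map ((fun p : Fr × Fr => G p.1 p.2) ∘ fun p => (Fr.cons a p.1, p.2))).sum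
        = 0 := by
      apply List.sum_eq_zero
      intro x hx
      rw [List.mem_map] at hx
      obtain ⟨p, _, rfl⟩ := hx
      exact hG _ _ _
    rw [h1, zero_add]
    exact ih (fun g h => G g (Fr.cons a h)) (fun a' b' h => hG _ _ _)

open Classical in
/-- function supported on single branches -/
noncomputable def single (H : Fr → Fr → ℝ) : Fr → Fr → ℝ
  | Fr.cons a Fr.nil, h => H a h
  | _, _ => 0

lemma single_nil (H : Fr → Fr → ℝ) (h : Fr) : single H Fr.nil h = 0 := rfl

lemma single_one (H : Fr → Fr → ℝ) (a h : Fr) : single H (Fr.cons a Fr.nil) h = H a h := rfl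

lemma single_two (H : Fr → Fr → ℝ) (a b c h : Fr) :
    single H (Fr.cons a (Fr.cons b c)) h = 0 := rfl

lemma splits_single_sum (f : Fr) (H : Fr → Fr → ℝ) :
    ((splits f).map (fun p => single H p.1 p.2)).sum = ((br f).map (fun p => H p.1 p.2)).sum := by
  induction f generalizing H with
  | nil => simp [splits, br, single_nil]
  | cons a b _ ih =>
    simp only [splits, br, List.map_append, List.map_map, List.sum_append, List.map_cons,
      List.sum_cons]
    have h1 : ((splits b).map ((fun p : Fr × Fr => single H p.1 p.2) ∘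
        fun p => (Fr.cons a p.1, p.2))).sum = H a b := by
      have := splits_nil_sum b (fun g h => single H (Fr.cons a g) h) (fun _ _ _ => rfl)
      rw [single_one] at this
      exact this
    rw [h1]
    congr 1
    have h2 := ih (fun x h => H x (Fr.cons a h))
    rw [Function.comp_def, Function.comp_def]
    rw [← h2]
    congr 1
    apply List.map_congr_left
    intro p _
    obtain ⟨p1, p2⟩ := p
    rcases p1 with _ | ⟨x, y⟩
    · rfl
    · rcases y with _ | ⟨y, z⟩
      · rfl
      · rfl

lemma E_single (k : ℕ) (Ψ : Fr → ℝ) (h0 : Ψ Fr.nil = 0)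
    (h2 : ∀ a b c, Ψ (Fr.cons a (Fr.cons b c)) = 0) :
    E k Ψ = ET k (fun a => Ψ (Fr.cons a Fr.nil)) := by
  rcases k with _ | k
  · rw [E_zero, ET_zero, h0]
  · rw [E_succ, ET_succ, Finset.sum_range_succ]
    have h3 : ∑ i ∈ range k, ∑ a ∈ FS i, ∑ b ∈ FS (k - i),
        Real.exp (-1) * w a * w b / (1 + deg b) * Ψ (Fr.cons a b) = 0 := by
      apply Finset.sum_eq_zero
      intro i hi
      apply Finset.sum_eq_zero
      intro a _
      apply Finset.sum_eq_zero
      intro b hb
      rw [mem_FS] at hb
      rw [Finset.mem_range] at hi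
      rcases b with _ | ⟨x, y⟩
      · simp [Fr.size] at hb
        omega
      · rw [h2, mul_zero]
    rw [h3, zero_add, E, Finset.mul_sum]
    refine Finset.sum_congr rfl fun a _ => ?_
    rw [Nat.sub_self]
    have h4 : FS 0 = {Fr.nil} := by
      ext f
      rw [mem_FS, Finset.mem_singleton]
      constructor
      · intro hf
        cases f with
        | nil => rfl
        | cons a b => simp [Fr.size] at hf
      · rintro rfl; rfl
    rw [h4, Finset.sum_singleton]
    simp only [w, deg, Nat.cast_zero, add_zero, div_one, mul_one]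
    ring

/-- marking a branch -/
theorem br_formula (m : ℕ) (H : Fr → Fr → ℝ) :
    E m (fun f => ((br f).map (fun p => H p.1 p.2)).sum)
      = ∑ k ∈ Icc 1 m, ET k (fun a => E (m - k) (fun g => H a g)) := by
  have h1 : (fun f => ((br f).map (fun p => H p.1 p.2)).sum)
      = (fun f => ((splits f).map (fun p => single H p.1 p.2)).sum) := by
    funext f
    rw [splits_single_sum]
  rw [h1, splits_formula]
  have h2 : ∀ k ∈ range (m + 1), E k (fun g => E (m - k) (fun h => single H g h))
      = ET k (fun a => E (m - k) (fun g => H a g)) := by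
    intro k _
    rw [E_single]
    · rfl
    · simp [single_nil, E]
    · intro a b c
      simp [single_two, E]
  rw [Finset.sum_congr rfl h2, Finset.range_eq_Ico, Finset.sum_eq_sum_Ico_succ_bot (by omega),
    ET_zero, zero_add]
  rfl

theorem fr_br (f : Fr) (g : Fr → ℝ) : ((fr f).map g).sum
    = ((br f).map (fun p => g p.1 + ((fr p.1).map g).sum)).sum := by
  induction f with
  | nil => simp [fr, br]
  | cons a b _ ih =>
    simp only [fr, br, List.map_cons, List.sum_cons, List.map_append, List.sum_append,
      List.map_map]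
    rw [ih, ← add_assoc]
    rfl

lemma size_br (f : Fr) : ((br f).map (fun p => (vs p.1 : ℝ))).sum = f.size := by
  induction f with
  | nil => simp [br, Fr.size]
  | cons a b _ ih =>
    simp only [br, List.map_cons, List.sum_cons, List.map_map]
    have : ((br b).map ((fun p : Fr × Fr => (vs p.1 : ℝ)) ∘ fun p => (p.1, Fr.cons a p.2))).sum
        = ((br b).map (fun p => (vs p.1 : ℝ))).sum := rfl
    rw [this, ih]
    simp only [vs, Fr.size]
    push_cast
    ring

lemma ET_const (k : ℕ) (c : ℝ) : ET k (fun _ => c) = c * ET k (fun _ => 1) := by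
  rw [← ET_mul_left]
  simp

lemma E_const (k : ℕ) (c : ℝ) : E k (fun _ => c) = c * E k (fun _ => 1) := by
  rw [← E_mul_left]
  simp

lemma E_one_aux (m : ℕ) (hm : 1 ≤ m) :
    ∑ k ∈ Icc 1 m, (k : ℝ) * τ k * τ (m - k + 1) = m * τ (m + 1) := by
  obtain ⟨N, rfl⟩ : ∃ N, m = N + 1 := ⟨m - 1, by omega⟩
  have h1 : ∑ k ∈ Icc 1 (N + 1), (k : ℝ) * τ k * τ (N + 1 - k + 1)
      = ∑ i ∈ range (N + 1), ((i : ℝ) + 1) * τ (i + 1) * τ (N - i + 1) := by
    rw [show Icc 1 (N + 1) = Ico 1 (N + 2) from rfl, Finset.sum_Ico_eq_sum_range]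
    refine Finset.sum_congr rfl fun i hi => ?_
    have hi' : i < N + 1 := Finset.mem_range.1 hi
    have e1 : N + 1 - (1 + i) + 1 = N - i + 1 := by omega
    rw [e1, add_comm 1 i]
    push_cast
    ring
  rw [h1]
  have h2 : ∀ i ∈ range (N + 1), ((i : ℝ) + 1) * τ (i + 1) * τ (N - i + 1)
      = (N.choose i : ℝ) * ((i : ℝ) + 1) ^ i * (((N - i : ℕ) : ℝ) + 1) ^ (N - i - 1)
        * (Real.exp (-((N : ℝ) + 2)) / N.factorial) := by
    intro i hi
    have hi' : i < N + 1 := Finset.mem_range.1 hi
    have hiN : i ≤ N := by omega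
    have hc : (N.choose i : ℝ) = N.factorial / (i.factorial * (N - i).factorial) := by
      rw [Nat.choose_eq_factorial_div_factorial hiN]
      rw [Nat.cast_div (Nat.factorial_mul_factorial_dvd_factorial hiN) (by positivity)]
      push_cast
      rfl
    have hf1 : ((i + 1).factorial : ℝ) = ((i : ℝ) + 1) * i.factorial := by
      rw [Nat.factorial_succ]; push_cast; ring
    have hf2 : ((N - i + 1).factorial : ℝ) = (((N - i : ℕ) : ℝ) + 1) * (N - i).factorial := by
      rw [Nat.factorial_succ]; push_cast; ring
    have hp : (((N - i : ℕ) : ℝ) + 1) ^ (N - i)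
        = (((N - i : ℕ) : ℝ) + 1) ^ (N - i - 1) * (((N - i : ℕ) : ℝ) + 1)
          ∨ N - i = 0 := by
      rcases Nat.eq_zero_or_pos (N - i) with h0 | h0
      · right; exact h0
      · left
        rw [← pow_succ]
        congr 1
        omega
    have hexp : Real.exp (-((i : ℝ) + 1)) * Real.exp (-(((N - i : ℕ) : ℝ) + 1))
        = Real.exp (-((N : ℝ) + 2)) := by
      rw [← Real.exp_add]
      congr 1
      rw [Nat.cast_sub hiN]
      ring
    have ht1 : τ (i + 1) = ((i : ℝ) + 1) ^ i / (((i : ℝ) + 1) * i.factorial)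
        * Real.exp (-((i : ℝ) + 1)) := by
      rw [τ, if_neg (by omega), hf1, Nat.add_sub_cancel]
      push_cast
      rfl
    have ht2 : τ (N - i + 1) = (((N - i : ℕ) : ℝ) + 1) ^ (N - i)
        / ((((N - i : ℕ) : ℝ) + 1) * (N - i).factorial)
        * Real.exp (-(((N - i : ℕ) : ℝ) + 1)) := by
      rw [τ, if_neg (by omega), hf2, Nat.add_sub_cancel]
      push_cast
      rfl
    have key : (((N - i : ℕ) : ℝ) + 1) ^ (N - i) / (((N - i : ℕ) : ℝ) + 1)
        = (((N - i : ℕ) : ℝ) + 1) ^ (N - i - 1) := by
      rcases hp with hp | hp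
      · rw [hp]
        field_simp
      · rw [hp]
        simp
    rw [ht1, ht2, hc, ← hexp, ← key]
    have a1 : ((i.factorial : ℕ) : ℝ) ≠ 0 := by positivity
    have a2 : (((N - i).factorial : ℕ) : ℝ) ≠ 0 := by positivity
    have a3 : ((N.factorial : ℕ) : ℝ) ≠ 0 := by positivity
    have a4 : ((i : ℝ) + 1) ≠ 0 := by positivity
    have a5 : (((N - i : ℕ) : ℝ) + 1) ≠ 0 := by positivity
    field_simp
  rw [Finset.sum_congr rfl h2, ← Finset.sum_mul, abel_one]
  have ht3 : τ (N + 1 + 1) = ((N : ℝ) + 2) ^ (N + 1)
      / (((N : ℝ) + 2) * (((N : ℝ) + 1) * N.factorial)) * Real.exp (-((N : ℝ) + 2)) := by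
    rw [τ, if_neg (by omega), Nat.factorial_succ, Nat.factorial_succ, Nat.add_sub_cancel]
    push_cast
    have e : (N : ℝ) + 1 + 1 = (N : ℝ) + 2 := by ring
    rw [e]
  rw [ht3]
  push_cast
  rw [pow_succ]
  have a1 : ((N.factorial : ℕ) : ℝ) ≠ 0 := by positivity
  have a2 : ((N : ℝ) + 2) ≠ 0 := by positivity
  have a3 : ((N : ℝ) + 1) ≠ 0 := by positivity
  field_simp

theorem E_one (m : ℕ) : E m (fun _ => 1) = Real.exp 1 * τ (m + 1) := by
  induction m using Nat.strong_induction_on with
  | _ m ih =>
    rcases Nat.eq_zero_or_pos m with rfl | hm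
    · rw [E_zero]
      simp [τ, ← Real.exp_add]
    · have h1 : E m (fun f => ((br f).map (fun p => (fun a _ => (vs a : ℝ)) p.1 p.2)).sum)
          = (m : ℝ) * E m (fun _ => 1) := by
        rw [← E_mul_left]
        apply E_congr
        intro f hf
        rw [mul_one, ← hf]
        exact size_br f
      rw [br_formula m (fun a _ => (vs a : ℝ))] at h1
      have h2 : ∀ k ∈ Icc 1 m, ET k (fun a => E (m - k) (fun _ => (vs a : ℝ)))
          = Real.exp 1 * ((k : ℝ) * τ k * τ (m - k + 1)) := by
        intro k hk
        rw [Finset.mem_Icc] at hk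
        have h3 : ET k (fun a => E (m - k) (fun _ => (vs a : ℝ)))
            = ET k (fun _ => (k : ℝ) * (Real.exp 1 * τ (m - k + 1))) := by
          apply ET_congr
          intro a ha
          rw [E_const, ih (m - k) (by omega), ha]
        rw [h3, ET_const]
        obtain ⟨j, rfl⟩ : ∃ j, k = j + 1 := ⟨k - 1, by omega⟩
        rw [ET_succ, ih j (by omega), ← mul_assoc (Real.exp (-1)), ← Real.exp_add]
        simp only [neg_add_cancel, Real.exp_zero, one_mul]
        ring
      rw [Finset.sum_congr rfl h2, ← Finset.mul_sum, E_one_aux m hm] at h1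
      have hm' : (m : ℝ) ≠ 0 := by exact_mod_cast hm.ne'
      apply mul_left_cancel₀ hm'
      rw [← h1]
      ring

theorem ET_one (k : ℕ) : ET k (fun _ => 1) = τ k := by
  rcases k with _ | k
  · simp [ET_zero, τ]
  · rw [ET_succ, E_one, ← mul_assoc, ← Real.exp_add]
    simp

lemma fringe_rec (z : ℕ) (g : Fr → ℝ) :
    ET z (fun a => ((fr a).map g).sum)
      = ∑ k ∈ Icc 1 (z - 1), τ (z - k) * ET k (fun a => g a + ((fr a).map g).sum) := by
  rcases z with _ | z
  · simp [ET_zero]
  · rw [ET_succ, Nat.add_sub_cancel]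
    have h1 : (fun a : Fr => ((fr a).map g).sum)
        = (fun a => ((br a).map (fun p => (fun x _ => g x + ((fr x).map g).sum) p.1 p.2)).sum) := by
      funext a
      exact fr_br a g
    rw [h1, br_formula z (fun x _ => g x + ((fr x).map g).sum), Finset.mul_sum]
    refine Finset.sum_congr rfl fun k hk => ?_
    rw [Finset.mem_Icc] at hk
    have h2 : (fun a : Fr => E (z - k) (fun _ => g a + ((fr a).map g).sum))
        = (fun a => (Real.exp 1 * τ (z + 1 - k)) * (g a + ((fr a).map g).sum)) := by
      funext a
      rw [E_const, E_one]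
      have : z - k + 1 = z + 1 - k := by omega
      rw [this]
      ring
    rw [h2, ET_mul_left, ← mul_assoc, ← mul_assoc, ← Real.exp_add]
    simp

lemma fringe_both (z : ℕ) (g : Fr → ℝ) :
    ET z (fun a => ((fr a).map g).sum) = ∑ k ∈ Icc 1 (z - 1), υ (z - k) * ET k g := by
  induction z using Nat.strong_induction_on with
  | _ z ih =>
    rcases z with _ | z
    · simp [ET_zero]
    · rw [fringe_rec, Nat.add_sub_cancel]
      have h1 : ∀ k ∈ Icc 1 z, τ (z + 1 - k) * ET k (fun a => g a + ((fr a).map g).sum)
          = ∑ j ∈ Icc 1 k, τ (z + 1 - k) * υ (k - j) * ET j g := by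
        intro k hk
        rw [Finset.mem_Icc] at hk
        rw [ET_add, ih k (by omega)]
        obtain ⟨l, rfl⟩ : ∃ l, k = l + 1 := ⟨k - 1, by omega⟩
        rw [Finset.sum_Icc_succ_top (by omega), Nat.add_sub_cancel, Nat.sub_self, υ_zero,
          mul_one, mul_add, Finset.mul_sum, add_comm]
        congr 1
        refine Finset.sum_congr rfl fun j _ => ?_
        ring
      rw [Finset.sum_congr rfl h1]
      have h2 : ∑ k ∈ Icc 1 z, ∑ j ∈ Icc 1 k, τ (z + 1 - k) * υ (k - j) * ET j g
          = ∑ j ∈ Icc 1 z, ∑ k ∈ Icc j z, τ (z + 1 - k) * υ (k - j) * ET j g := by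
        apply Finset.sum_comm'
        intro x y
        simp only [Finset.mem_Icc]
        omega
      rw [h2]
      refine Finset.sum_congr rfl fun j hj => ?_
      rw [Finset.mem_Icc] at hj
      rw [← Finset.sum_mul]
      congr 1
      rw [υ_rec (z + 1 - j) (by omega)]
      refine Finset.sum_bij' (fun k _ => z + 1 - k) (fun i _ => z + 1 - i) ?_ ?_ ?_ ?_ ?_
      · intro k hk
        rw [Finset.mem_Icc] at hk ⊢
        omega
      · intro i hi
        rw [Finset.mem_Icc] at hi ⊢
        omega
      · intro k hk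
        rw [Finset.mem_Icc] at hk
        exact Nat.sub_sub_self (by omega)
      · intro i hi
        rw [Finset.mem_Icc] at hi
        exact Nat.sub_sub_self (by omega)
      · intro k hk
        rw [Finset.mem_Icc] at hk
        have : z + 1 - j - (z + 1 - k) = k - j := by omega
        rw [this]

/-- fringe subtrees of a tree (the tree itself excluded) -/
theorem fringe_formula (z : ℕ) (g : Fr → ℝ) :
    ET z (fun a => ((fr a).map g).sum) = ∑ k ∈ Icc 1 (z - 1), υ (z - k) * ET k g :=
  fringe_both z g

/-- fringe subtrees of a tree (the tree itself included) -/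
theorem fringe_formula' (z : ℕ) (hz : 1 ≤ z) (g : Fr → ℝ) :
    ET z (fun a => g a + ((fr a).map g).sum) = ∑ k ∈ Icc 1 z, υ (z - k) * ET k g := by
  rw [ET_add, fringe_formula]
  obtain ⟨l, rfl⟩ : ∃ l, z = l + 1 := ⟨z - 1, by omega⟩
  rw [Finset.sum_Icc_succ_top (by omega), Nat.add_sub_cancel, Nat.sub_self, υ_zero, one_mul,
    add_comm]

end RT
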