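import Mathlib
import Pool.Agent.Lib_helper86.RT.Star

set_option autoImplicit false

/-!
Module RESTR (forests without a big branch).  F_j := E j 1 = e τ (j+1) ≤ e / (j+1)^(3/2).

* `restr`: if all branches are ≤ y < m, then either (i) some branch b has m/2 < b ≤ y: by `br_formula`
  weight ≤ ∑_{m/2<b≤y} τ_b F_{m-b} ≤ C m^(-3/2) ∑_{b≤y} (m-b+1)^(-3/2) ≤ C m^(-3/2) (m-y)^(-1/2); or (ii) all
  branches are ≤ m/2 and then there is (g,h) ∈ splits f with m/3 ≤ size g ≤ 2m/3: by `splits_formula`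
  weight ≤ ∑_{m/3≤k≤2m/3} F_k F_{m-k} ≤ C m^(-2).
* `fourgroups`: greedily four groups of branches of sizes ≥ ε m each (ε = δ/2); three applications of
  `splits_formula`: weight ≤ ∑_{k_i ≥ ε m} F_{k_1} F_{k_2} F_{k_3} F_{k_4} ≤ (m+1)^3 (C (ε m)^(-3/2))^4.
-/

namespace RT

open Pool.MP_1af41f_co.CSF Finset

namespace Restr97

lemma sum_map_nonneg {α : Type*} (l : List α) (g : α → ℝ) (h : ∀ x, 0 ≤ g x) :
    0 ≤ (l.map g).sum := by
  apply List.sum_nonneg
  intro y hy
  obtain ⟨x, _, rfl⟩ := List.mem_map.mp hy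
  exact h x

lemma le_sum_of_mem {α : Type*} (l : List α) (g : α → ℝ) (h : ∀ x, 0 ≤ g x) {p : α} (hp : p ∈ l) :
    g p ≤ (l.map g).sum := by
  induction l with
  | nil => simp at hp
  | cons c l ih =>
    rw [List.map_cons, List.sum_cons]
    have h0 := sum_map_nonneg l g h
    rcases List.mem_cons.mp hp with hp | hp
    · rw [hp]; linarith
    · have := ih hp
      have := h c
      linarith

lemma exists_br {f b : Fr} (h : b ∈ f.toList) : ∃ p ∈ br f, p.1 = b := by
  induction f with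
  | nil => simp [Fr.toList] at h
  | cons c d _ ihd =>
    rw [Fr.toList, List.mem_cons] at h
    rcases h with h | h
    · exact ⟨(c, d), by rw [br]; exact List.mem_cons_self, h.symm⟩
    · obtain ⟨p, hp, hpb⟩ := ihd h
      refine ⟨(p.1, Fr.cons c p.2), ?_, hpb⟩
      rw [br]
      exact List.mem_cons_of_mem _ (List.mem_map.mpr ⟨p, hp, rfl⟩)

lemma size_cons (a b : Fr) : (Fr.cons a b).size = vs a + b.size := rfl

lemma nil_mem_splits (f : Fr) : (Fr.nil, f) ∈ splits f := by
  induction f with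
  | nil => rw [splits]; exact List.mem_singleton.mpr rfl
  | cons a b _ ihb =>
    rw [splits, List.mem_append]
    exact Or.inr (List.mem_map.mpr ⟨(Fr.nil, b), ihb, rfl⟩)

lemma cons_left_mem {a b g h : Fr} (hp : (g, h) ∈ splits b) : (Fr.cons a g, h) ∈ splits (Fr.cons a b) := by
  rw [splits, List.mem_append]
  exact Or.inl (List.mem_map.mpr ⟨(g, h), hp, rfl⟩)

lemma cons_right_mem {a b g h : Fr} (hp : (g, h) ∈ splits b) : (g, Fr.cons a h) ∈ splits (Fr.cons a b) := by
  rw [splits, List.mem_append]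
  exact Or.inr (List.mem_map.mpr ⟨(g, h), hp, rfl⟩)

/-- a split in balanced parts -/
lemma split_third (m : ℕ) (hm : 1 ≤ m) (f : Fr) : ∀ s : ℕ, 3 * s < m → s + f.size = m →
    (∀ b ∈ f.toList, 2 * vs b ≤ m) → ∃ g h : Fr, (g, h) ∈ splits f ∧
      ((m ≤ 3 * (s + g.size) ∧ 3 * (s + g.size) ≤ 2 * m) ∨ (m ≤ 3 * g.size ∧ 3 * g.size ≤ 2 * m)) := by
  induction f with
  | nil =>
    intro s hs hsz _
    have : (Fr.nil).size = 0 := rfl
    omega
  | cons a b _ ihb =>
    intro s hs hsz hall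
    have ha : 2 * vs a ≤ m := hall a (by rw [Fr.toList]; exact List.mem_cons_self)
    have hb : ∀ c ∈ b.toList, 2 * vs c ≤ m := fun c hc =>
      hall c (by rw [Fr.toList]; exact List.mem_cons_of_mem _ hc)
    rw [size_cons] at hsz
    have hn : (Fr.cons a Fr.nil).size = vs a := by rw [size_cons]; rfl
    rcases Nat.lt_or_ge (3 * (s + vs a)) m with h1 | h1
    · obtain ⟨g, h, hmem, hcase⟩ := ihb (s + vs a) h1 (by omega) hb
      rcases hcase with hc | hc
      · refine ⟨Fr.cons a g, h, cons_left_mem hmem, Or.inl ?_⟩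
        rw [size_cons]
        omega
      · exact ⟨g, Fr.cons a h, cons_right_mem hmem, Or.inr hc⟩
    · refine ⟨Fr.cons a Fr.nil, b, cons_left_mem (nil_mem_splits b), ?_⟩
      rw [hn]
      omega

lemma F_le (k : ℕ) : E k (fun _ => 1) ≤ Real.exp 1 * (1 / (((k : ℝ) + 1) * √((k : ℝ) + 1))) := by
  rw [E_one]
  apply mul_le_mul_of_nonneg_left _ (Real.exp_pos 1).le
  have := τ_le (k + 1) (by omega)
  push_cast at this
  exact this

lemma F_nonneg (k : ℕ) : 0 ≤ E k (fun _ => 1) := E_nonneg fun _ => zero_le_one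

/-- if `a ≤ k + 1` -/
lemma F_le' (k : ℕ) {a : ℝ} (ha : 0 < a) (h : a ≤ (k : ℝ) + 1) :
    E k (fun _ => 1) ≤ Real.exp 1 * (1 / (a * √a)) := by
  refine (F_le k).trans ?_
  apply mul_le_mul_of_nonneg_left _ (Real.exp_pos 1).le
  apply one_div_le_one_div_of_le (by positivity)
  exact mul_le_mul h (Real.sqrt_le_sqrt h) (Real.sqrt_nonneg _) (by linarith)

lemma E_const (m : ℕ) (c : ℝ) : E m (fun _ => c) = c * E m (fun _ => 1) := by
  rw [← E_mul_left]
  simp

/-- forests with a branch of size in (m/2, y] -/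
lemma partI (m y : ℕ) (hy : y < m) :
    E m (fun f => ((br f).map (fun p => ind (m < 2 * vs p.1 ∧ vs p.1 ≤ y))).sum) ≤
      9 * Real.exp 1 / (m * √m * √((m : ℝ) - y)) := by
  have hm0 : (0 : ℝ) < m := by exact_mod_cast (by omega : 0 < m)
  have hsm : 0 < √(m : ℝ) := Real.sqrt_pos.mpr hm0
  rw [br_formula m (fun a _ => ind (m < 2 * vs a ∧ vs a ≤ y))]
  have h1 : ∀ k ∈ Icc 1 m, ET k (fun a => E (m - k) (fun _ => ind (m < 2 * vs a ∧ vs a ≤ y))) ≤
      (3 * Real.exp 1 / (m * √m)) *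
        (ind (k ≤ y) * (1 / (((m - k + 1 : ℕ) : ℝ) * √((m - k + 1 : ℕ) : ℝ)))) := by
    intro k hk
    have hk' := Finset.mem_Icc.mp hk
    have e1 : ET k (fun a => E (m - k) (fun _ => ind (m < 2 * vs a ∧ vs a ≤ y))) =
        (ind (m < 2 * k ∧ k ≤ y) * E (m - k) (fun _ => 1)) * τ k := by
      rw [← ET_one k, ← ET_mul_left]
      apply ET_congr
      intro a ha
      rw [E_const, ha, mul_one]
    rw [e1]
    by_cases hc : m < 2 * k ∧ k ≤ y
    · rw [ind_of hc, ind_of hc.2, one_mul, one_mul]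
      have h2 := F_le (m - k)
      have h3 := τ_le k hk'.1
      have hk0 : (0 : ℝ) < k := by exact_mod_cast hk'.1
      have h4 : 1 / ((k : ℝ) * √k) ≤ 3 / (m * √m) := by
        rw [div_le_div_iff₀ (by positivity) (by positivity)]
        have hzk : (m : ℝ) ≤ 2 * k := by exact_mod_cast (by omega : m ≤ 2 * k)
        have hs : √(m : ℝ) ≤ √2 * √(k : ℝ) := by
          rw [← Real.sqrt_mul (by norm_num)]
          exact Real.sqrt_le_sqrt hzk
        have hs2 : √(2 : ℝ) ≤ 3 / 2 := by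
          rw [Real.sqrt_le_left (by norm_num)]; norm_num
        calc 1 * ((m : ℝ) * √m) ≤ (2 * k) * (√2 * √(k : ℝ)) := by
              rw [one_mul]; gcongr
          _ ≤ (2 * k) * ((3 / 2) * √(k : ℝ)) := by gcongr
          _ = 3 * (k * √k) := by ring
      have e5 : ((m - k : ℕ) : ℝ) + 1 = ((m - k + 1 : ℕ) : ℝ) := by push_cast; ring
      rw [e5] at h2
      calc E (m - k) (fun _ => 1) * τ k
          ≤ (Real.exp 1 * (1 / (((m - k + 1 : ℕ) : ℝ) * √((m - k + 1 : ℕ) : ℝ)))) *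
            (3 / (m * √m)) := mul_le_mul h2 (h3.trans h4) (τ_nonneg _) (by positivity)
        _ = _ := by ring
    · rw [ind_of_not hc, zero_mul, zero_mul]
      have := ind_nonneg (k ≤ y)
      positivity
  refine (Finset.sum_le_sum h1).trans ?_
  rw [← Finset.mul_sum]
  have h2 : ∑ k ∈ Icc 1 m, ind (k ≤ y) * (1 / (((m - k + 1 : ℕ) : ℝ) * √((m - k + 1 : ℕ) : ℝ))) ≤
      3 / √((m : ℝ) - y) := by
    rw [← Finset.sum_filter_add_sum_filter_not (Icc 1 m) (fun k => k ≤ y)]
    have e2 : ∑ k ∈ (Icc 1 m).filter (fun k => ¬ k ≤ y),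
        ind (k ≤ y) * (1 / (((m - k + 1 : ℕ) : ℝ) * √((m - k + 1 : ℕ) : ℝ))) = 0 := by
      apply Finset.sum_eq_zero
      intro k hk
      rw [ind_of_not (Finset.mem_filter.mp hk).2, zero_mul]
    rw [e2, add_zero]
    have e3 : ∑ k ∈ (Icc 1 m).filter (fun k => k ≤ y),
        ind (k ≤ y) * (1 / (((m - k + 1 : ℕ) : ℝ) * √((m - k + 1 : ℕ) : ℝ))) =
        ∑ j ∈ ((Icc 1 m).filter (fun k => k ≤ y)).image (fun k => m - k + 1),
          1 / ((j : ℝ) * √j) := by
      rw [Finset.sum_image]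
      · apply Finset.sum_congr rfl
        intro k hk
        rw [ind_of (Finset.mem_filter.mp hk).2, one_mul]
      · intro k hk l hl hkl
        have hk' := Finset.mem_filter.mp (Finset.mem_coe.mp hk)
        have hl' := Finset.mem_filter.mp (Finset.mem_coe.mp hl)
        rw [Finset.mem_Icc] at hk' hl'
        simp only at hkl
        omega
    rw [e3]
    have e4 : ∑ j ∈ ((Icc 1 m).filter (fun k => k ≤ y)).image (fun k => m - k + 1),
          1 / ((j : ℝ) * √j) ≤ ∑ j ∈ Ico (m - y) (m + 1), 1 / ((j : ℝ) * √j) := by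
      apply Finset.sum_le_sum_of_subset_of_nonneg
      · intro j hj
        obtain ⟨k, hk, rfl⟩ := Finset.mem_image.mp hj
        have hk' := Finset.mem_filter.mp hk
        rw [Finset.mem_Icc] at hk'
        rw [Finset.mem_Ico]
        omega
      · intro j _ _
        positivity
    refine e4.trans ?_
    have e5 := sum_tail_le (m - y) (m + 1) (by omega)
    have e6 : ((m - y : ℕ) : ℝ) = (m : ℝ) - y := by
      push_cast [Nat.cast_sub hy.le]; ring
    rw [e6] at e5
    exact e5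
  have hmy : (0 : ℝ) < (m : ℝ) - y := by
    have : (y : ℝ) < m := by exact_mod_cast hy
    linarith
  calc 3 * Real.exp 1 / (m * √m) * ∑ k ∈ Icc 1 m,
        ind (k ≤ y) * (1 / (((m - k + 1 : ℕ) : ℝ) * √((m - k + 1 : ℕ) : ℝ)))
      ≤ 3 * Real.exp 1 / (m * √m) * (3 / √((m : ℝ) - y)) :=
        mul_le_mul_of_nonneg_left h2 (by positivity)
    _ = 9 * Real.exp 1 / (m * √m * √((m : ℝ) - y)) := by
        rw [div_mul_div_comm]; ring

/-- forests with a balanced split -/
lemma partII (m : ℕ) (hm : 1 ≤ m) :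
    E m (fun f => ((splits f).map (fun p => ind (m ≤ 3 * p.1.size ∧ 3 * p.1.size ≤ 2 * m))).sum) ≤
      54 * Real.exp 1 ^ 2 / (m : ℝ) ^ 2 := by
  have hm0 : (0 : ℝ) < m := by exact_mod_cast hm
  have hm1 : (1 : ℝ) ≤ m := by exact_mod_cast hm
  rw [splits_formula m (fun g _ => ind (m ≤ 3 * g.size ∧ 3 * g.size ≤ 2 * m))]
  have h1 : ∀ k ∈ range (m + 1), E k (fun g => E (m - k)
      (fun _ => ind (m ≤ 3 * g.size ∧ 3 * g.size ≤ 2 * m))) ≤ 27 * Real.exp 1 ^ 2 / (m : ℝ) ^ 3 := by
    intro k hk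
    have hk' := Finset.mem_range.mp hk
    have e1 : E k (fun g => E (m - k) (fun _ => ind (m ≤ 3 * g.size ∧ 3 * g.size ≤ 2 * m))) =
        (ind (m ≤ 3 * k ∧ 3 * k ≤ 2 * m) * E (m - k) (fun _ => 1)) * E k (fun _ => 1) := by
      rw [← E_mul_left]
      apply E_congr
      intro g hg
      rw [E_const, hg, mul_one]
    rw [e1]
    by_cases hc : m ≤ 3 * k ∧ 3 * k ≤ 2 * m
    · rw [ind_of hc, one_mul]
      have hmk : ((m - k : ℕ) : ℝ) = (m : ℝ) - k := by
        push_cast [Nat.cast_sub (by omega : k ≤ m)]; ring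
      have hk1 : (m : ℝ) ≤ 3 * k := by exact_mod_cast hc.1
      have hk2 : 3 * (k : ℝ) ≤ 2 * m := by exact_mod_cast hc.2
      have hm3 : (0 : ℝ) < m / 3 := by positivity
      have h2 := F_le' k hm3 (by linarith)
      have h3 := F_le' (m - k) hm3 (by rw [hmk]; linarith)
      calc E (m - k) (fun _ => 1) * E k (fun _ => 1)
          ≤ (Real.exp 1 * (1 / ((m : ℝ) / 3 * √((m : ℝ) / 3)))) *
            (Real.exp 1 * (1 / ((m : ℝ) / 3 * √((m : ℝ) / 3)))) :=
            mul_le_mul h3 h2 (F_nonneg _) (by positivity)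
        _ = Real.exp 1 ^ 2 / (((m : ℝ) / 3) ^ 2 * (√((m : ℝ) / 3) * √((m : ℝ) / 3))) := by
            field_simp
        _ = Real.exp 1 ^ 2 / (((m : ℝ) / 3) ^ 2 * ((m : ℝ) / 3)) := by
            rw [Real.mul_self_sqrt hm3.le]
        _ = 27 * Real.exp 1 ^ 2 / (m : ℝ) ^ 3 := by
            field_simp
            norm_num
      
    · rw [ind_of_not hc, zero_mul, zero_mul]; positivity
  refine (Finset.sum_le_sum h1).trans ?_
  rw [Finset.sum_const, Finset.card_range, nsmul_eq_mul]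
  push_cast
  calc ((m : ℝ) + 1) * (27 * Real.exp 1 ^ 2 / (m : ℝ) ^ 3)
      ≤ (2 * m) * (27 * Real.exp 1 ^ 2 / (m : ℝ) ^ 3) := by
        apply mul_le_mul_of_nonneg_right _ (by positivity)
        linarith
    _ = 54 * Real.exp 1 ^ 2 / (m : ℝ) ^ 2 := by
        field_simp
        norm_num

end Restr97

open Restr97

theorem restr : ∃ C : ℝ, 0 < C ∧ ∀ m y : ℕ, y < m →
    E m (fun f => ind (AllLe y f)) ≤ C / (m * √m * √((m : ℝ) - y)) := by
  refine ⟨9 * Real.exp 1 + 54 * Real.exp 1 ^ 2, by positivity, ?_⟩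
  intro m y hy
  have hm : 1 ≤ m := by omega
  have hm0 : (0 : ℝ) < m := by exact_mod_cast hm
  have hmy : (0 : ℝ) < (m : ℝ) - y := by
    have : (y : ℝ) < m := by exact_mod_cast hy
    linarith
  have hp : ∀ f : Fr, f.size = m → ind (AllLe y f) ≤
      ((br f).map (fun p => ind (m < 2 * vs p.1 ∧ vs p.1 ≤ y))).sum +
      ((splits f).map (fun p => ind (m ≤ 3 * p.1.size ∧ 3 * p.1.size ≤ 2 * m))).sum := by
    intro f hf
    have n1 := sum_map_nonneg (br f) (fun p => ind (m < 2 * vs p.1 ∧ vs p.1 ≤ y))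
      (fun _ => ind_nonneg _)
    have n2 := sum_map_nonneg (splits f)
      (fun p => ind (m ≤ 3 * p.1.size ∧ 3 * p.1.size ≤ 2 * m)) (fun _ => ind_nonneg _)
    by_cases h1 : AllLe y f
    · rw [ind_of h1]
      by_cases h2 : ∀ b ∈ f.toList, 2 * vs b ≤ m
      · obtain ⟨g, h, hmem, hc⟩ := split_third m hm f 0 (by omega) (by omega) h2
        have hc' : m ≤ 3 * g.size ∧ 3 * g.size ≤ 2 * m := by omega
        have := le_sum_of_mem (splits f)
          (fun p => ind (m ≤ 3 * p.1.size ∧ 3 * p.1.size ≤ 2 * m)) (fun _ => ind_nonneg _) hmem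
        simp only [ind_of hc'] at this
        linarith
      · push Not at h2
        obtain ⟨b, hb, hmb⟩ := h2
        obtain ⟨p, hp, hpb⟩ := exists_br hb
        have hc' : m < 2 * vs p.1 ∧ vs p.1 ≤ y := by rw [hpb]; exact ⟨hmb, h1 b hb⟩
        have := le_sum_of_mem (br f) (fun p => ind (m < 2 * vs p.1 ∧ vs p.1 ≤ y))
          (fun _ => ind_nonneg _) hp
        simp only [ind_of hc'] at this
        linarith
    · rw [ind_of_not h1]
      linarith
  refine (E_mono hp).trans ?_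
  rw [E_add, add_div]
  apply add_le_add (partI m y hy)
  refine (partII m hm).trans ?_
  apply div_le_div_of_nonneg_left (by positivity)
    (by have := Real.sqrt_pos.mpr hm0; have := Real.sqrt_pos.mpr hmy; positivity)
  have h1 : √((m : ℝ) - y) ≤ √(m : ℝ) := Real.sqrt_le_sqrt (by
    have : (0 : ℝ) ≤ y := Nat.cast_nonneg y
    linarith)
  calc (m : ℝ) * √m * √((m : ℝ) - y) ≤ (m : ℝ) * √m * √m := by gcongr
    _ = (m : ℝ) ^ 2 := by rw [mul_assoc, Real.mul_self_sqrt hm0.le]; ring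

namespace Restr97

lemma splits_size {f : Fr} : ∀ {p : Fr × Fr}, p ∈ splits f → p.1.size + p.2.size = f.size := by
  induction f with
  | nil =>
    intro p hp
    rw [splits, List.mem_singleton] at hp
    subst hp; rfl
  | cons a b _ ihb =>
    intro p hp
    rw [splits, List.mem_append, List.mem_map, List.mem_map] at hp
    rcases hp with ⟨q, hq, rfl⟩ | ⟨q, hq, rfl⟩
    · have := ihb hq
      simp only [size_cons]
      omega
    · have := ihb hq
      simp only [size_cons]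
      omega

lemma splits_mem {f : Fr} : ∀ {p : Fr × Fr}, p ∈ splits f → ∀ x ∈ p.2.toList, x ∈ f.toList := by
  induction f with
  | nil =>
    intro p hp x hx
    rw [splits, List.mem_singleton] at hp
    subst hp; exact hx
  | cons a b _ ihb =>
    intro p hp x hx
    rw [splits, List.mem_append, List.mem_map, List.mem_map] at hp
    rw [Fr.toList, List.mem_cons]
    rcases hp with ⟨q, hq, rfl⟩ | ⟨q, hq, rfl⟩
    · exact Or.inr (ihb hq x hx)
    · simp only [Fr.toList, List.mem_cons] at hx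
      rcases hx with hx | hx
      · exact Or.inl hx
      · exact Or.inr (ihb hq x hx)

/-- greedy choice of a group of branches -/
lemma greedy (x : ℝ) (f : Fr) : ∀ t : ℝ, 0 < t → t ≤ (f.size : ℝ) →
    (∀ b ∈ f.toList, (vs b : ℝ) ≤ x) → ∃ p ∈ splits f, t ≤ (p.1.size : ℝ) ∧ (p.1.size : ℝ) ≤ t + x := by
  induction f with
  | nil =>
    intro t ht h1 _
    have : ((Fr.nil).size : ℝ) = 0 := by exact_mod_cast (rfl : (Fr.nil).size = 0)
    linarith
  | cons a b _ ihb =>
    intro t ht h1 hall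
    have ha : (vs a : ℝ) ≤ x := hall a (by rw [Fr.toList]; exact List.mem_cons_self)
    have hb : ∀ c ∈ b.toList, (vs c : ℝ) ≤ x := fun c hc =>
      hall c (by rw [Fr.toList]; exact List.mem_cons_of_mem _ hc)
    have e1 : ((Fr.cons a b).size : ℝ) = vs a + b.size := by rw [size_cons]; push_cast; ring
    rw [e1] at h1
    rcases le_or_gt t (vs a : ℝ) with h2 | h2
    · refine ⟨(Fr.cons a Fr.nil, b), cons_left_mem (nil_mem_splits b), ?_⟩
      have e2 : ((Fr.cons a Fr.nil).size : ℝ) = vs a := by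
        rw [size_cons]; simp [Fr.size]
      simp only [e2]
      exact ⟨h2, by linarith⟩
    · obtain ⟨p, hp, h3, h4⟩ := ihb (t - vs a) (by linarith) (by linarith) hb
      refine ⟨(Fr.cons a p.1, p.2), cons_left_mem hp, ?_⟩
      have e2 : ((Fr.cons a p.1).size : ℝ) = vs a + p.1.size := by
        rw [size_cons]; push_cast; ring
      simp only [e2]
      constructor <;> linarith

/-- `K t j f`: number of ways to choose `j` groups of size at least `t`, the last one being the rest -/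
noncomputable def K (t : ℝ) : ℕ → Fr → ℝ
  | 0, f => ind (t ≤ (f.size : ℝ))
  | (j + 1), f => ((splits f).map (fun p => ind (t ≤ (p.1.size : ℝ)) * K t j p.2)).sum

lemma K_nonneg (t : ℝ) (j : ℕ) : ∀ f, 0 ≤ K t j f := by
  induction j with
  | zero => intro f; exact ind_nonneg _
  | succ j ih =>
    intro f
    rw [K]
    exact sum_map_nonneg _ _ fun p => mul_nonneg (ind_nonneg _) (ih _)

lemma E_K_le (t : ℝ) (ht : 0 < t) (m j : ℕ) : ∀ n, n ≤ m →
    E n (K t j) ≤ ((m : ℝ) + 1) ^ j * (Real.exp 1 * (1 / (t * √t))) ^ (j + 1) := by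
  have hbase : ∀ n : ℕ, E n (fun f => ind (t ≤ (f.size : ℝ))) ≤ Real.exp 1 * (1 / (t * √t)) := by
    intro n
    have e1 : E n (fun f => ind (t ≤ (f.size : ℝ))) = ind (t ≤ (n : ℝ)) * E n (fun _ => 1) := by
      rw [← E_mul_left]
      apply E_congr
      intro f hf
      rw [hf, mul_one]
    rw [e1]
    by_cases h : t ≤ (n : ℝ)
    · rw [ind_of h, one_mul]
      exact F_le' n ht (by linarith)
    · rw [ind_of_not h, zero_mul]; positivity
  induction j with
  | zero =>
    intro n _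
    have := hbase n
    simpa [K] using this
  | succ j ih =>
    intro n hn
    have e1 : E n (K t (j + 1)) = ∑ k ∈ range (n + 1),
        E k (fun g => E (n - k) (fun h => ind (t ≤ (g.size : ℝ)) * K t j h)) :=
      splits_formula n (fun g h => ind (t ≤ (g.size : ℝ)) * K t j h)
    rw [e1]
    set B : ℝ := Real.exp 1 * (1 / (t * √t)) with hB
    have hB0 : 0 ≤ B := by positivity
    have h1 : ∀ k ∈ range (n + 1),
        E k (fun g => E (n - k) (fun h => ind (t ≤ (g.size : ℝ)) * K t j h)) ≤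
        B * (((m : ℝ) + 1) ^ j * B ^ (j + 1)) := by
      intro k hk
      have e2 : E k (fun g => E (n - k) (fun h => ind (t ≤ (g.size : ℝ)) * K t j h)) =
          E (n - k) (K t j) * E k (fun g => ind (t ≤ (g.size : ℝ))) := by
        rw [← E_mul_left]
        apply E_congr
        intro g _
        rw [E_mul_left]; ring
      rw [e2, mul_comm]
      exact mul_le_mul (hbase k) (ih (n - k) (by omega)) (E_nonneg (K_nonneg t j)) hB0
    refine (Finset.sum_le_sum h1).trans ?_
    rw [Finset.sum_const, Finset.card_range, nsmul_eq_mul]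
    have hn' : ((n + 1 : ℕ) : ℝ) ≤ (m : ℝ) + 1 := by
      push_cast
      have : (n : ℝ) ≤ m := by exact_mod_cast hn
      linarith
    calc ((n + 1 : ℕ) : ℝ) * (B * (((m : ℝ) + 1) ^ j * B ^ (j + 1)))
        ≤ ((m : ℝ) + 1) * (B * (((m : ℝ) + 1) ^ j * B ^ (j + 1))) :=
          mul_le_mul_of_nonneg_right hn' (by positivity)
      _ = ((m : ℝ) + 1) ^ (j + 1) * B ^ (j + 1 + 1) := by ring

/-- large forests with small branches have many groups -/
lemma K_ge (t x : ℝ) (ht : 0 < t) (j : ℕ) : ∀ f : Fr, (∀ b ∈ f.toList, (vs b : ℝ) ≤ x) →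
    (j : ℝ) * (t + x) + t ≤ (f.size : ℝ) → 0 ≤ x → 1 ≤ K t j f := by
  induction j with
  | zero =>
    intro f _ h _
    rw [K, ind_of (by simpa using h)]
  | succ j ih =>
    intro f hall h hx
    push_cast at h
    have h0 : 0 ≤ (j : ℝ) * (t + x) := by positivity
    obtain ⟨p, hp, h1, h2⟩ := greedy x f t ht (by nlinarith) hall
    have hsz : (p.1.size : ℝ) + p.2.size = f.size := by exact_mod_cast splits_size hp
    have h3 : 1 ≤ K t j p.2 := by
      apply ih p.2 (fun b hb => hall b (splits_mem hp b hb)) _ hx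
      nlinarith
    rw [K]
    have h4 := le_sum_of_mem (splits f) (fun p => ind (t ≤ (p.1.size : ℝ)) * K t j p.2)
      (fun p => mul_nonneg (ind_nonneg _) (K_nonneg t j _)) hp
    simp only [ind_of h1, one_mul] at h4
    linarith

end Restr97

theorem fourgroups (δ : ℝ) (hδ : 0 < δ) : ∃ C : ℝ, 0 < C ∧ ∀ m : ℕ, 1 ≤ m →
    E m (fun f => ind (∀ a ∈ f.toList, (vs a : ℝ) ≤ (1 / 3 - δ) * m)) ≤ C / (m : ℝ) ^ 3 := by
  refine ⟨8 * Real.exp 1 ^ 4 / (δ / 2) ^ 6, by positivity, ?_⟩
  intro m hm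
  have hm0 : (0 : ℝ) < m := by exact_mod_cast hm
  have hm1 : (1 : ℝ) ≤ m := by exact_mod_cast hm
  have ht : 0 < δ / 2 * m := by positivity
  have hp : ∀ f : Fr, f.size = m →
      ind (∀ a ∈ f.toList, (vs a : ℝ) ≤ (1 / 3 - δ) * m) ≤ K (δ / 2 * m) 3 f := by
    intro f hf
    by_cases h : ∀ a ∈ f.toList, (vs a : ℝ) ≤ (1 / 3 - δ) * m
    · rw [ind_of h]
      have hx : 0 ≤ (1 / 3 - δ) * m := by
        cases f with
        | nil =>
          have : (Fr.nil).size = 0 := rfl
          omega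
        | cons a b =>
          have := h a (by rw [Fr.toList]; exact List.mem_cons_self)
          have h2 : (0 : ℝ) ≤ vs a := Nat.cast_nonneg _
          linarith
      apply K_ge (δ / 2 * m) ((1 / 3 - δ) * m) ht 3 f h _ hx
      rw [hf]
      push_cast
      nlinarith
    · rw [ind_of_not h]; exact K_nonneg _ _ _
  refine (E_mono hp).trans ((E_K_le (δ / 2 * m) ht m 3 m le_rfl).trans ?_)
  have hs : √(δ / 2 * m) * √(δ / 2 * m) = δ / 2 * m := Real.mul_self_sqrt ht.le
  have hs0 : 0 < √(δ / 2 * m) := Real.sqrt_pos.mpr ht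
  have e1 : (Real.exp 1 * (1 / (δ / 2 * m * √(δ / 2 * m)))) ^ (3 + 1) =
      Real.exp 1 ^ 4 / (δ / 2 * m) ^ 6 := by
    have : (δ / 2 * m * √(δ / 2 * m)) ^ 4 = (δ / 2 * m) ^ 6 := by
      calc (δ / 2 * m * √(δ / 2 * m)) ^ 4
          = (δ / 2 * m) ^ 4 * (√(δ / 2 * m) * √(δ / 2 * m)) ^ 2 := by ring
        _ = (δ / 2 * m) ^ 6 := by rw [hs]; ring
    rw [mul_one_div, div_pow, this]
  rw [e1]
  calc ((m : ℝ) + 1) ^ 3 * (Real.exp 1 ^ 4 / (δ / 2 * m) ^ 6)
      ≤ (2 * m) ^ 3 * (Real.exp 1 ^ 4 / (δ / 2 * m) ^ 6) := by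
        apply mul_le_mul_of_nonneg_right _ (by positivity)
        apply pow_le_pow_left₀ (by positivity)
        linarith
    _ = 8 * Real.exp 1 ^ 4 / (δ / 2) ^ 6 / (m : ℝ) ^ 3 := by
        field_simp
        norm_num

end RT
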