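import Mathlib
import Pool.Agent.Lib_helper86.RT.Star

set_option autoImplicit false

/-!
Small tools used by the event modules.
-/

namespace RT

open Pool.MP_1af41f_co.CSF Finset

lemma ind_exists_le {α : Type*} (l : List α) (P : α → Prop) :
    ind (∃ p ∈ l, P p) ≤ (l.map (fun p => ind (P p))).sum := by
  induction l with
  | nil => rw [ind_of_not (by simp)]; simp
  | cons a l ih =>
    rw [List.map_cons, List.sum_cons]
    have h : ind (∃ p ∈ a :: l, P p) ≤ ind (P a ∨ ∃ p ∈ l, P p) := by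
      apply ind_mono
      rintro ⟨p, hp, hP⟩
      rcases List.mem_cons.1 hp with rfl | hp
      · exact Or.inl hP
      · exact Or.inr ⟨p, hp, hP⟩
    have h2 := ind_or_le (P a) (∃ p ∈ l, P p)
    linarith

lemma list_sum_nonneg {α : Type*} (l : List α) (f : α → ℝ) (h : ∀ a ∈ l, 0 ≤ f a) :
    0 ≤ (l.map f).sum := by
  induction l with
  | nil => simp
  | cons a l ih =>
    rw [List.map_cons, List.sum_cons]
    have h1 := h a (by simp)
    have h2 := ih (fun b hb => h b (by simp [hb]))
    linarith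

lemma list_sum_le {α : Type*} (l : List α) (f g : α → ℝ) (h : ∀ a ∈ l, f a ≤ g a) :
    (l.map f).sum ≤ (l.map g).sum := by
  induction l with
  | nil => simp
  | cons a l ih =>
    rw [List.map_cons, List.sum_cons, List.map_cons, List.sum_cons]
    have h1 := h a (by simp)
    have h2 := ih (fun b hb => h b (by simp [hb]))
    linarith

lemma list_sum_congr {α : Type*} (l : List α) (f g : α → ℝ) (h : ∀ a ∈ l, f a = g a) :
    (l.map f).sum = (l.map g).sum :=
  le_antisymm (list_sum_le l f g fun a ha => (h a ha).le)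
    (list_sum_le l g f fun a ha => (h a ha).ge)

lemma br_mem {f : Fr} {p : Fr × Fr} (hp : p ∈ br f) : p.1 ∈ f.toList := by
  induction f generalizing p with
  | nil => simp [br] at hp
  | cons a b _ ih =>
    rw [br, List.mem_cons, List.mem_map] at hp
    rw [Fr.toList, List.mem_cons]
    rcases hp with rfl | ⟨q, hq, rfl⟩
    · exact Or.inl rfl
    · exact Or.inr (ih (p := q) hq)

lemma exists_br_of_mem {f a : Fr} (ha : a ∈ f.toList) : ∃ p ∈ br f, p.1 = a := by
  induction f with
  | nil => simp [Fr.toList] at ha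
  | cons b c _ ih =>
    rw [Fr.toList, List.mem_cons] at ha
    rcases ha with rfl | ha
    · exact ⟨(a, c), by simp [br], rfl⟩
    · obtain ⟨q, hq, rfl⟩ := ih ha
      exact ⟨(q.1, Fr.cons b q.2), by rw [br, List.mem_cons, List.mem_map]; exact Or.inr ⟨q, hq, rfl⟩,
        rfl⟩

lemma br_size {f : Fr} {p : Fr × Fr} (hp : p ∈ br f) : vs p.1 + p.2.size = f.size := by
  induction f generalizing p with
  | nil => simp [br] at hp
  | cons a b _ ih =>
    rw [br, List.mem_cons, List.mem_map] at hp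
    rcases hp with rfl | ⟨q, hq, rfl⟩
    · rfl
    · have := ih hq
      simp only [Fr.size, vs] at this ⊢
      omega

/-- all branches of `f` are the marked one and the branches of the rest -/
lemma br_toList {f : Fr} {p : Fr × Fr} (hp : p ∈ br f) (a : Fr) :
    a ∈ f.toList ↔ a = p.1 ∨ a ∈ p.2.toList := by
  induction f generalizing p with
  | nil => simp [br] at hp
  | cons b c _ ih =>
    rw [br, List.mem_cons, List.mem_map] at hp
    rcases hp with rfl | ⟨q, hq, rfl⟩
    · simp [Fr.toList]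
    · rw [Fr.toList, List.mem_cons, ih hq]
      show _ ↔ a = q.1 ∨ a ∈ (Fr.cons b q.2).toList
      rw [Fr.toList, List.mem_cons]
      tauto

lemma E_br_le (m : ℕ) (Φ : Fr → ℝ) (H : Fr → Fr → ℝ)
    (h : ∀ f, f.size = m → Φ f ≤ ((br f).map (fun p => H p.1 p.2)).sum) :
    E m Φ ≤ ∑ k ∈ Icc 1 m, ET k (fun a => E (m - k) (fun g => H a g)) := by
  rw [← br_formula]
  exact E_mono h

lemma E_splits_le (m : ℕ) (Φ : Fr → ℝ) (H : Fr → Fr → ℝ)
    (h : ∀ f, f.size = m → Φ f ≤ ((splits f).map (fun p => H p.1 p.2)).sum) :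
    E m Φ ≤ ∑ k ∈ range (m + 1), E k (fun g => E (m - k) (fun h => H g h)) := by
  rw [← splits_formula]
  exact E_mono h

lemma E_one_le (m : ℕ) : E m (fun _ => 1) ≤ 3 / (((m : ℝ) + 1) * √((m : ℝ) + 1)) := by
  rw [E_one]
  have h1 := τ_le (m + 1) (by omega)
  have h2 : Real.exp 1 ≤ 3 := (Real.exp_one_lt_d9.le).trans (by norm_num)
  have h3 := τ_nonneg (m + 1)
  push_cast at h1
  calc Real.exp 1 * τ (m + 1) ≤ 3 * (1 / (((m : ℝ) + 1) * √((m : ℝ) + 1))) := by
        gcongr
    _ = _ := by ring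

lemma E_le_one_mul (m : ℕ) (Φ : Fr → ℝ) (h : ∀ f, f.size = m → Φ f ≤ 1) :
    E m Φ ≤ 3 / (((m : ℝ) + 1) * √((m : ℝ) + 1)) := (E_mono h).trans (E_one_le m)

lemma ET_cst (k : ℕ) (c : ℝ) : ET k (fun _ => c) = c * τ k := by
  rw [ET_const, ET_one]

end RT
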