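import Mathlib
import Pool.Agent.Lib_helper86.RT.Restr
import Pool.Agent.Lib_helper86.RT.Tools

set_option autoImplicit false

/-!
Module EVENTS.  All by `ind (∃ p ∈ br f, P p) ≤ ∑_{br f} ind (P p)`, `br_formula`, `ET_one`, `restr`.

* `evt1`: z = vs p.1 ∈ ((1/2-δ) m, (m+1)/2]: ∑_z τ_z E (m-z) [AllLe z]; if z < m - z use `restr`:
  C m^(-3) (m-2z)^(-1/2), and ∑ over y = m - 2z in [1, 2δm) of y^(-1/2) ≤ 2 √(2δm); the at most two values
  with 2z ≥ m: E (m-z) 1 ≤ C m^(-3/2), τ_z ≤ C m^(-3/2).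
* `evt2`: each term ≤ C m^(-7/2) (z ∈ [m/4, 5m/12]), at most 2δm + 1 terms.
* `evt3`: twice `br_formula`: ∑_z ∑_b τ_z τ_b E (m-z-b) 1, b ∈ [z - δ'm, z], m - z - b ≥ m - 2z ≥ 2δm.
-/

namespace RT

open Pool.MP_1af41f_co.CSF Finset

lemma inv_le_of (d x m K : ℝ) (hd : 0 < d) (hm : 0 < m) (hx : d ^ 2 * m ≤ x)
    (hK : 1 ≤ K * d ^ 3) : 1 / (x * √x) ≤ K / (m * √m) := by
  have hsm : 0 < √m := Real.sqrt_pos.2 hm
  have h1 : √(d ^ 2 * m) = d * √m := by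
    rw [Real.sqrt_mul (by positivity), Real.sqrt_sq hd.le]
  have h2 : d * √m ≤ √x := by rw [← h1]; exact Real.sqrt_le_sqrt hx
  have h3 : 0 < d ^ 2 * m := by positivity
  have h4 : (d ^ 2 * m) * (d * √m) ≤ x * √x :=
    mul_le_mul hx h2 (by positivity) (h3.le.trans hx)
  have h5 : 0 < (d ^ 2 * m) * (d * √m) := by positivity
  have h6 : 1 / (x * √x) ≤ 1 / ((d ^ 2 * m) * (d * √m)) :=
    one_div_le_one_div_of_le h5 h4
  refine h6.trans ?_
  rw [div_le_div_iff₀ h5 (by positivity)]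
  have h7 : 0 < m * √m := by positivity
  nlinarith

lemma inv_sqrt_le_of (d x m K : ℝ) (hd : 0 < d) (hm : 0 < m) (hx : d ^ 2 * m ≤ x)
    (hK : 1 ≤ K * d) : 1 / √x ≤ K / √m := by
  have hsm : 0 < √m := Real.sqrt_pos.2 hm
  have h1 : √(d ^ 2 * m) = d * √m := by
    rw [Real.sqrt_mul (by positivity), Real.sqrt_sq hd.le]
  have h2 : d * √m ≤ √x := by rw [← h1]; exact Real.sqrt_le_sqrt hx
  have h5 : 0 < d * √m := by positivity
  refine (one_div_le_one_div_of_le h5 h2).trans ?_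
  rw [div_le_div_iff₀ h5 hsm]
  nlinarith

lemma card_real_le (s : Finset ℕ) (x y : ℝ) (hxy : x ≤ y) (h : ∀ k ∈ s, x ≤ (k : ℝ) ∧ (k : ℝ) ≤ y) :
    (s.card : ℝ) ≤ y - x + 1 := by
  rcases s.eq_empty_or_nonempty with rfl | hs
  · simp; linarith
  · have h1 : s ⊆ Icc (s.min' hs) (s.max' hs) := fun k hk =>
      Finset.mem_Icc.2 ⟨s.min'_le k hk, s.le_max' k hk⟩
    have h2 := Finset.card_le_card h1
    rw [Nat.card_Icc] at h2
    have h3 := (h _ (s.min'_mem hs)).1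
    have h4 := (h _ (s.max'_mem hs)).2
    have h5 : s.min' hs ≤ s.max' hs := s.min'_le _ (s.max'_mem hs)
    have h6 : (s.card : ℝ) ≤ (s.max' hs : ℝ) + 1 - (s.min' hs : ℝ) := by
      have h7 : s.card + s.min' hs ≤ s.max' hs + 1 := by omega
      have h8 : ((s.card + s.min' hs : ℕ) : ℝ) ≤ ((s.max' hs + 1 : ℕ) : ℝ) := by exact_mod_cast h7
      push_cast at h8
      linarith
    linarith

/-- one big branch -/
lemma E_one_branch (m : ℕ) (P : ℕ → Prop) :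
    E m (fun f => ind (∃ p ∈ br f, P (vs p.1) ∧ AllLe (vs p.1) p.2))
      ≤ ∑ k ∈ Icc 1 m, ind (P k) * (τ k * E (m - k) (fun g => ind (AllLe k g))) := by
  refine (E_br_le m _ (fun a g => ind (P (vs a) ∧ AllLe (vs a) g))
    (fun f _ => ind_exists_le (br f) _)).trans (le_of_eq ?_)
  apply Finset.sum_congr rfl
  intro k _
  have h1 : ET k (fun a => E (m - k) (fun g => ind (P (vs a) ∧ AllLe (vs a) g)))
      = ET k (fun _ => ind (P k) * E (m - k) (fun g => ind (AllLe k g))) := by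
    apply ET_congr
    intro a ha
    rw [ha, ← E_mul_left]
    exact E_congr fun g _ => ind_and _ _
  rw [h1, ET_cst]
  ring

lemma sum_ind_eq (s : Finset ℕ) (P : ℕ → Prop) [DecidablePred P] (F : ℕ → ℝ) :
    ∑ k ∈ s, ind (P k) * F k = ∑ k ∈ s.filter P, F k := by
  rw [Finset.sum_filter]
  apply Finset.sum_congr rfl
  intro k _
  by_cases h : P k
  · rw [ind_of h, if_pos h, one_mul]
  · rw [ind_of_not h, if_neg h, zero_mul]

theorem evt1 : ∃ C : ℝ, 0 < C ∧ ∀ δ : ℝ, 0 < δ → δ ≤ 1 / 4 → ∀ m : ℕ, 1 ≤ m →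
    E m (fun f => ind (∃ p ∈ br f, (1 / 2 - δ) * m < (vs p.1 : ℝ) ∧ 2 * vs p.1 ≤ m + 1
      ∧ AllLe (vs p.1) p.2)) ≤ C * √δ / ((m : ℝ) ^ 2 * √m) + C / (m : ℝ) ^ 3 := by
  classical
  obtain ⟨C0, hC0, hrestr⟩ := restr
  refine ⟨72 * C0 + 81, by positivity, ?_⟩
  intro δ hδ hδ4 m hm
  have hm0 : (0 : ℝ) < m := by exact_mod_cast hm
  have hsm : 0 < √(m : ℝ) := Real.sqrt_pos.2 hm0
  have hms : √(m : ℝ) * √(m : ℝ) = m := Real.mul_self_sqrt hm0.le
  have h1 := E_one_branch m (fun k : ℕ => (1 / 2 - δ) * m < (k : ℝ) ∧ 2 * k ≤ m + 1)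
  have h2 : E m (fun f => ind (∃ p ∈ br f, (1 / 2 - δ) * m < (vs p.1 : ℝ) ∧ 2 * vs p.1 ≤ m + 1
      ∧ AllLe (vs p.1) p.2))
      = E m (fun f => ind (∃ p ∈ br f, ((1 / 2 - δ) * m < (vs p.1 : ℝ) ∧ 2 * vs p.1 ≤ m + 1)
      ∧ AllLe (vs p.1) p.2)) := by
    simp only [and_assoc]
  rw [h2]
  refine h1.trans ?_
  rw [sum_ind_eq]
  -- split according to `2 k < m`
  rw [← Finset.sum_filter_add_sum_filter_not _ (fun k => 2 * k < m)]
  have hA : ∑ k ∈ ((Icc 1 m).filter (fun k : ℕ => (1 / 2 - δ) * m < (k : ℝ) ∧ 2 * k ≤ m + 1)).filter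
      (fun k => 2 * k < m), τ k * E (m - k) (fun g => ind (AllLe k g))
      ≤ 72 * C0 * √δ / ((m : ℝ) ^ 2 * √m) := by
    have h3 : ∀ k ∈ ((Icc 1 m).filter (fun k : ℕ => (1 / 2 - δ) * m < (k : ℝ) ∧ 2 * k ≤ m + 1)).filter
        (fun k => 2 * k < m), τ k * E (m - k) (fun g => ind (AllLe k g))
        ≤ 24 * C0 / (m : ℝ) ^ 3 * (1 / √((m - 2 * k : ℕ) : ℝ)) := by
      intro k hk
      rw [Finset.mem_filter, Finset.mem_filter, Finset.mem_Icc] at hk
      obtain ⟨⟨⟨hk1, hkm⟩, hk2, hk3⟩, hk4⟩ := hk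
      have h4 : (m : ℝ) / 4 ≤ k := by nlinarith
      have h5 : τ k ≤ 8 / (m * √m) := (τ_le k hk1).trans
        (inv_le_of (1 / 2) k m 8 (by norm_num) hm0 (by linarith) (by norm_num))
      have h6 := hrestr (m - k) k (by omega)
      have h7 : ((m - k : ℕ) : ℝ) = m - k := by rw [Nat.cast_sub hkm]
      have h8 : ((m - 2 * k : ℕ) : ℝ) = m - 2 * k := by
        rw [Nat.cast_sub hk4.le]; push_cast; ring
      have h9 : (2 : ℝ) * k < m := by exact_mod_cast hk4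
      have h10 : 1 / (((m - k : ℕ) : ℝ) * √((m - k : ℕ) : ℝ)) ≤ 3 / (m * √m) :=
        inv_le_of (7 / 10) _ m 3 (by norm_num) hm0 (by rw [h7]; nlinarith) (by norm_num)
      have h11 : E (m - k) (fun g => ind (AllLe k g))
          ≤ C0 * (3 / (m * √m)) * (1 / √((m - 2 * k : ℕ) : ℝ)) := by
        refine h6.trans ?_
        have h12 : (((m - k : ℕ) : ℝ) - k) = ((m - 2 * k : ℕ) : ℝ) := by rw [h7, h8]; ring
        rw [h12]
        calc C0 / (((m - k : ℕ) : ℝ) * √((m - k : ℕ) : ℝ) * √((m - 2 * k : ℕ) : ℝ))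
            = C0 * (1 / (((m - k : ℕ) : ℝ) * √((m - k : ℕ) : ℝ))) * (1 / √((m - 2 * k : ℕ) : ℝ)) := by
              rw [div_mul_eq_div_div, mul_one_div, mul_one_div]
          _ ≤ _ := by gcongr
      calc τ k * E (m - k) (fun g => ind (AllLe k g))
          ≤ 8 / (m * √m) * (C0 * (3 / (m * √m)) * (1 / √((m - 2 * k : ℕ) : ℝ))) :=
            mul_le_mul h5 h11 (E_nonneg fun _ => ind_nonneg _) (by positivity)
        _ = 24 * C0 / (m : ℝ) ^ 3 * (1 / √((m - 2 * k : ℕ) : ℝ)) := by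
            have h13 : (m : ℝ) * √m * (m * √m) = (m : ℝ) ^ 3 := by
              linear_combination (m : ℝ) ^ 2 * hms
            rw [← h13]
            field_simp
            ring
    refine (Finset.sum_le_sum h3).trans ?_
    rw [← Finset.mul_sum]
    have h4 : ∑ k ∈ ((Icc 1 m).filter (fun k : ℕ => (1 / 2 - δ) * m < (k : ℝ) ∧ 2 * k ≤ m + 1)).filter
        (fun k => 2 * k < m), 1 / √((m - 2 * k : ℕ) : ℝ)
        ≤ ∑ y ∈ Icc 1 ⌊2 * δ * m⌋₊, 1 / √(y : ℝ) := by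
      have hinj : ∀ k ∈ ((Icc 1 m).filter (fun k : ℕ => (1 / 2 - δ) * m < (k : ℝ)
          ∧ 2 * k ≤ m + 1)).filter (fun k => 2 * k < m),
          ∀ j ∈ ((Icc 1 m).filter (fun k : ℕ => (1 / 2 - δ) * m < (k : ℝ)
          ∧ 2 * k ≤ m + 1)).filter (fun k => 2 * k < m), m - 2 * k = m - 2 * j → k = j := by
        intro k hk j hj hkj
        rw [Finset.mem_filter] at hk hj
        omega
      rw [← Finset.sum_image (f := fun y : ℕ => 1 / √(y : ℝ)) (g := fun k => m - 2 * k) hinj]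
      apply Finset.sum_le_sum_of_subset_of_nonneg
      · intro y hy
        rw [Finset.mem_image] at hy
        obtain ⟨k, hk, rfl⟩ := hy
        rw [Finset.mem_filter, Finset.mem_filter, Finset.mem_Icc] at hk
        obtain ⟨⟨⟨hk1, hkm⟩, hk2, hk3⟩, hk4⟩ := hk
        rw [Finset.mem_Icc]
        refine ⟨by omega, Nat.le_floor ?_⟩
        rw [Nat.cast_sub hk4.le]
        push_cast
        linarith
      · intro y _ _
        positivity
    have h5 := sum_rsqrt_le ⌊2 * δ * m⌋₊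
    have h6 : √(⌊2 * δ * m⌋₊ : ℝ) ≤ √(2 * δ * m) :=
      Real.sqrt_le_sqrt (Nat.floor_le (by positivity))
    have h7 : √(2 * δ * m) ≤ 3 / 2 * (√δ * √m) := by
      rw [Real.sqrt_le_left (by positivity)]
      have h8 : √δ * √δ = δ := Real.mul_self_sqrt hδ.le
      have h9 : (3 / 2 * (√δ * √m)) ^ 2 = 9 / 4 * (δ * m) := by
        calc (3 / 2 * (√δ * √m)) ^ 2 = 9 / 4 * ((√δ * √δ) * (√m * √m)) := by ring
          _ = _ := by rw [h8, hms]
      rw [h9]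
      nlinarith [mul_pos hδ hm0]
    have h8 : 0 < 24 * C0 / (m : ℝ) ^ 3 := by positivity
    calc 24 * C0 / (m : ℝ) ^ 3 * _ ≤ 24 * C0 / (m : ℝ) ^ 3 * (2 * (3 / 2 * (√δ * √m))) := by
          apply mul_le_mul_of_nonneg_left _ h8.le
          linarith
      _ = 72 * C0 * √δ / ((m : ℝ) ^ 2 * √m) := by
          have h13 : (m : ℝ) ^ 3 = m ^ 2 * √m * √m := by linear_combination -(m : ℝ) ^ 2 * hms
          rw [h13]
          field_simp
          ring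
  have hB : ∑ k ∈ ((Icc 1 m).filter (fun k : ℕ => (1 / 2 - δ) * m < (k : ℝ) ∧ 2 * k ≤ m + 1)).filter
      (fun k => ¬ 2 * k < m), τ k * E (m - k) (fun g => ind (AllLe k g)) ≤ 81 / (m : ℝ) ^ 3 := by
    have h3 : ∀ k ∈ ((Icc 1 m).filter (fun k : ℕ => (1 / 2 - δ) * m < (k : ℝ) ∧ 2 * k ≤ m + 1)).filter
        (fun k => ¬ 2 * k < m), τ k * E (m - k) (fun g => ind (AllLe k g)) ≤ 27 / (m : ℝ) ^ 3 := by
      intro k hk
      rw [Finset.mem_filter, Finset.mem_filter, Finset.mem_Icc] at hk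
      obtain ⟨⟨⟨hk1, hkm⟩, hk2, hk3⟩, hk4⟩ := hk
      have h4 : (m : ℝ) ≤ 2 * k := by exact_mod_cast (not_lt.1 hk4)
      have h5 : τ k ≤ 3 / (m * √m) := (τ_le k hk1).trans
        (inv_le_of (7 / 10) k m 3 (by norm_num) hm0 (by linarith) (by norm_num))
      have h6 := E_le_one_mul (m - k) (fun g => ind (AllLe k g)) (fun _ _ => ind_le_one _)
      have h7 : (((m - k : ℕ) : ℝ) + 1) = m - k + 1 := by rw [Nat.cast_sub hkm]
      have h8 : (2 : ℝ) * k ≤ m + 1 := by exact_mod_cast hk3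
      have h9 : 1 / ((((m - k : ℕ) : ℝ) + 1) * √(((m - k : ℕ) : ℝ) + 1)) ≤ 3 / (m * √m) :=
        inv_le_of (7 / 10) _ m 3 (by norm_num) hm0 (by rw [h7]; nlinarith) (by norm_num)
      have h10 : E (m - k) (fun g => ind (AllLe k g)) ≤ 9 / (m * √m) := by
        refine h6.trans ?_
        calc 3 / ((((m - k : ℕ) : ℝ) + 1) * √(((m - k : ℕ) : ℝ) + 1))
            = 3 * (1 / ((((m - k : ℕ) : ℝ) + 1) * √(((m - k : ℕ) : ℝ) + 1))) := by ring
          _ ≤ 3 * (3 / (m * √m)) := by gcongr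
          _ = _ := by ring
      calc τ k * E (m - k) (fun g => ind (AllLe k g))
          ≤ 3 / (m * √m) * (9 / (m * √m)) :=
            mul_le_mul h5 h10 (E_nonneg fun _ => ind_nonneg _) (by positivity)
        _ = 27 / (m : ℝ) ^ 3 := by
            have h13 : (m : ℝ) * √m * (m * √m) = (m : ℝ) ^ 3 := by
              linear_combination (m : ℝ) ^ 2 * hms
            rw [← h13]
            field_simp
            ring
    have h4 := Finset.sum_le_card_nsmul _ _ _ h3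
    refine h4.trans ?_
    rw [nsmul_eq_mul]
    have h5 : ((((Icc 1 m).filter (fun k : ℕ => (1 / 2 - δ) * m < (k : ℝ) ∧ 2 * k ≤ m + 1)).filter
        (fun k => ¬ 2 * k < m)).card : ℝ) ≤ ((m : ℝ) + 1) / 2 - (m : ℝ) / 2 + 1 := by
      apply card_real_le _ _ _ (by linarith)
      intro k hk
      rw [Finset.mem_filter, Finset.mem_filter, Finset.mem_Icc] at hk
      obtain ⟨⟨⟨hk1, hkm⟩, hk2, hk3⟩, hk4⟩ := hk
      have h4 : (m : ℝ) ≤ 2 * k := by exact_mod_cast (not_lt.1 hk4)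
      have h8 : (2 : ℝ) * k ≤ m + 1 := by exact_mod_cast hk3
      constructor <;> linarith
    calc _ ≤ (3 : ℝ) * (27 / (m : ℝ) ^ 3) := by
          apply mul_le_mul_of_nonneg_right _ (by positivity)
          linarith
      _ = _ := by ring
  have hpos1 : 0 ≤ √δ / ((m : ℝ) ^ 2 * √m) := by positivity
  have hpos2 : 0 ≤ C0 / (m : ℝ) ^ 3 := by positivity
  calc _ ≤ 72 * C0 * √δ / ((m : ℝ) ^ 2 * √m) + 81 / (m : ℝ) ^ 3 := add_le_add hA hB
    _ ≤ (72 * C0 + 81) * √δ / ((m : ℝ) ^ 2 * √m) + (72 * C0 + 81) / (m : ℝ) ^ 3 := by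
        have h3 : (72 * C0 + 81) * √δ / ((m : ℝ) ^ 2 * √m)
          = 72 * C0 * √δ / ((m : ℝ) ^ 2 * √m) + 81 * (√δ / ((m : ℝ) ^ 2 * √m)) := by ring
        have h4 : (72 * C0 + 81) / (m : ℝ) ^ 3 = 72 * (C0 / (m : ℝ) ^ 3) + 81 / (m : ℝ) ^ 3 := by
          ring
        rw [h3, h4]
        linarith

theorem evt2 : ∃ C : ℝ, 0 < C ∧ ∀ δ : ℝ, 0 < δ → δ ≤ 1 / 12 → ∀ m : ℕ, 1 ≤ m →
    E m (fun f => ind (∃ p ∈ br f, |(vs p.1 : ℝ) - m / 3| ≤ δ * m ∧ AllLe (vs p.1) p.2))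
      ≤ C * δ / ((m : ℝ) ^ 2 * √m) + C / (m : ℝ) ^ 3 := by
  classical
  obtain ⟨C0, hC0, hrestr⟩ := restr
  refine ⟨144 * C0, by positivity, ?_⟩
  intro δ hδ hδ4 m hm
  have hm0 : (0 : ℝ) < m := by exact_mod_cast hm
  have hm1 : (1 : ℝ) ≤ m := by exact_mod_cast hm
  have hsm : 0 < √(m : ℝ) := Real.sqrt_pos.2 hm0
  have hms : √(m : ℝ) * √(m : ℝ) = m := Real.mul_self_sqrt hm0.le
  have hs1 : 1 ≤ √(m : ℝ) := by rw [Real.one_le_sqrt]; exact hm1
  refine (E_one_branch m (fun k : ℕ => |(k : ℝ) - m / 3| ≤ δ * m)).trans ?_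
  rw [sum_ind_eq]
  have h3 : ∀ k ∈ (Icc 1 m).filter (fun k : ℕ => |(k : ℝ) - m / 3| ≤ δ * m),
      τ k * E (m - k) (fun g => ind (AllLe k g)) ≤ 72 * C0 / ((m : ℝ) ^ 3 * √m) := by
    intro k hk
    rw [Finset.mem_filter, Finset.mem_Icc] at hk
    obtain ⟨⟨hk1, hkm⟩, hk2⟩ := hk
    rw [abs_le] at hk2
    have h4 : (m : ℝ) / 4 ≤ k := by nlinarith
    have h4' : (k : ℝ) ≤ 5 / 12 * m := by nlinarith
    have h5 : τ k ≤ 8 / (m * √m) := (τ_le k hk1).trans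
      (inv_le_of (1 / 2) k m 8 (by norm_num) hm0 (by linarith) (by norm_num))
    have h7 : ((m - k : ℕ) : ℝ) = m - k := by rw [Nat.cast_sub hkm]
    have h8 : k < m - k := by
      have : (k : ℝ) < ((m - k : ℕ) : ℝ) := by rw [h7]; linarith
      exact_mod_cast this
    have h6 := hrestr (m - k) k h8
    have h10 : 1 / (((m - k : ℕ) : ℝ) * √((m - k : ℕ) : ℝ)) ≤ 3 / (m * √m) :=
      inv_le_of (7 / 10) _ m 3 (by norm_num) hm0 (by rw [h7]; nlinarith) (by norm_num)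
    have h12 : 1 / √(((m - k : ℕ) : ℝ) - k) ≤ 3 / √m :=
      inv_sqrt_le_of (4 / 10) _ m 3 (by norm_num) hm0 (by rw [h7]; nlinarith) (by norm_num)
    have h11 : E (m - k) (fun g => ind (AllLe k g)) ≤ C0 * (3 / (m * √m)) * (3 / √m) := by
      refine h6.trans ?_
      calc C0 / (((m - k : ℕ) : ℝ) * √((m - k : ℕ) : ℝ) * √(((m - k : ℕ) : ℝ) - k))
          = C0 * (1 / (((m - k : ℕ) : ℝ) * √((m - k : ℕ) : ℝ)))
            * (1 / √(((m - k : ℕ) : ℝ) - k)) := by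
            rw [div_mul_eq_div_div, mul_one_div, mul_one_div]
        _ ≤ _ := by gcongr
    calc τ k * E (m - k) (fun g => ind (AllLe k g))
        ≤ 8 / (m * √m) * (C0 * (3 / (m * √m)) * (3 / √m)) :=
          mul_le_mul h5 h11 (E_nonneg fun _ => ind_nonneg _) (by positivity)
      _ = 72 * C0 / ((m : ℝ) ^ 3 * √m) := by
          have h13 : (m : ℝ) * √m * (m * √m) * √m = (m : ℝ) ^ 3 * √m := by
            linear_combination (m : ℝ) ^ 2 * √m * hms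
          rw [← h13]
          field_simp
          ring
  refine (Finset.sum_le_card_nsmul _ _ _ h3).trans ?_
  rw [nsmul_eq_mul]
  have h5 : ((((Icc 1 m).filter (fun k : ℕ => |(k : ℝ) - m / 3| ≤ δ * m))).card : ℝ)
      ≤ ((m : ℝ) / 3 + δ * m) - ((m : ℝ) / 3 - δ * m) + 1 := by
    apply card_real_le _ _ _ (by nlinarith)
    intro k hk
    rw [Finset.mem_filter, abs_le] at hk
    constructor <;> linarith [hk.2.1, hk.2.2]
  have hpos : 0 < 72 * C0 / ((m : ℝ) ^ 3 * √m) := by positivity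
  calc _ ≤ (2 * δ * m + 1) * (72 * C0 / ((m : ℝ) ^ 3 * √m)) := by
        apply mul_le_mul_of_nonneg_right _ hpos.le
        linarith
    _ = 144 * C0 * δ / ((m : ℝ) ^ 2 * √m) + 72 * C0 / ((m : ℝ) ^ 3 * √m) := by
        field_simp
        ring
    _ ≤ 144 * C0 * δ / ((m : ℝ) ^ 2 * √m) + 144 * C0 / (m : ℝ) ^ 3 := by
        gcongr
        · norm_num
        · nlinarith [pow_pos hm0 3]

/-- two big branches -/
lemma E_two_branches (m : ℕ) (P : ℕ → ℕ → Prop) :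
    E m (fun f => ind (∃ p ∈ br f, ∃ q ∈ br p.2, P (vs p.1) (vs q.1)))
      ≤ ∑ k ∈ Icc 1 m, ∑ b ∈ Icc 1 (m - k), ind (P k b) * (τ k * τ b *
        E (m - k - b) (fun _ => 1)) := by
  refine (E_br_le m _ (fun a g => ((br g).map (fun q => ind (P (vs a) (vs q.1)))).sum)
    (fun f _ => ?_)).trans (le_of_eq ?_)
  · refine (ind_exists_le (br f) _).trans ?_
    exact list_sum_le _ _ _ fun p _ => ind_exists_le (br p.2) _
  · apply Finset.sum_congr rfl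
    intro k _
    have h1 : ∀ a : Fr, vs a = k →
        E (m - k) (fun g => ((br g).map (fun q => ind (P (vs a) (vs q.1)))).sum)
        = ∑ b ∈ Icc 1 (m - k), ind (P k b) * (τ b * E (m - k - b) (fun _ => 1)) := by
      intro a ha
      have h2 := br_formula (m - k) (fun a' _ => ind (P (vs a) (vs a')))
      rw [h2]
      apply Finset.sum_congr rfl
      intro b _
      have h3 : ET b (fun a' => E (m - k - b) (fun _ => ind (P (vs a) (vs a'))))
          = ET b (fun _ => ind (P k b) * E (m - k - b) (fun _ => 1)) := by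
        apply ET_congr
        intro a' ha'
        rw [ha, ha', ← E_mul_left]
        exact E_congr fun g _ => (mul_one _).symm
      rw [h3, ET_cst]
      ring
    rw [ET_congr h1, ET_cst, Finset.sum_mul]
    apply Finset.sum_congr rfl
    intro b _
    ring

theorem evt3 (δ : ℝ) (hδ : 0 < δ) : ∃ C : ℝ, 0 < C ∧ ∀ δ' : ℝ, 0 < δ' → δ' ≤ 1 / 8 →
    ∀ m : ℕ, 1 ≤ m →
    E m (fun f => ind (∃ p ∈ br f, ∃ q ∈ br p.2, (m : ℝ) / 4 ≤ vs p.1 ∧
      (vs p.1 : ℝ) ≤ (1 / 2 - δ) * m ∧ (vs p.1 : ℝ) - δ' * m ≤ vs q.1 ∧ vs q.1 ≤ vs p.1))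
      ≤ C * δ' / ((m : ℝ) ^ 2 * √m) + C / (m : ℝ) ^ 3 := by
  classical
  obtain ⟨K, hK0, hK⟩ : ∃ K : ℝ, 0 < K ∧ 1 ≤ K * (√(2 * δ)) ^ 3 := by
    have : 0 < √(2 * δ) := Real.sqrt_pos.2 (by linarith)
    refine ⟨1 / (√(2 * δ)) ^ 3, by positivity, ?_⟩
    rw [one_div, inv_mul_cancel₀ (by positivity)]
  refine ⟨648 * K, by positivity, ?_⟩
  intro δ' hδ' hδ8 m hm
  have hm0 : (0 : ℝ) < m := by exact_mod_cast hm
  have hm1 : (1 : ℝ) ≤ m := by exact_mod_cast hm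
  have hsm : 0 < √(m : ℝ) := Real.sqrt_pos.2 hm0
  have hms : √(m : ℝ) * √(m : ℝ) = m := Real.mul_self_sqrt hm0.le
  have hs1 : 1 ≤ √(m : ℝ) := by rw [Real.one_le_sqrt]; exact hm1
  refine (E_two_branches m (fun z b => (m : ℝ) / 4 ≤ z ∧ (z : ℝ) ≤ (1 / 2 - δ) * m ∧
    (z : ℝ) - δ' * m ≤ b ∧ b ≤ z)).trans ?_
  have hk : ∀ k ∈ Icc 1 m, ∑ b ∈ Icc 1 (m - k), ind ((m : ℝ) / 4 ≤ k ∧
      (k : ℝ) ≤ (1 / 2 - δ) * m ∧ (k : ℝ) - δ' * m ≤ b ∧ b ≤ k) * (τ k * τ b *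
        E (m - k - b) (fun _ => 1)) ≤ (δ' * m + 1) * (648 * K / ((m : ℝ) ^ 4 * √m)) := by
    intro k hk
    rw [Finset.mem_Icc] at hk
    rw [sum_ind_eq]
    have h3 : ∀ b ∈ (Icc 1 (m - k)).filter (fun b : ℕ => (m : ℝ) / 4 ≤ k ∧
        (k : ℝ) ≤ (1 / 2 - δ) * m ∧ (k : ℝ) - δ' * m ≤ b ∧ b ≤ k), τ k * τ b *
        E (m - k - b) (fun _ => 1) ≤ 648 * K / ((m : ℝ) ^ 4 * √m) := by
      intro b hb
      rw [Finset.mem_filter, Finset.mem_Icc] at hb
      obtain ⟨⟨hb1, hbm⟩, h1, h2, h3, h4⟩ := hb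
      have h4' : (b : ℝ) ≤ k := by exact_mod_cast h4
      have h5 : τ k ≤ 8 / (m * √m) := (τ_le k hk.1).trans
        (inv_le_of (1 / 2) k m 8 (by norm_num) hm0 (by linarith) (by norm_num))
      have h6 : τ b ≤ 27 / (m * √m) := (τ_le b hb1).trans
        (inv_le_of (1 / 3) b m 27 (by norm_num) hm0 (by nlinarith) (by norm_num))
      have h7 : ((m - k - b : ℕ) : ℝ) = m - k - b := by
        rw [Nat.cast_sub hbm, Nat.cast_sub hk.2]
      have hsq : √(2 * δ) ^ 2 = 2 * δ := Real.sq_sqrt (by linarith)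
      have h8 : 1 / ((((m - k - b : ℕ) : ℝ) + 1) * √(((m - k - b : ℕ) : ℝ) + 1))
          ≤ K / (m * √m) :=
        inv_le_of (√(2 * δ)) _ m K (Real.sqrt_pos.2 (by linarith)) hm0
          (by rw [h7, hsq]; nlinarith) hK
      have h9 : E (m - k - b) (fun _ => 1) ≤ 3 * (K / (m * √m)) := by
        refine (E_one_le (m - k - b)).trans ?_
        calc 3 / ((((m - k - b : ℕ) : ℝ) + 1) * √(((m - k - b : ℕ) : ℝ) + 1))
            = 3 * (1 / ((((m - k - b : ℕ) : ℝ) + 1) * √(((m - k - b : ℕ) : ℝ) + 1))) := by ring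
          _ ≤ _ := by gcongr
      calc τ k * τ b * E (m - k - b) (fun _ => 1)
          ≤ 8 / (m * √m) * (27 / (m * √m)) * (3 * (K / (m * √m))) := by
            apply mul_le_mul _ h9 (E_nonneg fun _ => zero_le_one) (by positivity)
            exact mul_le_mul h5 h6 (τ_nonneg b) (by positivity)
        _ = 648 * K / ((m : ℝ) ^ 4 * √m) := by
            have h13 : (m : ℝ) * √m * (m * √m) * (m * √m) = (m : ℝ) ^ 4 * √m := by
              linear_combination (m : ℝ) ^ 3 * √m * hms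
            rw [← h13]
            field_simp
            ring
    refine (Finset.sum_le_card_nsmul _ _ _ h3).trans ?_
    rw [nsmul_eq_mul]
    apply mul_le_mul_of_nonneg_right _ (by positivity)
    have h5 : ((((Icc 1 (m - k)).filter (fun b : ℕ => (m : ℝ) / 4 ≤ k ∧
        (k : ℝ) ≤ (1 / 2 - δ) * m ∧ (k : ℝ) - δ' * m ≤ b ∧ b ≤ k))).card : ℝ)
        ≤ (k : ℝ) - ((k : ℝ) - δ' * m) + 1 := by
      apply card_real_le _ _ _ (by nlinarith)
      intro b hb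
      rw [Finset.mem_filter] at hb
      exact ⟨hb.2.2.2.1, by exact_mod_cast hb.2.2.2.2⟩
    linarith
  refine (Finset.sum_le_card_nsmul _ _ _ hk).trans ?_
  rw [nsmul_eq_mul, Nat.card_Icc]
  have h1 : ((m + 1 - 1 : ℕ) : ℝ) = m := by simp
  rw [h1]
  calc (m : ℝ) * ((δ' * m + 1) * (648 * K / ((m : ℝ) ^ 4 * √m)))
      = 648 * K * δ' / ((m : ℝ) ^ 2 * √m) + 648 * K / ((m : ℝ) ^ 3 * √m) := by
        field_simp
    _ ≤ 648 * K * δ' / ((m : ℝ) ^ 2 * √m) + 648 * K / (m : ℝ) ^ 3 := by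
        gcongr
        nlinarith [pow_pos hm0 3]

end RT
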