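import Mathlib
import Pool.Agent.Lib_helper86.RT.Tools

set_option autoImplicit false

/-!
Module FRINGE.  Paper proof.  card (Bset L g) ≤ ∑_{x ∈ fr g} ind (L < vs x)
= ∑_{(a,rest) ∈ br g} ∑_{x ∈ a :: fr a} ind (L < vs x) (`fr_br`), and AllLe z g gives vs a ≤ z.
`br_formula`, `fringe_formula'`, `ET_one`, `E_one`:
≤ ∑_{k≤z} (∑_{L<j≤k} υ_{k-j} τ_j) e τ_{m-k+1}, and τ_{m-k+1} ≤ (δ m)^(-3/2), ∑_{k≤m} υ_{k-j} ≤ 1 + 2√m,
∑_{j>L} τ_j ≤ 3/√L.
-/

namespace RT

open Pool.MP_1af41f_co.CSF Finset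

/-- number of fringe subtrees (with multiplicity, the tree included) with more than `L` vertices -/
noncomputable def cnt (L : ℕ) (a : Fr) : ℝ :=
  ind (L < vs a) + ((fr a).map (fun x => ind (L < vs x))).sum

lemma cnt_nonneg (L : ℕ) (a : Fr) : 0 ≤ cnt L a :=
  add_nonneg (ind_nonneg _) (list_sum_nonneg _ _ fun _ _ => ind_nonneg _)

lemma card_Bset_le (L : ℕ) (g : Fr) :
    ((Bset L g).card : ℝ) ≤ ((fr g).map (fun x => ind (L < vs x))).sum := by
  classical
  have key : ∀ l : List Fr, ((((l.map vs).toFinset).filter (fun k => L < k)).card : ℝ)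
      ≤ (l.map (fun x => ind (L < vs x))).sum := by
    intro l
    induction l with
    | nil => simp
    | cons a l ih =>
      rw [List.map_cons, List.map_cons, List.sum_cons, List.toFinset_cons, Finset.filter_insert]
      by_cases h : L < vs a
      · rw [if_pos h, ind_of h]
        have h1 := Finset.card_insert_le (vs a) (((l.map vs).toFinset).filter (fun k => L < k))
        have h2 : ((insert (vs a) (((l.map vs).toFinset).filter (fun k => L < k))).card : ℝ)
          ≤ (((l.map vs).toFinset).filter (fun k => L < k)).card + 1 := by exact_mod_cast h1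
        linarith
      · rw [if_neg h, ind_of_not h]
        linarith
  unfold Bset
  exact key (fr g)

lemma ET_cnt (L k : ℕ) (hk : 1 ≤ k) :
    ET k (cnt L) = ∑ j ∈ Icc 1 k, υ (k - j) * (ind (L < j) * τ j) := by
  have h := fringe_formula' k hk (fun x => ind (L < vs x))
  have h1 : ET k (cnt L) = ET k (fun a => ind (L < vs a)
      + ((fr a).map (fun x => ind (L < vs x))).sum) := rfl
  rw [h1, h]
  apply Finset.sum_congr rfl
  intro j _
  congr 1
  rw [← ET_cst]
  exact ET_congr fun a ha => by rw [ha]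

lemma sum_υ_le (n : ℕ) : ∑ k ∈ range (n + 1), υ k ≤ 1 + 2 * √n := by
  rw [Finset.sum_range_succ']
  rw [υ_zero]
  have h1 : ∑ k ∈ range n, υ (k + 1) = ∑ k ∈ Icc 1 n, υ k := by
    rw [Finset.range_eq_Ico, Finset.sum_Ico_add' υ 0 n 1]
    rfl
  rw [h1]
  have h2 : ∑ k ∈ Icc 1 n, υ k ≤ ∑ k ∈ Icc 1 n, 1 / √(k : ℝ) :=
    Finset.sum_le_sum fun k hk => υ_le k (Finset.mem_Icc.1 hk).1
  have h3 := sum_rsqrt_le n
  linarith

/-- total weight of the big fringe subtrees -/
lemma sum_ET_cnt_le (L m : ℕ) (hL : 1 ≤ L) :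
    ∑ k ∈ Icc 1 m, ET k (cnt L) ≤ 3 / √L * (1 + 2 * √m) := by
  have h1 : ∑ k ∈ Icc 1 m, ET k (cnt L)
      = ∑ j ∈ Icc 1 m, ind (L < j) * τ j * ∑ k ∈ Icc j m, υ (k - j) := by
    have h2 : ∑ k ∈ Icc 1 m, ET k (cnt L)
        = ∑ k ∈ Icc 1 m, ∑ j ∈ Icc 1 k, υ (k - j) * (ind (L < j) * τ j) :=
      Finset.sum_congr rfl fun k hk => ET_cnt L k (Finset.mem_Icc.1 hk).1
    rw [h2, Finset.sum_comm' (t' := Icc 1 m) (s' := fun j => Icc j m)]
    · apply Finset.sum_congr rfl
      intro j _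
      rw [Finset.mul_sum]
      exact Finset.sum_congr rfl fun k _ => by ring
    · intro k j
      simp only [Finset.mem_Icc]
      omega
  rw [h1]
  have h2 : ∀ j ∈ Icc 1 m, ∑ k ∈ Icc j m, υ (k - j) ≤ 1 + 2 * √m := by
    intro j hj
    rw [Finset.mem_Icc] at hj
    have h3 : ∑ k ∈ Icc j m, υ (k - j) = ∑ k ∈ range (m - j + 1), υ k := by
      apply Finset.sum_nbij' (fun k => k - j) (fun k => k + j)
      · intro k hk
        rw [Finset.mem_Icc] at hk
        rw [Finset.mem_range]; omega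
      · intro k hk
        rw [Finset.mem_range] at hk
        rw [Finset.mem_Icc]; omega
      · intro k hk
        rw [Finset.mem_Icc] at hk
        omega
      · intro k _
        omega
      · intro k _
        rfl
    rw [h3]
    have h4 : ∑ k ∈ range (m - j + 1), υ k ≤ ∑ k ∈ range (m + 1), υ k :=
      Finset.sum_le_sum_of_subset_of_nonneg
        (Finset.range_subset_range.2 (by omega)) fun k _ _ => υ_nonneg k
    exact h4.trans (sum_υ_le m)
  have h3 : ∑ j ∈ Icc 1 m, ind (L < j) * τ j * ∑ k ∈ Icc j m, υ (k - j)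
      ≤ ∑ j ∈ Icc 1 m, ind (L < j) * τ j * (1 + 2 * √m) :=
    Finset.sum_le_sum fun j hj => mul_le_mul_of_nonneg_left (h2 j hj)
      (mul_nonneg (ind_nonneg _) (τ_nonneg j))
  refine h3.trans ?_
  rw [← Finset.sum_mul]
  apply mul_le_mul_of_nonneg_right _ (by positivity)
  have h4 : ∑ j ∈ Icc 1 m, ind (L < j) * τ j ≤ ∑ j ∈ Ico L (m + 1), 1 / ((j : ℝ) * √j) := by
    have h5 : ∑ j ∈ Icc 1 m, ind (L < j) * τ j
        = ∑ j ∈ (Icc 1 m).filter (fun j => L < j), τ j := by
      rw [Finset.sum_filter]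
      apply Finset.sum_congr rfl
      intro j _
      by_cases h : L < j
      · rw [ind_of h, if_pos h, one_mul]
      · rw [ind_of_not h, if_neg h, zero_mul]
    rw [h5]
    calc ∑ j ∈ (Icc 1 m).filter (fun j => L < j), τ j
        ≤ ∑ j ∈ (Icc 1 m).filter (fun j => L < j), 1 / ((j : ℝ) * √j) := by
          apply Finset.sum_le_sum
          intro j hj
          rw [Finset.mem_filter, Finset.mem_Icc] at hj
          exact τ_le j hj.1.1
      _ ≤ _ := by
          apply Finset.sum_le_sum_of_subset_of_nonneg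
          · intro j hj
            rw [Finset.mem_filter, Finset.mem_Icc] at hj
            rw [Finset.mem_Ico]; omega
          · intro j _ _
            positivity
  exact h4.trans (sum_tail_le L (m + 1) hL)

theorem fringe_restr (δ : ℝ) (hδ : 0 < δ) : ∃ C : ℝ, 0 < C ∧ ∀ m z L : ℕ, 1 ≤ m → 1 ≤ L →
    (z : ℝ) ≤ (1 - δ) * m →
    E m (fun g => ind (AllLe z g) * ((Bset L g).card : ℝ)) ≤ C / (m * √L) := by
  refine ⟨27 / (δ * √δ), by positivity, ?_⟩
  intro m z L hm hL hz
  have hm0 : (0 : ℝ) < m := by exact_mod_cast hm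
  have hsL : 0 < √(L : ℝ) := Real.sqrt_pos.2 (by exact_mod_cast hL)
  have hsm : 1 ≤ √(m : ℝ) := by
    rw [Real.one_le_sqrt]; exact_mod_cast hm
  have h1 : E m (fun g => ind (AllLe z g) * ((Bset L g).card : ℝ))
      ≤ ∑ k ∈ Icc 1 m, ET k (fun a => E (m - k) (fun _ => ind (vs a ≤ z) * cnt L a)) := by
    apply E_br_le m _ (fun a _ => ind (vs a ≤ z) * cnt L a)
    intro f _
    by_cases hA : AllLe z f
    · rw [ind_of hA, one_mul]
      refine (card_Bset_le L f).trans ?_
      rw [fr_br]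
      apply list_sum_le
      intro p hp
      rw [ind_of (hA p.1 (br_mem hp)), one_mul]
      rfl
    · rw [ind_of_not hA, zero_mul]
      exact list_sum_nonneg _ _ fun p _ => mul_nonneg (ind_nonneg _) (cnt_nonneg _ _)
  refine h1.trans ?_
  have h2 : ∀ k ∈ Icc 1 m, ET k (fun a => E (m - k) (fun _ => ind (vs a ≤ z) * cnt L a))
      ≤ ET k (cnt L) * (3 / ((δ * m) * √(δ * m))) := by
    intro k hk
    rw [Finset.mem_Icc] at hk
    have h3 : ET k (fun a => E (m - k) (fun _ => ind (vs a ≤ z) * cnt L a))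
        = ET k (fun a => (ind (k ≤ z) * E (m - k) (fun _ => 1)) * cnt L a) := by
      apply ET_congr
      intro a ha
      have h4 := E_mul_left (m - k) (ind (vs a ≤ z) * cnt L a) (fun _ => 1)
      simp only [mul_one] at h4
      rw [h4, ha]
      ring
    rw [h3, ET_mul_left, mul_comm]
    apply mul_le_mul_of_nonneg_left _ (ET_nonneg fun a => cnt_nonneg L a)
    by_cases hkz : k ≤ z
    · rw [ind_of hkz, one_mul]
      refine (E_one_le (m - k)).trans ?_
      have h5 : δ * m ≤ ((m - k : ℕ) : ℝ) + 1 := by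
        rw [Nat.cast_sub hk.2]
        have : (k : ℝ) ≤ z := by exact_mod_cast hkz
        nlinarith
      have h6 : √(δ * m) ≤ √(((m - k : ℕ) : ℝ) + 1) := Real.sqrt_le_sqrt h5
      have h7 : 0 < δ * m := by positivity
      have h8 : 0 < √(δ * m) := Real.sqrt_pos.2 h7
      gcongr
    · rw [ind_of_not hkz, zero_mul]
      positivity
  refine (Finset.sum_le_sum h2).trans ?_
  rw [← Finset.sum_mul]
  have h3 := sum_ET_cnt_le L m hL
  have h4 : (0 : ℝ) < 3 / ((δ * m) * √(δ * m)) := by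
    have : 0 < √(δ * m) := Real.sqrt_pos.2 (by positivity)
    positivity
  calc (∑ k ∈ Icc 1 m, ET k (cnt L)) * (3 / ((δ * m) * √(δ * m)))
      ≤ (3 / √L * (1 + 2 * √m)) * (3 / ((δ * m) * √(δ * m))) :=
        mul_le_mul_of_nonneg_right h3 h4.le
    _ ≤ (3 / √L * (3 * √m)) * (3 / ((δ * m) * √(δ * m))) := by
        apply mul_le_mul_of_nonneg_right _ h4.le
        apply mul_le_mul_of_nonneg_left _ (by positivity)
        linarith
    _ = 27 / (δ * √δ) / (m * √L) := by
        rw [Real.sqrt_mul hδ.le]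
        have h5 : 0 < √δ := Real.sqrt_pos.2 hδ
        have h6 : 0 < √(m : ℝ) := by linarith
        field_simp
        ring

end RT
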