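import Mathlib
import Pool.Agent.Lib_helper86.RT.Tools

set_option autoImplicit false

/-!
The hypotheses of the deterministic theorem (Theorem H of helper17) and the combinatorial part of the
probabilistic argument.
-/

namespace RT

open Pool.MP_1af41f_co.CSF Finset

/-- hypotheses of the deterministic theorem, for the rooted tree with branch forest `f` -/
def HypH (f : Fr) : Prop :=
  ∃ p ∈ br f, ∃ θ K t : ℕ, AllLe θ p.2 ∧ θ < vs p.1 ∧ p.2.size ≤ 2 * θ ∧ vs p.1 ≤ p.2.size ∧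
    (∀ ρ : ℕ, Nat.card {x : ℕ // x ∈ Wset θ p.1 ∧ ∃ b ∈ Bset 0 p.2, x + b = ρ} ≤ t) ∧
    K * (t + 1) ≤ (Wset θ p.1).card ∧ 2 * t < (Wset θ p.1).card ∧
    vs p.1 ≤ K * (p.2.size + 1 - vs p.1)

def Rng (δ : ℝ) (m z : ℕ) : Prop := (1 / 3 + δ) * m < (z : ℝ) ∧ (z : ℝ) ≤ (1 / 2 - δ) * m

def Ev4 (Y M : ℕ) (a : Fr) : Prop := (Wset (vs a - Y) a).card ≤ M

open Classical in
def Ev5 (T : ℕ) (S : Finset ℕ) (a : Fr) : Prop := T ≤ (Wset (vs a / 2) a ∩ S).card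

def Ev7 (L N : ℕ) (g : Fr) : Prop := N < (Bset L g).card

lemma fr_size_le {g x : Fr} (hx : x ∈ fr g) : vs x ≤ g.size := by
  induction g with
  | nil => simp [fr] at hx
  | cons a b iha ihb =>
    rw [fr, List.mem_cons, List.mem_append] at hx
    unfold vs at *
    rcases hx with rfl | hx | hx
    · simp only [Fr.size]; omega
    · have := iha hx
      simp only [Fr.size]; omega
    · have := ihb hx
      simp only [Fr.size]; omega

lemma mem_Wset {y k : ℕ} {a : Fr} :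
    k ∈ Wset y a ↔ (k = vs a ∨ ∃ x ∈ fr a, k = vs x) ∧ y < k := by
  unfold Wset
  rw [Finset.mem_filter, List.mem_toFinset, List.map_cons, List.mem_cons, List.mem_map]
  constructor
  · rintro ⟨h | ⟨x, hx, rfl⟩, h2⟩
    · exact ⟨Or.inl h, h2⟩
    · exact ⟨Or.inr ⟨x, hx, rfl⟩, h2⟩
  · rintro ⟨h | ⟨x, hx, rfl⟩, h2⟩
    · exact ⟨Or.inl h, h2⟩
    · exact ⟨Or.inr ⟨x, hx, rfl⟩, h2⟩

lemma Wset_le {y k : ℕ} {a : Fr} (h : k ∈ Wset y a) : k ≤ vs a := by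
  rw [mem_Wset] at h
  rcases h.1 with rfl | ⟨x, hx, rfl⟩
  · exact le_rfl
  · have := fr_size_le hx
    unfold vs at *
    omega

lemma Wset_mono {y y' k : ℕ} {a : Fr} (hy : y' ≤ y) (h : k ∈ Wset y a) : k ∈ Wset y' a := by
  rw [mem_Wset] at h ⊢
  exact ⟨h.1, lt_of_le_of_lt hy h.2⟩

lemma mem_Bset {y k : ℕ} {g : Fr} : k ∈ Bset y g ↔ (∃ x ∈ fr g, vs x = k) ∧ y < k := by
  unfold Bset
  rw [Finset.mem_filter, List.mem_toFinset, List.mem_map]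

lemma main_incl (δ δ' : ℝ) (hδ : 0 < δ) (hδ24 : δ ≤ 1 / 24) (_hδ'0 : 0 < δ') (hδ' : δ' ≤ δ)
    (m Y M T L N K : ℕ) (hm : 1 ≤ m) (hY : 1 ≤ Y) (hY' : (Y : ℝ) ≤ δ' * m / 2) (_hT : 1 ≤ T)
    (hK : 1 ≤ (K : ℝ) * (4 * δ)) (hKT : K * (2 * T + 1) ≤ M + 1) (hTM : 4 * T < M + 1)
    (f : Fr) (hf : f.size = m) (hcent : ∀ a ∈ f.toList, 2 * vs a ≤ m + 1) (hnot : ¬ HypH f) :
    (∀ a ∈ f.toList, (vs a : ℝ) ≤ (1 / 3 - δ) * m) ∨
    (∃ p ∈ br f, (1 / 2 - δ) * m < (vs p.1 : ℝ) ∧ 2 * vs p.1 ≤ m + 1 ∧ AllLe (vs p.1) p.2) ∨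
    (∃ p ∈ br f, |(vs p.1 : ℝ) - m / 3| ≤ δ * m ∧ AllLe (vs p.1) p.2) ∨
    (∃ p ∈ br f, ∃ q ∈ br p.2, (m : ℝ) / 4 ≤ vs p.1 ∧ (vs p.1 : ℝ) ≤ (1 / 2 - δ) * m ∧
      (vs p.1 : ℝ) - δ' * m ≤ vs q.1 ∧ vs q.1 ≤ vs p.1) ∨
    (∃ p ∈ br f, Rng δ m (vs p.1) ∧ AllLe (vs p.1) p.2 ∧ (Ev4 Y M p.1 ∨ Ev7 L N p.2 ∨
      ∃ ρ ∈ range (2 * m + 1), Ev5 T (Ico (ρ - L) ρ) p.1 ∨
        ((Bset L p.2).card ≤ N ∧ Ev5 T ((Bset L p.2).image (fun b => ρ - b)) p.1))) := by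
  classical
  have hm0 : (0 : ℝ) < m := by exact_mod_cast hm
  -- the largest branch
  have hne : f.toList ≠ [] := by
    intro h
    cases f with
    | nil => simp [Fr.size] at hf; omega
    | cons a b => simp [Fr.toList] at h
  obtain ⟨a, ha, hmax⟩ : ∃ a ∈ f.toList, ∀ b ∈ f.toList, vs b ≤ vs a := by
    have h1 : (f.toList.toFinset).Nonempty := by
      rw [Finset.nonempty_iff_ne_empty]
      intro h
      exact hne (List.toFinset_eq_empty_iff _ |>.1 h)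
    obtain ⟨a, ha, hmax⟩ := Finset.exists_max_image f.toList.toFinset vs h1
    exact ⟨a, List.mem_toFinset.1 ha, fun b hb => hmax b (List.mem_toFinset.2 hb)⟩
  obtain ⟨p, hp, hpa⟩ := exists_br_of_mem ha
  have hall : AllLe (vs p.1) p.2 := fun b hb => by
    rw [hpa]; exact hmax b ((br_toList hp b).2 (Or.inr hb))
  have hsize := br_size hp
  rw [hf] at hsize
  have hc := hcent p.1 (br_mem hp)
  by_cases h0 : (vs p.1 : ℝ) ≤ (1 / 3 - δ) * m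
  · left
    intro b hb
    have h1 : vs b ≤ vs p.1 := by rw [hpa]; exact hmax b hb
    have h2 : (vs b : ℝ) ≤ vs p.1 := by exact_mod_cast h1
    linarith
  right
  by_cases h1 : (1 / 2 - δ) * m < (vs p.1 : ℝ)
  · exact Or.inl ⟨p, hp, h1, hc, hall⟩
  right
  by_cases h2 : |(vs p.1 : ℝ) - m / 3| ≤ δ * m
  · exact Or.inl ⟨p, hp, h2, hall⟩
  right
  have hlow : (1 / 3 + δ) * m < (vs p.1 : ℝ) := by
    rw [abs_le] at h2
    by_contra h3
    exact h2 ⟨by nlinarith [not_le.1 h0], by nlinarith [not_lt.1 h3]⟩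
  have hup : (vs p.1 : ℝ) ≤ (1 / 2 - δ) * m := not_lt.1 h1
  by_cases h3 : ∃ q ∈ br p.2, (vs p.1 : ℝ) - δ' * m ≤ vs q.1
  · left
    obtain ⟨q, hq, hq'⟩ := h3
    exact ⟨p, hp, q, hq, by nlinarith, hup, hq', hall q.1 (br_mem hq)⟩
  right
  refine ⟨p, hp, ⟨hlow, hup⟩, hall, ?_⟩
  by_contra hcon
  push Not at hcon
  obtain ⟨hc4, hc7, hc56⟩ := hcon
  apply hnot
  have hYz : Y ≤ vs p.1 := by
    have : (Y : ℝ) ≤ vs p.1 := by nlinarith
    exact_mod_cast this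
  have hθc : ((vs p.1 - Y : ℕ) : ℝ) = vs p.1 - Y := by rw [Nat.cast_sub hYz]
  have hszc : (p.2.size : ℝ) = m - vs p.1 := by
    have : ((vs p.1 + p.2.size : ℕ) : ℝ) = m := by exact_mod_cast hsize
    push_cast at this
    linarith
  have hhalf : vs p.1 / 2 ≤ vs p.1 - Y := by
    have h4 : ((2 * Y : ℕ) : ℝ) ≤ vs p.1 := by push_cast; nlinarith
    have h5 : 2 * Y ≤ vs p.1 := by exact_mod_cast h4
    omega
  refine ⟨p, hp, vs p.1 - Y, K, 2 * T, ?_, by omega, ?_, ?_, ?_, ?_, ?_, ?_⟩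
  · intro b hb
    obtain ⟨q, hq, rfl⟩ := exists_br_of_mem hb
    have h4 : (vs q.1 : ℝ) < (vs p.1 : ℝ) - δ' * m := not_le.1 fun h => h3 ⟨q, hq, h⟩
    have h5 : (vs q.1 : ℝ) ≤ ((vs p.1 - Y : ℕ) : ℝ) := by
      rw [hθc]; nlinarith
    exact_mod_cast h5
  · have h4 : (p.2.size : ℝ) ≤ ((2 * (vs p.1 - Y) : ℕ) : ℝ) := by
      push_cast
      rw [hθc, hszc]
      nlinarith
    exact_mod_cast h4
  · have h4 : (vs p.1 : ℝ) ≤ (p.2.size : ℝ) := by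
      rw [hszc]; nlinarith
    exact_mod_cast h4
  · intro ρ
    have hset : {x : ℕ | x ∈ Wset (vs p.1 - Y) p.1 ∧ ∃ b ∈ Bset 0 p.2, x + b = ρ} ⊆
        (((Wset (vs p.1 / 2) p.1 ∩ Ico (ρ - L) ρ) ∪
          (Wset (vs p.1 / 2) p.1 ∩ (Bset L p.2).image (fun b => ρ - b)) : Finset ℕ) : Set ℕ) := by
      rintro x ⟨hx, b, hb, hxb⟩
      rw [Finset.coe_union, Set.mem_union, Finset.mem_coe, Finset.mem_coe, Finset.mem_inter,
        Finset.mem_inter]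
      have hx' := Wset_mono hhalf hx
      rw [mem_Bset] at hb
      by_cases hbL : b ≤ L
      · left
        refine ⟨hx', Finset.mem_Ico.2 ⟨by omega, by omega⟩⟩
      · right
        refine ⟨hx', Finset.mem_image.2 ⟨b, mem_Bset.2 ⟨hb.1, by omega⟩, by omega⟩⟩
    have hcard : Nat.card {x : ℕ // x ∈ Wset (vs p.1 - Y) p.1 ∧ ∃ b ∈ Bset 0 p.2, x + b = ρ}
        ≤ (Wset (vs p.1 / 2) p.1 ∩ Ico (ρ - L) ρ).card
          + (Wset (vs p.1 / 2) p.1 ∩ (Bset L p.2).image (fun b => ρ - b)).card := by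
      have h4 := Nat.card_mono (Finset.finite_toSet _) hset
      have h5 : Nat.card {x : ℕ // x ∈ Wset (vs p.1 - Y) p.1 ∧ ∃ b ∈ Bset 0 p.2, x + b = ρ}
        = Nat.card {x : ℕ | x ∈ Wset (vs p.1 - Y) p.1 ∧ ∃ b ∈ Bset 0 p.2, x + b = ρ} := rfl
      rw [h5]
      refine h4.trans ?_
      rw [SetLike.coe_sort_coe, Nat.card_eq_fintype_card, Fintype.card_coe]
      exact Finset.card_union_le _ _
    by_cases hρ : ρ < 2 * m + 1
    · obtain ⟨h4, h5⟩ := hc56 ρ (Finset.mem_range.2 hρ)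
      have h6 : (Bset L p.2).card ≤ N := not_lt.1 hc7
      have h7 := h5 h6
      unfold Ev5 at h4 h7
      have h8 := not_le.1 h4
      have h9 := not_le.1 h7
      omega
    · -- no representations at all
      have h4 : {x : ℕ | x ∈ Wset (vs p.1 - Y) p.1 ∧ ∃ b ∈ Bset 0 p.2, x + b = ρ} = ∅ := by
        rw [Set.eq_empty_iff_forall_notMem]
        rintro x ⟨hx, b, hb, hxb⟩
        have h5 := Wset_le hx
        rw [mem_Bset] at hb
        obtain ⟨⟨y, hy, rfl⟩, -⟩ := hb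
        have h6 := fr_size_le hy
        omega
      have h5 : Nat.card {x : ℕ // x ∈ Wset (vs p.1 - Y) p.1 ∧ ∃ b ∈ Bset 0 p.2, x + b = ρ}
        = Nat.card {x : ℕ | x ∈ Wset (vs p.1 - Y) p.1 ∧ ∃ b ∈ Bset 0 p.2, x + b = ρ} := rfl
      rw [h5, h4]
      simp
  · have h4 : M < (Wset (vs p.1 - Y) p.1).card := not_le.1 hc4
    omega
  · have h4 : M < (Wset (vs p.1 - Y) p.1).card := not_le.1 hc4
    omega
  · have h6 : vs p.1 ≤ p.2.size := by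
      have h4 : (vs p.1 : ℝ) ≤ (p.2.size : ℝ) := by
        rw [hszc]; nlinarith
      exact_mod_cast h4
    have h7 : ((p.2.size + 1 - vs p.1 : ℕ) : ℝ) = m - vs p.1 + 1 - vs p.1 := by
      rw [Nat.cast_sub (by omega)]
      push_cast
      rw [hszc]
    have h8 : (vs p.1 : ℝ) ≤ ((K * (p.2.size + 1 - vs p.1) : ℕ) : ℝ) := by
      push_cast
      rw [h7]
      have h9 : 2 * δ * m ≤ m - vs p.1 + 1 - vs p.1 := by nlinarith
      have h10 : (0 : ℝ) ≤ K := by positivity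
      have h11 : (K : ℝ) * (2 * δ * m) ≤ K * (m - vs p.1 + 1 - vs p.1) :=
        mul_le_mul_of_nonneg_left h9 h10
      have h12 : (m : ℝ) / 2 ≤ K * (2 * δ * m) := by nlinarith
      nlinarith
    exact_mod_cast h8

end RT
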