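import Mathlib
import Pool.Agent.Lib_helper86.RT.Star

set_option autoImplicit false

/-!
Module MANY (sizes of big fringe subtrees do not cluster).

Fix z and S; WLOG (intersect) S ⊆ (z/2, z].  `Np S a` is the number of fringe subtrees in `fr a` with
size in S.  At most one branch contains such a subtree, so (Pascal)
`C(Np a, p+1) ≤ ∑_{x ∈ fr a, vs x ∈ S} C(Np x, p)`.  With `e_p(k) := ET k (C(Np, p))` the fringe formula
gives `e_{p+1}(k) ≤ ∑_{j<k, j ∈ S} υ_{k-j} e_p(j)`, hence `e_p(k) ≤ (2√|S|)^p max τ`; then Markov.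
-/

namespace RT

open Pool.MP_1af41f_co.CSF Finset

namespace ManyAux

/-- number of vertices of the forest whose fringe subtree has size in `S` -/
def Np (S : Finset ℕ) : Fr → ℕ
  | Fr.nil => 0
  | Fr.cons a b => (if vs a ∈ S then 1 else 0) + Np S a + Np S b

lemma Np_pos {S : Finset ℕ} {f : Fr} (h : 0 < Np S f) : ∃ k ∈ S, k ≤ f.size := by
  induction f with
  | nil => simp [Np] at h
  | cons a b iha ihb =>
    have hs : (Fr.cons a b).size = 1 + a.size + b.size := rfl
    by_cases h1 : vs a ∈ S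
    · exact ⟨vs a, h1, by rw [hs]; unfold vs; omega⟩
    · simp only [Np, h1, if_false, zero_add] at h
      rcases Nat.eq_zero_or_pos (Np S a) with h2 | h2
      · obtain ⟨k, hk, hk'⟩ := ihb (by omega)
        exact ⟨k, hk, by rw [hs]; omega⟩
      · obtain ⟨k, hk, hk'⟩ := iha h2
        exact ⟨k, hk, by rw [hs]; omega⟩

/-- the terms of the recursion -/
noncomputable def gt (S : Finset ℕ) (p : ℕ) (x : Fr) : ℝ :=
  if vs x ∈ S then ((Np S x).choose p : ℝ) else 0

lemma gt_nonneg (S : Finset ℕ) (p : ℕ) (x : Fr) : 0 ≤ gt S p x := by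
  unfold gt; split_ifs <;> positivity

lemma sum_gt_nonneg (S : Finset ℕ) (p : ℕ) (l : List Fr) : 0 ≤ (l.map (gt S p)).sum := by
  induction l with
  | nil => simp
  | cons a l ih => rw [List.map_cons, List.sum_cons]; exact add_nonneg (gt_nonneg S p a) ih

/-- Pascal -/
lemma choose_le {S : Finset ℕ} {z : ℕ} (hS : ∀ k ∈ S, z < 2 * k) (p : ℕ) (f : Fr)
    (hf : f.size < z) : ((Np S f).choose (p + 1) : ℝ) ≤ ((fr f).map (gt S p)).sum := by
  induction f with
  | nil => simp [Np, fr]
  | cons a b iha ihb =>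
    have hs : (Fr.cons a b).size = 1 + a.size + b.size := rfl
    have ha := iha (by omega)
    have hb := ihb (by omega)
    have hsum : ((fr (Fr.cons a b)).map (gt S p)).sum
        = gt S p a + (((fr a).map (gt S p)).sum + ((fr b).map (gt S p)).sum) := by
      simp [fr]
    have h1 := gt_nonneg S p a
    have h2 := sum_gt_nonneg S p (fr a)
    have h3 := sum_gt_nonneg S p (fr b)
    rw [hsum]
    rcases Nat.eq_zero_or_pos (Np S b) with h0 | h0
    · -- nothing in `b`
      by_cases hv : vs a ∈ S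
      · have e : Np S (Fr.cons a b) = Np S a + 1 := by
          simp only [Np, hv, if_true, h0]; omega
        rw [e, Nat.choose_succ_succ', Nat.cast_add]
        have h4 : gt S p a = ((Np S a).choose p : ℝ) := if_pos hv
        rw [h4]
        linarith
      · have e : Np S (Fr.cons a b) = Np S a := by
          simp only [Np, hv, if_false, h0]; omega
        rw [e]
        linarith
    · -- nothing in `a`
      obtain ⟨k, hk, hk'⟩ := Np_pos h0
      have hk2 := hS k hk
      have hv : vs a ∉ S := by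
        intro hv
        have := hS _ hv
        unfold vs at this
        omega
      have h5 : Np S a = 0 := by
        by_contra hne
        obtain ⟨l, hl, hl'⟩ := Np_pos (Nat.pos_of_ne_zero hne)
        have := hS l hl
        omega
      have e : Np S (Fr.cons a b) = Np S b := by
        simp only [Np, hv, if_false, h5]; omega
      rw [e]
      linarith

/-- `∑_{j ∈ S, j < k} υ (k - j) ≤ 2 √|S|` -/
lemma sum_υ_le (S : Finset ℕ) (k : ℕ) :
    ∑ j ∈ (Icc 1 (k - 1)).filter (· ∈ S), υ (k - j) ≤ 2 * √(S.card) := by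
  set A := (Icc 1 (k - 1)).filter (· ∈ S) with hA
  have hinj : Set.InjOn (fun j => k - j) (A : Set ℕ) := by
    intro i hi j hj hij
    simp only [hA, coe_filter, mem_Icc, Set.mem_ofPred_eq] at hi hj hij
    omega
  have h1 : ∑ j ∈ A, υ (k - j) ≤ ∑ j ∈ A, 1 / √((k - j : ℕ) : ℝ) := by
    refine sum_le_sum fun j hj => υ_le _ ?_
    simp only [hA, mem_filter, mem_Icc] at hj
    omega
  have h2 : ∑ j ∈ A, 1 / √((k - j : ℕ) : ℝ) = ∑ i ∈ A.image (fun j => k - j), 1 / √(i : ℝ) :=
    (sum_image (f := fun i : ℕ => 1 / √(i : ℝ)) hinj).symm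
  have h3 := sum_set_rsqrt_le (A.image (fun j => k - j)) (by
    intro i hi
    obtain ⟨j, hj, rfl⟩ := mem_image.1 hi
    simp only [hA, mem_filter, mem_Icc] at hj
    omega)
  have h4 : ((A.image (fun j => k - j)).card : ℝ) ≤ S.card := by
    have : (A.image (fun j => k - j)).card ≤ S.card :=
      card_image_le.trans (card_le_card fun x hx => (mem_filter.1 hx).2)
    exact_mod_cast this
  calc ∑ j ∈ A, υ (k - j) ≤ ∑ j ∈ A, 1 / √((k - j : ℕ) : ℝ) := h1
    _ = _ := h2
    _ ≤ 2 * √((A.image (fun j => k - j)).card) := h3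
    _ ≤ 2 * √(S.card) := by gcongr

lemma moment_le {S : Finset ℕ} {z : ℕ} (hz : 1 ≤ z) (hS : ∀ k ∈ S, z < 2 * k)
    (p : ℕ) : ∀ k, k ≤ z → z < 2 * k →
      ET k (fun a => ((Np S a).choose p : ℝ)) ≤ (2 * √(S.card)) ^ p * (3 / (z * √z)) := by
  have hzpos : (0 : ℝ) < z := by exact_mod_cast hz
  induction p with
  | zero =>
    intro k hk hk2
    simp only [Nat.choose_zero_right, Nat.cast_one, pow_zero, one_mul]
    rw [ET_one]
    have hk1 : 1 ≤ k := by omega
    refine (τ_le k hk1).trans ?_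
    have hkz : (z : ℝ) / 2 ≤ k := by
      have : (z : ℝ) ≤ 2 * k := by exact_mod_cast hk2.le
      linarith
    have h1 : (z : ℝ) / 2 * √((z : ℝ) / 2) ≤ k * √k := by gcongr
    have h2 : (z : ℝ) * √z / 3 ≤ (z : ℝ) / 2 * √((z : ℝ) / 2) := by
      have h3 : √(z : ℝ) * (2 / 3) ≤ √((z : ℝ) / 2) := by
        apply Real.le_sqrt_of_sq_le
        rw [mul_pow, Real.sq_sqrt hzpos.le]
        nlinarith
      nlinarith
    have h4 : 0 < (z : ℝ) * √z := by positivity
    rw [div_le_div_iff₀ (by positivity) h4]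
    nlinarith
  | succ p ih =>
    intro k hk hk2
    have h1 : ET k (fun a => ((Np S a).choose (p + 1) : ℝ))
        ≤ ET k (fun a => ((fr a).map (gt S p)).sum) :=
      ET_mono fun a ha => choose_le hS p a (by unfold vs at ha; omega)
    refine h1.trans ?_
    rw [fringe_formula]
    have h2 : ∀ j, ET j (gt S p) = if j ∈ S then ET j (fun a => ((Np S a).choose p : ℝ)) else 0 := by
      intro j
      by_cases hj : j ∈ S
      · rw [if_pos hj]
        exact ET_congr fun a ha => by rw [gt, ha, if_pos hj]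
      · rw [if_neg hj, ET_congr (Ψ := fun _ => 0 * 1) fun a ha => by rw [gt, ha, if_neg hj]; simp,
          ET_mul_left, zero_mul]
    have h3 : ∑ j ∈ Icc 1 (k - 1), υ (k - j) * ET j (gt S p)
        = ∑ j ∈ (Icc 1 (k - 1)).filter (· ∈ S),
          υ (k - j) * ET j (fun a => ((Np S a).choose p : ℝ)) := by
      rw [sum_filter]
      refine sum_congr rfl fun j _ => ?_
      rw [h2]
      split_ifs <;> simp
    rw [h3]
    calc ∑ j ∈ (Icc 1 (k - 1)).filter (· ∈ S),
          υ (k - j) * ET j (fun a => ((Np S a).choose p : ℝ))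
        ≤ ∑ j ∈ (Icc 1 (k - 1)).filter (· ∈ S),
          υ (k - j) * ((2 * √(S.card)) ^ p * (3 / (z * √z))) := by
          refine sum_le_sum fun j hj => mul_le_mul_of_nonneg_left (ih j ?_ ?_) (υ_nonneg _)
          · simp only [mem_filter, mem_Icc] at hj; omega
          · exact hS j (mem_filter.1 hj).2
      _ = (∑ j ∈ (Icc 1 (k - 1)).filter (· ∈ S), υ (k - j))
          * ((2 * √(S.card)) ^ p * (3 / (z * √z))) := by rw [sum_mul]
      _ ≤ (2 * √(S.card)) * ((2 * √(S.card)) ^ p * (3 / (z * √z))) := by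
          refine mul_le_mul_of_nonneg_right (sum_υ_le S k) (by positivity)
      _ = _ := by rw [pow_succ]; ring

lemma card_le (S : Finset ℕ) (y : ℕ) (a : Fr) :
    ((Wset y a) ∩ S).card ≤ (if vs a ∈ S.filter (y < ·) then 1 else 0)
      + Np (S.filter (y < ·)) a := by
  set S' := S.filter (y < ·) with hS'
  have h1 : ∀ f : Fr, ((fr f).map vs).countP (· ∈ S') = Np S' f := by
    intro f
    induction f with
    | nil => simp [fr, Np]
    | cons a b iha ihb =>
      rw [fr, List.map_cons, List.map_append, List.countP_cons, List.countP_append, iha, ihb, Np]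
      simp only [decide_eq_true_eq]
      ring
  have h2 : (Wset y a) ∩ S = (((a :: fr a).map vs).filter (· ∈ S')).toFinset := by
    ext k
    simp only [Wset, hS', mem_inter, mem_filter, List.mem_toFinset, List.mem_filter,
      decide_eq_true_eq]
    tauto
  rw [h2]
  refine (List.toFinset_card_le _).trans ?_
  rw [← List.countP_eq_length_filter, List.map_cons, List.countP_cons, h1]
  simp only [decide_eq_true_eq]
  omega

end ManyAux

open ManyAux

theorem many (p : ℕ) : ∃ C : ℝ, 0 < C ∧ ∀ (z : ℕ) (S : Finset ℕ) (T : ℕ), 1 ≤ z → 1 ≤ T →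
    1 ≤ S.card → ET z (fun a => ind (T ≤ ((Wset (z / 2) a) ∩ S).card))
      ≤ C / (z * √z) * (√(S.card) / T) ^ p := by
  refine ⟨(p.factorial : ℝ) * 4 ^ p * 6 + (2 * p : ℝ) ^ p + 1, by positivity, ?_⟩
  intro z S T hz hT hS
  have hz' : (0 : ℝ) < z := by exact_mod_cast hz
  have hT' : (1 : ℝ) ≤ T := by exact_mod_cast hT
  have hT0 : (0 : ℝ) < T := by linarith
  have hS1 : (1 : ℝ) ≤ √(S.card) := by
    rw [Real.one_le_sqrt]
    exact_mod_cast hS
  have hzz : (0 : ℝ) < z * √z := by positivity
  rcases lt_or_ge T (2 * p) with hlt | hge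
  · -- trivial bound
    have h1 : ET z (fun a => ind (T ≤ ((Wset (z / 2) a) ∩ S).card)) ≤ 1 / (z * √z) :=
      (ET_mono fun a _ => ind_le_one _).trans ((ET_one z).le.trans (τ_le z hz))
    refine h1.trans ?_
    have hp : (0 : ℝ) < 2 * p := by
      have : 0 < 2 * p := by omega
      exact_mod_cast this
    have h2 : 1 ≤ (2 * p : ℝ) ^ p * (√(S.card) / T) ^ p := by
      rw [← mul_pow]
      refine one_le_pow₀ ?_
      rw [mul_div_assoc', le_div_iff₀ hT0]
      have h3 : (T : ℝ) ≤ 2 * p := by exact_mod_cast hlt.le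
      nlinarith
    have h3 : (0 : ℝ) ≤ (√(S.card) / T) ^ p := by positivity
    have h4 : 1 ≤ ((p.factorial : ℝ) * 4 ^ p * 6 + (2 * p : ℝ) ^ p + 1) * (√(S.card) / T) ^ p := by
      have h5 : (0 : ℝ) ≤ ((p.factorial : ℝ) * 4 ^ p * 6 + 1) * (√(S.card) / T) ^ p := by positivity
      nlinarith
    calc 1 / (z * √z) ≤ (((p.factorial : ℝ) * 4 ^ p * 6 + (2 * p : ℝ) ^ p + 1)
          * (√(S.card) / T) ^ p) / (z * √z) := by gcongr
      _ = _ := by ring
  · set S' := S.filter (z / 2 < ·) with hS'
    have hSk : ∀ k ∈ S', z < 2 * k := by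
      intro k hk
      have := (mem_filter.1 hk).2
      omega
    have hcard : (S'.card : ℝ) ≤ S.card := by
      exact_mod_cast Finset.card_le_card (filter_subset _ _)
    -- lower bound for the binomial coefficient
    have hch : ((T : ℝ) / 2) ^ p / p.factorial ≤ (T.choose p : ℝ) := by
      refine le_trans ?_ (Nat.pow_le_choose p T)
      have h1 : (T : ℝ) / 2 ≤ ((T + 1 - p : ℕ) : ℝ) := by
        have h2 : T ≤ 2 * (T + 1 - p) := by omega
        have h3 : (T : ℝ) ≤ 2 * ((T + 1 - p : ℕ) : ℝ) := by exact_mod_cast h2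
        linarith
      have h4 : ((T : ℝ) / 2) ^ p ≤ ((T + 1 - p : ℕ) : ℝ) ^ p := by gcongr
      exact div_le_div_of_nonneg_right h4 (by positivity)
    have hchpos : 0 < (T.choose p : ℝ) := lt_of_lt_of_le (by positivity) hch
    -- Pascal once more
    have hpas : ∀ n : ℕ, ((n + 1).choose p : ℝ) ≤ (n.choose p : ℝ) + (n.choose (p - 1) : ℝ) := by
      intro n
      rcases p with _ | p
      · simp
      · rw [Nat.choose_succ_succ', Nat.add_sub_cancel, Nat.cast_add]
        linarith
    have hpt : ∀ a : Fr, ind (T ≤ ((Wset (z / 2) a) ∩ S).card) * (T.choose p : ℝ)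
        ≤ ((Np S' a).choose p : ℝ) + ((Np S' a).choose (p - 1) : ℝ) := by
      intro a
      have hnn : (0 : ℝ) ≤ ((Np S' a).choose p : ℝ) + ((Np S' a).choose (p - 1) : ℝ) := by
        positivity
      by_cases h : T ≤ ((Wset (z / 2) a) ∩ S).card
      · rw [ind_of h, one_mul]
        have h1 := h.trans (card_le S (z / 2) a)
        rw [← hS'] at h1
        have h2 : T ≤ Np S' a + 1 := by
          refine h1.trans ?_
          split_ifs <;> omega
        have h3 : (T.choose p : ℝ) ≤ ((Np S' a + 1).choose p : ℝ) := by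
          exact_mod_cast Nat.choose_le_choose p h2
        exact h3.trans (hpas _)
      · rw [ind_of_not h, zero_mul]
        exact hnn
    have hzle : z < 2 * z := by omega
    have hm : ∀ q, ET z (fun a => ((Np S' a).choose q : ℝ)) ≤ (2 * √(S.card)) ^ q * (3 / (z * √z)) := by
      intro q
      refine (moment_le hz hSk q z le_rfl hzle).trans ?_
      have : √(S'.card : ℝ) ≤ √(S.card) := Real.sqrt_le_sqrt hcard
      gcongr
    have h1 : ET z (fun a => ind (T ≤ ((Wset (z / 2) a) ∩ S).card)) * (T.choose p : ℝ)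
        ≤ 2 * ((2 * √(S.card)) ^ p * (3 / (z * √z))) := by
      calc ET z (fun a => ind (T ≤ ((Wset (z / 2) a) ∩ S).card)) * (T.choose p : ℝ)
          = ET z (fun a => (T.choose p : ℝ) * ind (T ≤ ((Wset (z / 2) a) ∩ S).card)) := by
            rw [ET_mul_left, mul_comm]
        _ ≤ ET z (fun a => ((Np S' a).choose p : ℝ) + ((Np S' a).choose (p - 1) : ℝ)) :=
            ET_mono fun a _ => by rw [mul_comm]; exact hpt a
        _ = ET z (fun a => ((Np S' a).choose p : ℝ)) + ET z (fun a => ((Np S' a).choose (p - 1) : ℝ)) :=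
            ET_add _ _ _
        _ ≤ (2 * √(S.card)) ^ p * (3 / (z * √z)) + (2 * √(S.card)) ^ (p - 1) * (3 / (z * √z)) :=
            add_le_add (hm p) (hm (p - 1))
        _ ≤ (2 * √(S.card)) ^ p * (3 / (z * √z)) + (2 * √(S.card)) ^ p * (3 / (z * √z)) := by
            have : (2 * √(S.card)) ^ (p - 1) ≤ (2 * √(S.card)) ^ p :=
              pow_le_pow_right₀ (by linarith) (Nat.sub_le p 1)
            gcongr
        _ = _ := by ring
    have h2 : ET z (fun a => ind (T ≤ ((Wset (z / 2) a) ∩ S).card))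
        ≤ 2 * ((2 * √(S.card)) ^ p * (3 / (z * √z))) / (((T : ℝ) / 2) ^ p / p.factorial) := by
      rw [le_div_iff₀ (by positivity)]
      refine le_trans ?_ h1
      refine mul_le_mul_of_nonneg_left hch (ET_nonneg fun _ => ind_nonneg _)
    refine h2.trans ?_
    have h3 : 2 * ((2 * √(S.card)) ^ p * (3 / (z * √z))) / (((T : ℝ) / 2) ^ p / p.factorial)
        = ((p.factorial : ℝ) * 4 ^ p * 6) / (z * √z) * (√(S.card) / T) ^ p := by
      rw [show (4 : ℝ) = 2 * 2 by norm_num]
      simp only [div_pow, mul_pow]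
      field_simp
      ring
    rw [h3]
    have h4 : (p.factorial : ℝ) * 4 ^ p * 6 ≤ (p.factorial : ℝ) * 4 ^ p * 6 + (2 * p : ℝ) ^ p + 1 := by
      have : (0 : ℝ) ≤ (2 * p : ℝ) ^ p := by positivity
      linarith
    gcongr

end RT
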