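import Mathlib
import Pool.Agent.Lib_helper86.RT.Defs
import Pool.Agent.Lib_helper17.CSF.Rep

set_option autoImplicit false

/-!
Module LABELLED.  Sum over labelled rooted trees = (n+1)! e^n times the weighted sum over forests.
-/

namespace RT

open Pool.MP_1af41f_co.CSF Finset

namespace Lab

open SimpleGraph

lemma reach_weak {V W : Type} {G : SimpleGraph V} {H : SimpleGraph W} (f : V → W)
    (hf : ∀ a b, G.Adj a b → f a = f b ∨ H.Adj (f a) (f b)) {a b : V} (h : G.Reachable a b) :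
    H.Reachable (f a) (f b) := by
  obtain ⟨p⟩ := h
  induction p with
  | nil => exact Reachable.refl _
  | cons hadj _ ih =>
    rcases hf _ _ hadj with h | h
    · rw [h]; exact ih
    · exact h.reachable.trans ih

lemma reach_inv {V : Type} {G : SimpleGraph V} (P : V → Prop)
    (hf : ∀ a b, G.Adj a b → (P a ↔ P b)) {a b : V} (h : G.Reachable a b) : P a ↔ P b := by
  obtain ⟨p⟩ := h
  induction p with
  | nil => exact Iff.rfl
  | cons hadj _ ih => exact (hf _ _ hadj).trans ih

/-- the join of two trees is a tree -/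
lemma join_isTree {V₁ V₂ : Type} {G₁ : SimpleGraph V₁} {r₁ : V₁} {G₂ : SimpleGraph V₂} {r₂ : V₂}
    (h₁ : G₁.IsTree) (h₂ : G₂.IsTree) : (join G₁ r₁ G₂ r₂).IsTree := by
  have hl : ∀ x y, (join G₁ r₁ G₂ r₂).Reachable (Sum.inl x) (Sum.inl y) := fun x y =>
    reach_weak (H := join G₁ r₁ G₂ r₂) (Sum.inl) (fun a b h => Or.inr h) (h₁.connected x y)
  have hr : ∀ x y, (join G₁ r₁ G₂ r₂).Reachable (Sum.inr x) (Sum.inr y) := fun x y =>
    reach_weak (H := join G₁ r₁ G₂ r₂) (Sum.inr) (fun a b h => Or.inr h) (h₂.connected x y)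
  have hm : (join G₁ r₁ G₂ r₂).Reachable (Sum.inl r₁) (Sum.inr r₂) :=
    Adj.reachable (show (join G₁ r₁ G₂ r₂).Adj (Sum.inl r₁) (Sum.inr r₂) from ⟨rfl, rfl⟩)
  have hconn : ∀ x y, (join G₁ r₁ G₂ r₂).Reachable x y := by
    rintro (x | x) (y | y)
    · exact hl x y
    · exact ((hl x r₁).trans hm).trans (hr r₂ y)
    · exact ((hr x r₂).trans hm.symm).trans (hl r₁ y)
    · exact hr x y
  refine ⟨(connected_iff _).2 ⟨hconn, ⟨Sum.inl r₁⟩⟩, ?_⟩
  rw [isAcyclic_iff_forall_adj_isBridge]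
  have b₁ := isAcyclic_iff_forall_adj_isBridge.1 h₁.isAcyclic
  have b₂ := isAcyclic_iff_forall_adj_isBridge.1 h₂.isAcyclic
  rintro (x | x) (y | y) h
  · rw [isBridge_iff]
    have h' : G₁.Adj x y := h
    have hb := isBridge_iff.1 (b₁ h')
    intro hre
    apply hb
    have := reach_weak (G := (join G₁ r₁ G₂ r₂).deleteEdges {s(Sum.inl x, Sum.inl y)})
      (H := G₁.deleteEdges {s(x, y)}) (Sum.elim id (fun _ => r₁)) ?_ hre
    · exact this
    · rintro (a | a) (b | b) hab
      · right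
        rw [deleteEdges_adj] at hab ⊢
        refine ⟨hab.1, ?_⟩
        intro hs
        apply hab.2
        rw [Set.mem_singleton_iff, Sym2.eq_iff] at hs ⊢
        rcases hs with ⟨h1, h2⟩ | ⟨h1, h2⟩
        · left; exact ⟨congrArg Sum.inl h1, congrArg Sum.inl h2⟩
        · right; exact ⟨congrArg Sum.inl h1, congrArg Sum.inl h2⟩
      · left
        rw [deleteEdges_adj] at hab
        exact hab.1.1
      · left
        rw [deleteEdges_adj] at hab
        exact hab.1.2.symm
      · left; rfl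
  · obtain ⟨rfl, rfl⟩ := h
    rw [isBridge_iff]
    intro hre
    have := reach_inv (fun z : V₁ ⊕ V₂ => z.isLeft = true) ?_ hre
    · simp at this
    · rintro (a | a) (b | b) hab
      · simp
      · exfalso
        rw [deleteEdges_adj] at hab
        obtain ⟨⟨rfl, rfl⟩, h2⟩ := hab
        exact h2 rfl
      · exfalso
        rw [deleteEdges_adj] at hab
        obtain ⟨⟨rfl, rfl⟩, h2⟩ := hab
        exact h2 (Sym2.eq_swap)
      · simp
  · obtain ⟨rfl, rfl⟩ := h
    rw [isBridge_iff]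
    intro hre
    have := reach_inv (fun z : V₁ ⊕ V₂ => z.isLeft = true) ?_ hre
    · simp at this
    · rintro (a | a) (b | b) hab
      · simp
      · exfalso
        rw [deleteEdges_adj] at hab
        obtain ⟨⟨rfl, rfl⟩, h2⟩ := hab
        exact h2 (Sym2.eq_swap)
      · exfalso
        rw [deleteEdges_adj] at hab
        obtain ⟨⟨rfl, rfl⟩, h2⟩ := hab
        exact h2 rfl
      · simp
  · rw [isBridge_iff]
    have h' : G₂.Adj x y := h
    have hb := isBridge_iff.1 (b₂ h')
    intro hre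
    apply hb
    have := reach_weak (G := (join G₁ r₁ G₂ r₂).deleteEdges {s(Sum.inr x, Sum.inr y)})
      (H := G₂.deleteEdges {s(x, y)}) (Sum.elim (fun _ => r₂) id) ?_ hre
    · exact this
    · rintro (a | a) (b | b) hab
      · left; rfl
      · left
        rw [deleteEdges_adj] at hab
        exact hab.1.2.symm
      · left
        rw [deleteEdges_adj] at hab
        exact hab.1.1
      · right
        rw [deleteEdges_adj] at hab ⊢
        refine ⟨hab.1, ?_⟩
        intro hs
        apply hab.2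
        rw [Set.mem_singleton_iff, Sym2.eq_iff] at hs ⊢
        rcases hs with ⟨h1, h2⟩ | ⟨h1, h2⟩
        · left; exact ⟨congrArg Sum.inr h1, congrArg Sum.inr h2⟩
        · right; exact ⟨congrArg Sum.inr h1, congrArg Sum.inr h2⟩

/-- rooted trees on `V` -/
abbrev RTr (V : Type) := {p : SimpleGraph V × V // p.1.IsTree}

noncomputable instance instF (V : Type) [Finite V] : Fintype (RTr V) := Fintype.ofFinite _

lemma exists_rep' {V : Type} [Finite V] (p : RTr V) :
    ∃ (f : Fr), ∃ e : p.1.1 ≃g Fr.G f, e p.1.2 = Fr.ρ f := by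
  obtain ⟨f, e, h⟩ := exists_rep _ V p.1.1 p.2 p.1.2 rfl
  exact ⟨f, e, h⟩

noncomputable def rep {V : Type} [Finite V] (p : RTr V) : Fr := (exists_rep' p).choose

lemma rep_spec {V : Type} [Finite V] (p : RTr V) :
    ∃ e : p.1.1 ≃g Fr.G (rep p), e p.1.2 = Fr.ρ (rep p) := (exists_rep' p).choose_spec

lemma rep_equ {V : Type} [Finite V] (p : RTr V) (f : Fr) (e : p.1.1 ≃g Fr.G f)
    (he : e p.1.2 = Fr.ρ f) : Fr.Equ (rep p) f := by
  obtain ⟨e', he'⟩ := rep_spec p
  exact ⟨e'.symm.trans e, by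
    show e (e'.symm (Fr.ρ (rep p))) = _
    rw [← he', e'.symm_apply_apply, he]⟩

lemma rep_size {V : Type} [Finite V] (p : RTr V) : 1 + (rep p).size = Nat.card V := by
  obtain ⟨e', he'⟩ := rep_spec p
  rw [← Fr.card_W, ← Nat.card_eq_fintype_card]
  exact (Nat.card_congr e'.toEquiv).symm

lemma card_nbr (f : Fr) : Nat.card {x : Fr.W f // (Fr.G f).Adj (Fr.ρ f) x} = deg f := by
  induction f with
  | nil =>
    have : IsEmpty {x : Fr.W Fr.nil // (Fr.G Fr.nil).Adj (Fr.ρ Fr.nil) x} := ⟨fun x => x.2⟩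
    rw [Nat.card_of_isEmpty]
    rfl
  | cons a b _ ihb =>
    have e : {x : Fr.W (Fr.cons a b) // (Fr.G (Fr.cons a b)).Adj (Fr.ρ (Fr.cons a b)) x} ≃
        {x : Fr.W a // (Fr.G (Fr.cons a b)).Adj (Fr.ρ (Fr.cons a b)) (Sum.inl x)} ⊕
        {x : Fr.W b // (Fr.G (Fr.cons a b)).Adj (Fr.ρ (Fr.cons a b)) (Sum.inr x)} :=
      Equiv.subtypeSum (α := Fr.W a) (β := Fr.W b)
        (p := fun x => (Fr.G (Fr.cons a b)).Adj (Fr.ρ (Fr.cons a b)) x)
    have h1 : Nat.card {x : Fr.W a // (Fr.G (Fr.cons a b)).Adj (Fr.ρ (Fr.cons a b)) (Sum.inl x)}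
        = 1 := by
      rw [Nat.card_eq_one_iff_unique]
      refine ⟨⟨?_⟩, ⟨⟨Fr.ρ a, ?_⟩⟩⟩
      · rintro ⟨x, hx⟩ ⟨y, hy⟩
        have hx' : x = Fr.ρ a := hx.2
        have hy' : y = Fr.ρ a := hy.2
        subst hx'
        subst hy'
        rfl
      · exact ⟨rfl, rfl⟩
    rw [Nat.card_congr e, Nat.card_sum, h1]
    show 1 + Nat.card {x : Fr.W b // (Fr.G b).Adj (Fr.ρ b) x} = _
    rw [ihb]
    rfl

lemma deg_equ {f g : Fr} (h : Fr.Equ f g) : deg f = deg g := by
  obtain ⟨e, he⟩ := h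
  rw [← card_nbr, ← card_nbr]
  exact Nat.card_congr (e.toEquiv.subtypeEquiv (fun d => by
    rw [← he]; exact e.map_adj_iff.symm))

lemma deg_rep {V : Type} [Finite V] (p : RTr V) :
    Nat.card {d : V // p.1.1.Adj p.1.2 d} = deg (rep p) := by
  obtain ⟨e, he⟩ := rep_spec p
  rw [← card_nbr]
  exact Nat.card_congr (e.toEquiv.subtypeEquiv (fun d => by
    rw [← he]; exact e.map_adj_iff.symm))

lemma tree_comap {V : Type} (T' : SimpleGraph V) (hac : T'.IsAcyclic) (P : V → Prop) (d : V)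
    (hP : ∀ v, P v ↔ T'.Reachable v d) :
    (T'.comap (Subtype.val : {v // P v} → V)).IsTree := by
  have h := hac.isTree_connectedComponent (T'.connectedComponentMk d)
  let e : T'.comap (Subtype.val : {v // P v} → V) ≃g
      (T'.connectedComponentMk d).toSimpleGraph :=
    { toEquiv := Equiv.subtypeEquivRight (fun v => by
        rw [hP]
        exact ConnectedComponent.eq.symm)
      map_rel_iff' := by
        rintro ⟨x, hx⟩ ⟨y, hy⟩
        rw [ConnectedComponent.toSimpleGraph_adj]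
        rfl }
  exact e.isTree_iff.2 h

/-! ### gluing -/

section glue

open Classical

variable {V : Type}

/-- the graph on `V` obtained from rooted graphs on `A` and on its complement -/
noncomputable def J (A : Finset V) (Ta : SimpleGraph {x // x ∈ A}) (d : {x // x ∈ A})
    (Tb : SimpleGraph {x // ¬ x ∈ A}) (c : {x // ¬ x ∈ A}) : SimpleGraph V :=
  (join Ta d Tb c).comap (Equiv.sumCompl (fun x => x ∈ A)).symm

noncomputable def JIso (A : Finset V) (Ta : SimpleGraph {x // x ∈ A}) (d : {x // x ∈ A})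
    (Tb : SimpleGraph {x // ¬ x ∈ A}) (c : {x // ¬ x ∈ A}) :
    J A Ta d Tb c ≃g join Ta d Tb c :=
  Iso.comap (Equiv.sumCompl (fun x => x ∈ A)).symm (join Ta d Tb c)

lemma JIso_neg (A : Finset V) (Ta : SimpleGraph {x // x ∈ A}) (d : {x // x ∈ A})
    (Tb : SimpleGraph {x // ¬ x ∈ A}) (c : {x // ¬ x ∈ A}) (x : {x // ¬ x ∈ A}) :
    JIso A Ta d Tb c x = Sum.inr x := by
  show (Equiv.sumCompl (fun x => x ∈ A)).symm (x : V) = Sum.inr x
  exact Equiv.sumCompl_symm_apply_of_neg x.2

lemma J_adj_iff (A : Finset V) (Ta : SimpleGraph {x // x ∈ A}) (d : {x // x ∈ A})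
    (Tb : SimpleGraph {x // ¬ x ∈ A}) (c : {x // ¬ x ∈ A}) (x y : V) :
    (J A Ta d Tb c).Adj x y ↔ (join Ta d Tb c).Adj
      ((Equiv.sumCompl (fun x => x ∈ A)).symm x) ((Equiv.sumCompl (fun x => x ∈ A)).symm y) :=
  Iff.rfl

lemma J_pp (A : Finset V) (Ta : SimpleGraph {x // x ∈ A}) (d : {x // x ∈ A})
    (Tb : SimpleGraph {x // ¬ x ∈ A}) (c : {x // ¬ x ∈ A}) {x y : V} (hx : x ∈ A) (hy : y ∈ A) :
    (J A Ta d Tb c).Adj x y ↔ Ta.Adj ⟨x, hx⟩ ⟨y, hy⟩ := by
  rw [J_adj_iff, Equiv.sumCompl_symm_apply_of_pos hx, Equiv.sumCompl_symm_apply_of_pos hy]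
  rfl

lemma J_nn (A : Finset V) (Ta : SimpleGraph {x // x ∈ A}) (d : {x // x ∈ A})
    (Tb : SimpleGraph {x // ¬ x ∈ A}) (c : {x // ¬ x ∈ A}) {x y : V} (hx : x ∉ A) (hy : y ∉ A) :
    (J A Ta d Tb c).Adj x y ↔ Tb.Adj ⟨x, hx⟩ ⟨y, hy⟩ := by
  rw [J_adj_iff, Equiv.sumCompl_symm_apply_of_neg hx, Equiv.sumCompl_symm_apply_of_neg hy]
  rfl

lemma J_pn (A : Finset V) (Ta : SimpleGraph {x // x ∈ A}) (d : {x // x ∈ A})
    (Tb : SimpleGraph {x // ¬ x ∈ A}) (c : {x // ¬ x ∈ A}) {x y : V} (hx : x ∈ A) (hy : y ∉ A) :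
    (J A Ta d Tb c).Adj x y ↔ x = d ∧ y = c := by
  rw [J_adj_iff, Equiv.sumCompl_symm_apply_of_pos hx, Equiv.sumCompl_symm_apply_of_neg hy,
    join_inl_inr, Subtype.ext_iff, Subtype.ext_iff]

lemma J_np (A : Finset V) (Ta : SimpleGraph {x // x ∈ A}) (d : {x // x ∈ A})
    (Tb : SimpleGraph {x // ¬ x ∈ A}) (c : {x // ¬ x ∈ A}) {x y : V} (hx : x ∉ A) (hy : y ∈ A) :
    (J A Ta d Tb c).Adj x y ↔ x = c ∧ y = d := by
  rw [J_adj_iff, Equiv.sumCompl_symm_apply_of_neg hx, Equiv.sumCompl_symm_apply_of_pos hy,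
    join_inr_inl, Subtype.ext_iff, Subtype.ext_iff]

/-- the side of `d` after deleting the edge `cd` -/
noncomputable def comp [Fintype V] (T : SimpleGraph V) (c d : V) : Finset V :=
  Finset.univ.filter (fun v => (T.deleteEdges {s(c, d)}).Reachable v d)

lemma mem_comp [Fintype V] {T : SimpleGraph V} {c d v : V} :
    v ∈ comp T c d ↔ (T.deleteEdges {s(c, d)}).Reachable v d := by
  simp [comp]

lemma comp_J [Fintype V] (A : Finset V) (Ta : SimpleGraph {x // x ∈ A}) (d : {x // x ∈ A})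
    (Tb : SimpleGraph {x // ¬ x ∈ A}) (c : {x // ¬ x ∈ A}) (hTa : Ta.IsTree) :
    comp (J A Ta d Tb c) c d = A := by
  ext v
  rw [mem_comp]
  constructor
  · intro h
    refine (reach_inv (fun v => v ∈ A) ?_ h).2 d.2
    intro a b hab
    rw [deleteEdges_adj] at hab
    by_cases ha : a ∈ A <;> by_cases hb : b ∈ A
    · simp [ha, hb]
    · exfalso
      rw [J_pn _ _ _ _ _ ha hb] at hab
      obtain ⟨⟨rfl, rfl⟩, h2⟩ := hab
      exact h2 Sym2.eq_swap
    · exfalso
      rw [J_np _ _ _ _ _ ha hb] at hab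
      obtain ⟨⟨rfl, rfl⟩, h2⟩ := hab
      exact h2 rfl
    · simp [ha, hb]
  · intro hv
    have := reach_weak (G := Ta) (H := (J A Ta d Tb c).deleteEdges {s((c : V), (d : V))})
      Subtype.val ?_ (hTa.connected ⟨v, hv⟩ d)
    · exact this
    · rintro ⟨x, hx⟩ ⟨y, hy⟩ hxy
      right
      rw [deleteEdges_adj, J_pp _ _ _ _ _ hx hy]
      refine ⟨hxy, ?_⟩
      intro hs
      rw [Set.mem_singleton_iff, Sym2.eq_iff] at hs
      rcases hs with ⟨h1, -⟩ | ⟨-, h1⟩
      · apply c.2; rw [← h1]; exact hx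
      · apply c.2; rw [← h1]; exact hy

/-- the decomposition of a tree along an edge -/
lemma decomp [Fintype V] {T : SimpleGraph V} {c d : V} (hT : T.IsTree) (hcd : T.Adj c d)
    (A : Finset V) (hA : comp T c d = A) :
    ∃ (Ta : SimpleGraph {x // x ∈ A}) (d' : {x // x ∈ A}) (Tb : SimpleGraph {x // ¬ x ∈ A})
      (c' : {x // ¬ x ∈ A}), Ta.IsTree ∧ Tb.IsTree ∧ (d' : V) = d ∧ (c' : V) = c ∧
      J A Ta d' Tb c' = T := by
  have hb : ¬ (T.deleteEdges {s(c, d)}).Reachable c d :=
    isBridge_iff.1 ((isAcyclic_iff_forall_adj_isBridge.1 hT.isAcyclic) hcd)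
  have hac : (T.deleteEdges {s(c, d)}).IsAcyclic := hT.isAcyclic.anti (deleteEdges_le _)
  have hmem : ∀ v, v ∈ A ↔ (T.deleteEdges {s(c, d)}).Reachable v d := by
    intro v
    rw [← hA, mem_comp]
  have hreach : ∀ v, (T.deleteEdges {s(c, d)}).Reachable v c ∨
      (T.deleteEdges {s(c, d)}).Reachable v d := by
    intro v
    have hv : Relation.ReflTransGen T.Adj v c :=
      (T.reachable_iff_reflTransGen v c).1 (hT.connected v c)
    induction hv using Relation.ReflTransGen.head_induction_on with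
    | refl => exact Or.inl (Reachable.refl _)
    | @head v w hadj _ ih =>
      by_cases he : s(v, w) = s(c, d)
      · rw [Sym2.eq_iff] at he
        rcases he with ⟨rfl, rfl⟩ | ⟨rfl, rfl⟩
        · exact Or.inl (Reachable.refl _)
        · exact Or.inr (Reachable.refl _)
      · have h1 : (T.deleteEdges {s(c, d)}).Adj v w := by
          rw [deleteEdges_adj]
          exact ⟨hadj, by simpa using he⟩
        rcases ih with ih | ih
        · exact Or.inl (h1.reachable.trans ih)
        · exact Or.inr (h1.reachable.trans ih)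
  have hnmem : ∀ v, ¬ v ∈ A ↔ (T.deleteEdges {s(c, d)}).Reachable v c := by
    intro v
    rw [hmem]
    constructor
    · intro h
      exact (hreach v).resolve_right h
    · intro h h'
      exact hb (h.symm.trans h')
  have hdA : d ∈ A := (hmem d).2 (Reachable.refl _)
  have hcA : c ∉ A := (hnmem c).2 (Reachable.refl _)
  refine ⟨(T.deleteEdges {s(c, d)}).comap Subtype.val, ⟨d, hdA⟩,
    (T.deleteEdges {s(c, d)}).comap Subtype.val, ⟨c, hcA⟩,
    tree_comap _ hac _ d hmem, tree_comap _ hac _ c hnmem, rfl, rfl, ?_⟩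
  have hcross : ∀ x y, x ∈ A → y ∉ A → (T.Adj x y ↔ x = d ∧ y = c) := by
    intro x y hx hy
    constructor
    · intro h
      by_cases he : s(x, y) = s(c, d)
      · rw [Sym2.eq_iff] at he
        rcases he with ⟨rfl, rfl⟩ | ⟨rfl, rfl⟩
        · exact (hcA hx).elim
        · exact ⟨rfl, rfl⟩
      · exfalso
        have h1 : (T.deleteEdges {s(c, d)}).Adj y x := by
          rw [deleteEdges_adj]
          exact ⟨h.symm, by rw [Set.mem_singleton_iff, Sym2.eq_swap]; exact he⟩
        exact hy ((hmem y).2 (h1.reachable.trans ((hmem x).1 hx)))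
    · rintro ⟨rfl, rfl⟩
      exact hcd.symm
  ext x y
  by_cases hx : x ∈ A <;> by_cases hy : y ∈ A
  · rw [J_pp _ _ _ _ _ hx hy]
    show (T.deleteEdges {s(c, d)}).Adj x y ↔ _
    rw [deleteEdges_adj]
    refine ⟨fun h => h.1, fun h => ⟨h, ?_⟩⟩
    intro hs
    rw [Set.mem_singleton_iff, Sym2.eq_iff] at hs
    rcases hs with ⟨rfl, rfl⟩ | ⟨rfl, rfl⟩
    · exact hcA hx
    · exact hcA hy
  · rw [J_pn _ _ _ _ _ hx hy, hcross x y hx hy]
  · rw [J_np _ _ _ _ _ hx hy, T.adj_comm, hcross y x hy hx, and_comm]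
  · rw [J_nn _ _ _ _ _ hx hy]
    show (T.deleteEdges {s(c, d)}).Adj x y ↔ _
    rw [deleteEdges_adj]
    refine ⟨fun h => h.1, fun h => ⟨h, ?_⟩⟩
    intro hs
    rw [Set.mem_singleton_iff, Sym2.eq_iff] at hs
    rcases hs with ⟨rfl, rfl⟩ | ⟨rfl, rfl⟩
    · exact hy hdA
    · exact hx hdA

end glue

/-! ### the sum over the trees with a given side -/

section fiber

open Classical

/-- rooted trees with a marked neighbour of the root -/
abbrev Trip (V : Type) :=
  {q : SimpleGraph V × V × V // q.1.IsTree ∧ q.1.Adj q.2.1 q.2.2}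

noncomputable instance instT (V : Type) [Finite V] : Fintype (Trip V) := Fintype.ofFinite _

/-- forget the marked neighbour -/
def Trip.toR {V : Type} (q : Trip V) : RTr V := ⟨(q.1.1, q.1.2.1), q.2.1⟩

lemma sum_trip {V : Type} [Finite V] (g : RTr V → ℝ) :
    ∑ q : Trip V, g q.toR = ∑ p : RTr V, (deg (rep p) : ℝ) * g p := by
  classical
  have := Fintype.ofFinite V
  have h1 : ∑ q : Trip V, g q.toR
      = ∑ x : (Σ p : RTr V, {d : V // p.1.1.Adj p.1.2 d}), g x.1 := by
    refine Fintype.sum_bijective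
      (fun q : Trip V => (⟨q.toR, ⟨q.1.2.2, q.2.2⟩⟩ :
        Σ p : RTr V, {d : V // p.1.1.Adj p.1.2 d})) ⟨?_, ?_⟩ _ _ (fun q => rfl)
    · intro q q' h
      apply Subtype.ext
      have h1 : q.1.1 = q'.1.1 := congrArg (fun z => z.1.1.1) h
      have h2 : q.1.2.1 = q'.1.2.1 := congrArg (fun z => z.1.1.2) h
      have h3 : q.1.2.2 = q'.1.2.2 := congrArg (fun z => z.2.1) h
      exact Prod.ext h1 (Prod.ext h2 h3)
    · rintro ⟨⟨⟨T, c⟩, hT⟩, ⟨d, hd⟩⟩
      exact ⟨⟨(T, c, d), hT, hd⟩, rfl⟩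
  rw [h1, Fintype.sum_sigma]
  apply Finset.sum_congr rfl
  intro p _
  show ∑ _y : {d : V // p.1.1.Adj p.1.2 d}, g p = _
  rw [Finset.sum_const, Finset.card_univ, ← Nat.card_eq_fintype_card, deg_rep, nsmul_eq_mul]

lemma sum_fiber {V : Type} [Fintype V] (A : Finset V) (Φ : Fr → ℝ)
    (hΦ : ∀ f g, Fr.Equ f g → Φ f = Φ g) :
    ∑ q ∈ (Finset.univ : Finset (Trip V)).filter (fun q => comp q.1.1 q.1.2.1 q.1.2.2 = A),
      Φ (rep q.toR)
    = ∑ a : RTr {x // x ∈ A}, ∑ b : RTr {x // ¬ x ∈ A}, Φ (Fr.cons (rep a) (rep b)) := by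
  rw [← Fintype.sum_prod_type'
    (f := fun (a : RTr {x // x ∈ A}) (b : RTr {x // ¬ x ∈ A}) => Φ (Fr.cons (rep a) (rep b)))]
  symm
  have htree : ∀ x : RTr {x // x ∈ A} × RTr {x // ¬ x ∈ A},
      (J A x.1.1.1 x.1.1.2 x.2.1.1 x.2.1.2).IsTree := fun x =>
    (JIso A x.1.1.1 x.1.1.2 x.2.1.1 x.2.1.2).isTree_iff.2 (join_isTree x.1.2 x.2.2)
  have hadj : ∀ x : RTr {x // x ∈ A} × RTr {x // ¬ x ∈ A},
      (J A x.1.1.1 x.1.1.2 x.2.1.1 x.2.1.2).Adj (x.2.1.2 : V) (x.1.1.2 : V) := fun x =>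
    (J_np _ _ _ _ _ x.2.1.2.2 x.1.1.2.2).2 ⟨rfl, rfl⟩
  refine Finset.sum_bij
    (fun x _ => (⟨(J A x.1.1.1 x.1.1.2 x.2.1.1 x.2.1.2, (x.2.1.2 : V), (x.1.1.2 : V)),
      htree x, hadj x⟩ : Trip V)) ?_ ?_ ?_ ?_
  · intro x _
    rw [Finset.mem_filter]
    exact ⟨Finset.mem_univ _, comp_J A _ _ _ _ x.1.2⟩
  · rintro ⟨⟨⟨Ta, d⟩, ha⟩, ⟨⟨Tb, c⟩, hb⟩⟩ _ ⟨⟨⟨Ta', d'⟩, ha'⟩, ⟨⟨Tb', c'⟩, hb'⟩⟩ _ h
    have h0 := congrArg Subtype.val h
    have h1 : J A Ta d Tb c = J A Ta' d' Tb' c' := congrArg Prod.fst h0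
    have h2 : (c : V) = c' := congrArg (fun z => z.2.1) h0
    have h3 : (d : V) = d' := congrArg (fun z => z.2.2) h0
    have h2' : c = c' := Subtype.ext h2
    have h3' : d = d' := Subtype.ext h3
    subst h2'
    subst h3'
    have h4 : Ta = Ta' := by
      ext ⟨x, hx⟩ ⟨y, hy⟩
      rw [← J_pp A Ta d Tb c hx hy, ← J_pp A Ta' d Tb' c hx hy, h1]
    have h5 : Tb = Tb' := by
      ext ⟨x, hx⟩ ⟨y, hy⟩
      rw [← J_nn A Ta d Tb c hx hy, ← J_nn A Ta' d Tb' c hx hy, h1]
    subst h4
    subst h5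
    rfl
  · rintro ⟨⟨T, c, d⟩, hT, hcd⟩ hq
    rw [Finset.mem_filter] at hq
    obtain ⟨Ta, d', Tb, c', hTa, hTb, hd, hc, hJ⟩ := decomp hT hcd A hq.2
    refine ⟨(⟨(Ta, d'), hTa⟩, ⟨(Tb, c'), hTb⟩), Finset.mem_univ _, ?_⟩
    apply Subtype.ext
    exact Prod.ext hJ (Prod.ext hc hd)
  · rintro ⟨a, b⟩ _
    obtain ⟨ea, hea⟩ := rep_spec a
    obtain ⟨eb, heb⟩ := rep_spec b
    apply hΦ
    apply Fr.Equ.symm
    refine rep_equ _ (Fr.cons (rep a) (rep b))
      ((JIso A a.1.1 a.1.2 b.1.1 b.1.2).trans (joinCongr ea hea eb heb)) ?_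
    show (joinCongr ea hea eb heb) (JIso A a.1.1 a.1.2 b.1.1 b.1.2 (b.1.2 : V)) = _
    rw [JIso_neg]
    show Sum.inr (eb b.1.2) = _
    rw [heb]
    rfl

end fiber

/-! ### the main induction -/

section main

open Classical

lemma main (n : ℕ) : ∀ (V : Type) [Finite V], Nat.card V = n + 1 → ∀ Φ : Fr → ℝ,
    (∀ f g, Fr.Equ f g → Φ f = Φ g) →
    ∑ p : RTr V, Φ (rep p) = ((n + 1).factorial : ℝ) * Real.exp n * E n Φ := by
  induction n using Nat.strong_induction_on with
  | _ n ih =>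
    intro V _ hV Φ hΦ
    have := Fintype.ofFinite V
    rcases n with _ | m
    · -- one vertex
      have hsub : Subsingleton V := (Nat.card_eq_one_iff_unique.1 hV).1
      have hne : Nonempty V := (Nat.card_eq_one_iff_unique.1 hV).2
      obtain ⟨v⟩ := hne
      have hT : (⊥ : SimpleGraph V).IsTree := by
        have : Nonempty V := ⟨v⟩
        exact IsTree.of_subsingleton
      have huniv : (Finset.univ : Finset (RTr V)) = {⟨(⊥, v), hT⟩} := by
        ext p
        simp only [Finset.mem_univ, Finset.mem_singleton, true_iff]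
        apply Subtype.ext
        apply Prod.ext
        · ext x y
          have : x = y := Subsingleton.elim _ _
          subst this
          simp
        · exact Subsingleton.elim _ _
      rw [huniv, Finset.sum_singleton, E_zero]
      have hs := rep_size (⟨(⊥, v), hT⟩ : RTr V)
      rw [hV] at hs
      have hnil : rep (⟨(⊥, v), hT⟩ : RTr V) = Fr.nil := by
        cases hr : rep (⟨(⊥, v), hT⟩ : RTr V) with
        | nil => rfl
        | cons a b =>
          rw [hr] at hs
          have : (Fr.cons a b).size = 1 + a.size + b.size := rfl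
          omega
      rw [hnil]
      simp
    · have hdeg : ∀ p : RTr V, (deg (rep p) : ℝ) ≠ 0 := by
        intro p
        have hs := rep_size p
        rw [hV] at hs
        cases hr : rep p with
        | nil =>
          rw [hr] at hs
          have : Fr.nil.size = 0 := rfl
          omega
        | cons a b =>
          have : deg (Fr.cons a b) = 1 + deg b := rfl
          rw [this]
          positivity
      set Θ : Fr → ℝ := fun f => Φ f / deg f with hΘ
      have hΘinv : ∀ f g, Fr.Equ f g → Θ f = Θ g := by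
        intro f g h
        simp only [hΘ]
        rw [hΦ f g h, deg_equ h]
      have h1 : ∑ p : RTr V, Φ (rep p) = ∑ q : Trip V, Θ (rep q.toR) := by
        rw [sum_trip (fun p => Θ (rep p))]
        apply Finset.sum_congr rfl
        intro p _
        simp only [hΘ]
        rw [mul_div_cancel₀ _ (hdeg p)]
      -- the contribution of `A`
      set h : ℕ → ℝ := fun k => if 1 ≤ k ∧ k ≤ m + 1 then
        (k.factorial : ℝ) * ((m + 2 - k).factorial : ℝ) * Real.exp m *
          ∑ f ∈ FS (k - 1), ∑ g ∈ FS (m - (k - 1)), w f * w g * Θ (Fr.cons f g) else 0 with hh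
      have hcardV : Fintype.card V = m + 2 := by
        rw [← Nat.card_eq_fintype_card, hV]
      have hA : ∀ A : Finset V, ∑ a : RTr {x // x ∈ A}, ∑ b : RTr {x // ¬ x ∈ A},
          Θ (Fr.cons (rep a) (rep b)) = h A.card := by
        intro A
        have hc1 : Nat.card {x // x ∈ A} = A.card := by
          rw [Nat.card_eq_fintype_card, Fintype.card_coe]
        have hc2 : Nat.card {x // ¬ x ∈ A} = m + 2 - A.card := by
          rw [Nat.card_eq_fintype_card, Fintype.card_subtype_compl, hcardV, Fintype.card_coe]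
        have hle : A.card ≤ m + 2 := by
          rw [← hcardV]; exact Finset.card_le_univ A
        by_cases h0 : A.card = 0
        · have hemp : IsEmpty (RTr {x // x ∈ A}) := by
            constructor
            rintro ⟨⟨T, ⟨x, hx⟩⟩, -⟩
            rw [Finset.card_eq_zero] at h0
            rw [h0] at hx
            exact absurd hx (Finset.notMem_empty x)
          rw [Finset.univ_eq_empty, Finset.sum_empty]
          simp [hh, h0]
        by_cases h2 : A.card = m + 2
        · have hemp : IsEmpty (RTr {x // ¬ x ∈ A}) := by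
            constructor
            rintro ⟨⟨T, ⟨x, hx⟩⟩, -⟩
            have : A = Finset.univ := by
              rw [← Finset.card_eq_iff_eq_univ, h2, hcardV]
            rw [this] at hx
            exact hx (Finset.mem_univ x)
          simp only [Finset.univ_eq_empty, Finset.sum_empty]
          simp [hh, h2]
        have hk : 1 ≤ A.card ∧ A.card ≤ m + 1 := by omega
        obtain ⟨i, hi⟩ : ∃ i, A.card = i + 1 := ⟨A.card - 1, by omega⟩
        have hcA : Nat.card {x // x ∈ A} = i + 1 := by rw [hc1, hi]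
        have hcB : Nat.card {x // ¬ x ∈ A} = (m - i) + 1 := by rw [hc2, hi]; omega
        have hin : ∀ a : RTr {x // x ∈ A}, ∑ b : RTr {x // ¬ x ∈ A}, Θ (Fr.cons (rep a) (rep b))
            = ((m - i + 1).factorial : ℝ) * Real.exp ((m - i : ℕ) : ℝ) *
              E (m - i) (fun g => Θ (Fr.cons (rep a) g)) := by
          intro a
          exact ih (m - i) (by omega) {x // ¬ x ∈ A} hcB (fun g => Θ (Fr.cons (rep a) g))
            (fun g g' hg => hΘinv _ _ (Fr.Equ.cons (Fr.Equ.refl _) hg))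
        rw [Finset.sum_congr rfl (fun a _ => hin a)]
        have hout := ih i (by omega) {x // x ∈ A} hcA
          (fun f => ((m - i + 1).factorial : ℝ) * Real.exp ((m - i : ℕ) : ℝ) *
              E (m - i) (fun g => Θ (Fr.cons f g)))
          (fun f f' hf => by
            congr 1
            apply E_congr
            intro g _
            exact hΘinv _ _ (Fr.Equ.cons hf (Fr.Equ.refl _)))
        rw [hout, E_mul_left]
        simp only [hh]
        rw [if_pos hk, hi]
        have e1 : m + 2 - (i + 1) = m - i + 1 := by omega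
        have e2 : i + 1 - 1 = i := rfl
        rw [e1, e2]
        have e3 : Real.exp m = Real.exp (i : ℝ) * Real.exp ((m - i : ℕ) : ℝ) := by
          rw [← Real.exp_add]
          congr 1
          rw [← Nat.cast_add]
          congr 1
          omega
        rw [e3]
        have e4 : E i (fun f => E (m - i) (fun g => Θ (Fr.cons f g)))
            = ∑ f ∈ FS i, ∑ g ∈ FS (m - i), w f * w g * Θ (Fr.cons f g) := by
          simp only [E, Finset.mul_sum]
          apply Finset.sum_congr rfl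
          intro f _
          apply Finset.sum_congr rfl
          intro g _
          ring
        rw [e4]
        ring
      have h2 : ∑ q : Trip V, Θ (rep q.toR) = ∑ A : Finset V, h A.card := by
        rw [← Finset.sum_fiberwise (Finset.univ : Finset (Trip V))
          (fun q => comp q.1.1 q.1.2.1 q.1.2.2)]
        apply Finset.sum_congr rfl
        intro A _
        rw [sum_fiber A Θ hΘinv, hA]
      have h3 : ∑ A : Finset V, h A.card
          = ∑ k ∈ Finset.range (m + 2 + 1), ((m + 2).choose k : ℝ) * h k := by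
        have := Finset.sum_powerset_apply_card (α := ℝ) h (x := (Finset.univ : Finset V))
        rw [Finset.powerset_univ, Finset.card_univ, hcardV] at this
        rw [this]
        apply Finset.sum_congr rfl
        intro k _
        rw [nsmul_eq_mul]
      have h4 : ∑ k ∈ Finset.range (m + 2 + 1), ((m + 2).choose k : ℝ) * h k
          = ∑ i ∈ Finset.range (m + 1), ((m + 2).choose (i + 1) : ℝ) * h (i + 1) := by
        rw [Finset.sum_range_succ, Finset.sum_range_succ']
        have z0 : h 0 = 0 := by simp [hh]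
        have z1 : h (m + 2) = 0 := by simp [hh]
        rw [z0, z1]
        ring
      rw [h1, h2, h3, h4, E_succ, Finset.mul_sum]
      apply Finset.sum_congr rfl
      intro i hi
      have hi' : i < m + 1 := Finset.mem_range.1 hi
      simp only [hh]
      rw [if_pos (by omega : 1 ≤ i + 1 ∧ i + 1 ≤ m + 1)]
      have e2 : i + 1 - 1 = i := rfl
      rw [e2]
      have e1 : ((m + 2).choose (i + 1) : ℝ) * (((i + 1).factorial : ℝ) *
          ((m + 2 - (i + 1)).factorial : ℝ)) = ((m + 1 + 1).factorial : ℝ) := by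
        rw [← Nat.choose_mul_factorial_mul_factorial (show i + 1 ≤ m + 2 by omega)]
        push_cast
        ring
      have e3 : Real.exp ((m + 1 : ℕ) : ℝ) * Real.exp (-1) = Real.exp m := by
        rw [← Real.exp_add]
        congr 1
        push_cast
        ring
      rw [← e1, ← e3]
      rw [Finset.mul_sum, Finset.mul_sum, Finset.mul_sum]
      apply Finset.sum_congr rfl
      intro f _
      rw [Finset.mul_sum, Finset.mul_sum, Finset.mul_sum]
      apply Finset.sum_congr rfl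
      intro g _
      simp only [hΘ]
      have hd : ((deg (Fr.cons f g) : ℕ) : ℝ) = 1 + deg g := by
        show (((1 + deg g : ℕ)) : ℝ) = _
        push_cast
        ring
      rw [hd]
      have hpos : (1 + (deg g : ℝ)) ≠ 0 := by positivity
      field_simp

end main

end Lab

open Classical in
theorem labelled (n : ℕ) (Φ : Fr → ℝ) (hΦ : ∀ f g, Fr.Equ f g → Φ f = Φ g)
    (Ψ : SimpleGraph (Fin (n + 1)) → Fin (n + 1) → ℝ)
    (hΨ : ∀ (T : SimpleGraph (Fin (n + 1))) (c : Fin (n + 1)) (f : Fr) (e : T ≃g Fr.G f),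
      e c = Fr.ρ f → Ψ T c = Φ f) :
    ∑ T ∈ Finset.univ.filter (fun T : SimpleGraph (Fin (n + 1)) => T.IsTree), ∑ c, Ψ T c
      = ((n + 1).factorial : ℝ) * Real.exp n * E n Φ := by
  rw [← Lab.main n (Fin (n + 1)) (by rw [Nat.card_eq_fintype_card, Fintype.card_fin]) Φ hΦ]
  rw [← Finset.sum_product' _ _ (fun T c => Ψ T c)]
  symm
  refine Finset.sum_bij (fun (p : Lab.RTr (Fin (n + 1))) _ => p.1) ?_ ?_ ?_ ?_
  · intro p _
    rw [Finset.mem_product, Finset.mem_filter]
    exact ⟨⟨Finset.mem_univ _, p.2⟩, Finset.mem_univ _⟩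
  · intro p _ q _ h
    exact Subtype.ext h
  · rintro ⟨T, c⟩ hx
    rw [Finset.mem_product, Finset.mem_filter] at hx
    exact ⟨⟨(T, c), hx.1.2⟩, Finset.mem_univ _, rfl⟩
  · intro p _
    obtain ⟨e, he⟩ := Lab.rep_spec p
    exact (hΨ _ _ _ e he).symm

end RT
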