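import Mathlib
import Pool.Agent.Lib_helper86.RT.Prob
import Pool.Agent.Lib_helper86.RT.Labelled
import Pool.Agent.Lib_helper17.CSF.Comp
import Pool.Agent.Lib_helper17.CSF.Trans

set_option autoImplicit false

/-!
Almost every labelled tree is determined by its chromatic symmetric function.
-/

namespace RT

open Pool.MP_1af41f_co.CSF Finset

/-- the tree is determined among all finite trees by its chromatic symmetric function -/
def Det {V : Type} (T : SimpleGraph V) : Prop :=
  ∀ (W : Type) [Fintype W] (T₂ : SimpleGraph W), T₂.IsTree → XEq T T₂ → Nonempty (T ≃g T₂)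

lemma Det.of_iso {V V' : Type} {T : SimpleGraph V} {T' : SimpleGraph V'} (e : T ≃g T')
    (h : Det T) : Det T' := by
  intro W _ T₂ hT₂ hX
  obtain ⟨e'⟩ := h W T₂ hT₂ (hX.of_iso e.symm SimpleGraph.Iso.refl)
  exact ⟨e.symm.trans e'⟩

lemma det_iff {V V' : Type} {T : SimpleGraph V} {T' : SimpleGraph V'} (e : T ≃g T') :
    Det T ↔ Det T' := ⟨Det.of_iso e, Det.of_iso e.symm⟩

/-- every component of `T - c` has at most half of the vertices -/
def Cent {V : Type} (T : SimpleGraph V) (c : V) : Prop :=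
  ∀ v : {v : V | v ≠ c}, 2 * cc T c v ≤ Nat.card V

lemma cent_iff {V V' : Type} {T : SimpleGraph V} {T' : SimpleGraph V'} (e : T ≃g T')
    {c : V} {c' : V'} (hc : e c = c') : Cent T c ↔ Cent T' c' := by
  have hcard : Nat.card V = Nat.card V' := Nat.card_congr e.toEquiv
  unfold Cent
  constructor
  · intro h v'
    have h1 := h ((delIso e hc).symm v')
    rw [← cc_iso e hc, RelIso.apply_symm_apply, hcard] at h1
    exact h1
  · intro h v
    have h1 := h (delIso e hc v)
    rw [cc_iso e hc, ← hcard] at h1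
    exact h1

lemma cent_G (f : Fr) : Cent (Fr.G f) (Fr.ρ f) ↔ ∀ a ∈ f.toList, 2 * vs a ≤ f.size + 1 := by
  have hcard : Nat.card (Fr.W f) = f.size + 1 := by
    rw [Nat.card_eq_fintype_card, Fr.card_W, add_comm]
  unfold Cent
  rw [hcard]
  constructor
  · intro h a ha
    obtain ⟨x, hx, hx'⟩ := Fr.exists_cs_of_mem f ha
    have h1 := h ⟨x, hx⟩
    rw [cc_G] at h1
    have h2 : Fr.cs f x = vs a := hx'
    rw [← h2]
    exact h1
  · intro h v
    rw [cc_G]
    obtain ⟨a, ha, ha'⟩ := Fr.exists_mem_of_cs f v.1 v.2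
    have h1 := h a ha
    unfold vs at h1
    rw [← ha']
    exact h1

lemma br_perm {f : Fr} {p : Fr × Fr} (hp : p ∈ br f) :
    f.toList.Perm (Fr.cons p.1 p.2).toList := by
  induction f generalizing p with
  | nil => simp [br] at hp
  | cons a b _ ih =>
    rw [br, List.mem_cons, List.mem_map] at hp
    rcases hp with rfl | ⟨q, hq, rfl⟩
    · exact List.Perm.refl _
    · have h1 := ih hq
      simp only [Fr.toList] at h1 ⊢
      exact (h1.cons a).trans (List.Perm.swap _ _ _)

/-- Theorem H for the branch forest -/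
lemma det_of_hypH {f : Fr} (h : HypH f) : Det (Fr.G f) := by
  obtain ⟨p, hp, θ, K, t, h1, h2, h3, h4, h5, h6, h7, h8⟩ := h
  intro W _ T₂ hT₂ hX
  obtain ⟨d⟩ : Nonempty W := hT₂.connected.nonempty
  obtain ⟨f', e', _⟩ := exists_rep (Nat.card W) W T₂ hT₂ d rfl
  have hX' : XEq (Fr.G f) (Fr.G f') := hX.of_iso SimpleGraph.Iso.refl e'
  obtain ⟨e⟩ := theoremH_RT0 (Fr.Equ.of_toList_perm (br_perm hp)) h4 h2 h3 h1 h5 h6 h7 h8 f' hX'
  exact ⟨e.trans e'.symm⟩

/-- the indicator of the bad rooted trees -/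
noncomputable def Bad (f : Fr) : ℝ :=
  ind (¬ Det (Fr.G f) ∧ ∀ a ∈ f.toList, 2 * vs a ≤ f.size + 1)

noncomputable def BadT {V : Type} (T : SimpleGraph V) (c : V) : ℝ := ind (¬ Det T ∧ Cent T c)

lemma badT_eq {V : Type} {T : SimpleGraph V} {c : V} (f : Fr) (e : T ≃g Fr.G f)
    (he : e c = Fr.ρ f) : BadT T c = Bad f := by
  unfold BadT Bad
  rw [det_iff e, cent_iff e he, cent_G]

lemma bad_equ (f g : Fr) (h : Fr.Equ f g) : Bad f = Bad g := by
  obtain ⟨e, he⟩ := h
  rw [← badT_eq g e he, ← badT_eq f SimpleGraph.Iso.refl rfl]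

lemma E_bad_le (η : ℝ) (hη : 0 < η) : ∃ m0 : ℕ, ∀ m : ℕ, m0 ≤ m →
    E m Bad ≤ η / ((m : ℝ) ^ 2 * √(m : ℝ)) := by
  obtain ⟨m0, hm0⟩ := prob_main η hη
  refine ⟨m0, fun m hm => le_trans (E_mono fun f hf => ?_) (hm0 m hm)⟩
  refine ind_mono ?_
  rintro ⟨h1, h2⟩
  refine ⟨fun a ha => ?_, fun h => h1 (det_of_hypH h)⟩
  have := h2 a ha
  omega

open Classical in
/-- the labelled trees on `n` vertices -/
noncomputable def Trees (n : ℕ) : Finset (SimpleGraph (Fin n)) :=
  Finset.univ.filter (fun T => T.IsTree)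

lemma mem_Trees {n : ℕ} {T : SimpleGraph (Fin n)} : T ∈ Trees n ↔ T.IsTree := by
  classical
  unfold Trees
  rw [Finset.mem_filter]
  exact ⟨fun h => h.2, fun h => ⟨Finset.mem_univ _, h⟩⟩

lemma exists_cent {V : Type} [Fintype V] (T : SimpleGraph V) (hT : T.IsTree) :
    ∃ c, Cent T c := by
  obtain ⟨d⟩ : Nonempty V := hT.connected.nonempty
  obtain ⟨f, e, _⟩ := exists_rep (Nat.card V) V T hT d rfl
  obtain ⟨f', ⟨e'⟩, hf'⟩ := exists_centroid f
  refine ⟨(e.trans e').symm (Fr.ρ f'), ?_⟩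
  rw [cent_iff (e.trans e') (c' := Fr.ρ f') (RelIso.apply_symm_apply _ _), cent_G]
  exact hf'

lemma sum_bad (m : ℕ) : ∑ T ∈ Trees (m + 1), ∑ c, BadT T c =
    ((m + 1).factorial : ℝ) * Real.exp m * E m Bad := by
  have h := labelled m Bad bad_equ (fun T c => BadT T c) (fun T c f e he => badT_eq f e he)
  unfold Trees
  exact h

lemma sum_one (m : ℕ) : ((Trees (m + 1)).card : ℝ) * ((m : ℝ) + 1) =
    ((m + 1).factorial : ℝ) * Real.exp m * (Real.exp 1 * τ (m + 1)) := by
  have h := labelled m (fun _ => 1) (fun _ _ _ => rfl) (fun _ _ => 1) (fun _ _ _ _ _ => rfl)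
  rw [E_one] at h
  rw [← h]
  simp only [Finset.sum_const, Finset.card_univ, Fintype.card_fin, nsmul_eq_mul, mul_one]
  unfold Trees
  push_cast
  ring

open Classical in
lemma bad_card_le (m : ℕ) :
    (((Trees (m + 1)).filter (fun T => ¬ Det T)).card : ℝ) ≤
      ((m + 1).factorial : ℝ) * Real.exp m * E m Bad := by
  rw [← sum_bad, Finset.card_filter]
  push_cast
  refine Finset.sum_le_sum fun T hT => ?_
  have hnn : ∀ c ∈ (Finset.univ : Finset (Fin (m + 1))), 0 ≤ BadT T c := fun c _ => ind_nonneg _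
  by_cases h : ¬ Det T
  · rw [if_pos h]
    obtain ⟨c, hc⟩ := exists_cent T (mem_Trees.1 hT)
    have h1 : BadT T c = 1 := ind_of ⟨h, hc⟩
    rw [← h1]
    exact Finset.single_le_sum hnn (Finset.mem_univ c)
  · rw [if_neg h]
    exact Finset.sum_nonneg hnn

lemma trees_pos (m : ℕ) : 0 < ((Trees (m + 1)).card : ℝ) := by
  have h := sum_one m
  have h1 : 0 < τ (m + 1) := by
    refine lt_of_lt_of_le ?_ (τ_ge (m + 1) (by omega))
    positivity
  have h2 : 0 < ((Trees (m + 1)).card : ℝ) * ((m : ℝ) + 1) := by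
    rw [h]; positivity
  exact pos_of_mul_pos_left h2 (by positivity)

open Classical in
/-- the proportion of the bad trees tends to `0` -/
lemma bad_ratio (ε : ℝ) (hε : 0 < ε) : ∃ m0 : ℕ, ∀ m : ℕ, m0 ≤ m →
    (((Trees (m + 1)).filter (fun T => ¬ Det T)).card : ℝ) ≤ ε * (Trees (m + 1)).card := by
  obtain ⟨m0, hm0⟩ := E_bad_le (ε / 24) (by positivity)
  refine ⟨m0 + 1, fun m hm => ?_⟩
  have hE := hm0 m (by omega)
  have hm1 : (1 : ℝ) ≤ m := by
    have : 1 ≤ m := by omega
    exact_mod_cast this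
  have hA : 0 < ((m + 1).factorial : ℝ) * Real.exp m := by positivity
  have h1 := bad_card_le m
  have h2 := sum_one m
  have hτ := τ_ge (m + 1) (by omega)
  push_cast at hτ
  have hm0' : (0 : ℝ) < m := by linarith
  set s := √(m : ℝ) with hs
  have hs0 : 0 < s := Real.sqrt_pos.2 hm0'
  have hs2 : s ^ 2 = m := Real.sq_sqrt hm0'.le
  have hs' : √((m : ℝ) + 1) ≤ 2 * s := by
    rw [Real.sqrt_le_left (by positivity)]
    nlinarith
  have hs1 : 0 < √((m : ℝ) + 1) := Real.sqrt_pos.2 (by linarith)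
  -- lower bound for the number of trees
  have he : (1 : ℝ) ≤ Real.exp 1 := by
    have := Real.add_one_le_exp (1 : ℝ)
    linarith
  have h3 : (1 : ℝ) / (24 * (m * m * s)) * (m + 1) ≤ τ (m + 1) := by
    refine le_trans ?_ hτ
    rw [div_mul_eq_mul_div, one_mul, div_le_div_iff₀ (by positivity) (by positivity)]
    have h4 : ((m : ℝ) + 1) * √((m : ℝ) + 1) ≤ (2 * m) * (2 * s) :=
      mul_le_mul (by linarith) hs' hs1.le (by positivity)
    calc ((m : ℝ) + 1) * (3 * ((m + 1) * √((m : ℝ) + 1)))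
        = 3 * (m + 1) * ((m + 1) * √((m : ℝ) + 1)) := by ring
      _ ≤ 3 * (2 * m) * ((2 * m) * (2 * s)) := by
          refine mul_le_mul (by linarith) h4 (by positivity) (by positivity)
      _ = 1 * (24 * (m * m * s)) := by ring
  have h5 : ((m + 1).factorial : ℝ) * Real.exp m * (1 / (24 * (m * m * s))) ≤
      (Trees (m + 1)).card := by
    have h6 : (((m + 1).factorial : ℝ) * Real.exp m * (1 / (24 * (m * m * s)))) * (m + 1) ≤
        ((Trees (m + 1)).card : ℝ) * (m + 1) := by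
      rw [h2]
      calc (((m + 1).factorial : ℝ) * Real.exp m * (1 / (24 * (m * m * s)))) * (m + 1)
          = ((m + 1).factorial : ℝ) * Real.exp m * (1 / (24 * (m * m * s)) * (m + 1)) := by ring
        _ ≤ ((m + 1).factorial : ℝ) * Real.exp m * τ (m + 1) :=
            mul_le_mul_of_nonneg_left h3 hA.le
        _ ≤ ((m + 1).factorial : ℝ) * Real.exp m * (Real.exp 1 * τ (m + 1)) := by
            refine mul_le_mul_of_nonneg_left ?_ hA.le
            have : 0 ≤ τ (m + 1) := τ_nonneg _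
            nlinarith
    exact le_of_mul_le_mul_right h6 (by positivity)
  calc (((Trees (m + 1)).filter (fun T => ¬ Det T)).card : ℝ)
      ≤ ((m + 1).factorial : ℝ) * Real.exp m * E m Bad := h1
    _ ≤ ((m + 1).factorial : ℝ) * Real.exp m * (ε / 24 / ((m : ℝ) ^ 2 * s)) :=
        mul_le_mul_of_nonneg_left hE hA.le
    _ = ε * (((m + 1).factorial : ℝ) * Real.exp m * (1 / (24 * (m * m * s)))) := by
        field_simp
    _ ≤ ε * (Trees (m + 1)).card := mul_le_mul_of_nonneg_left h5 hε.le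

/-- Almost every labelled tree is determined by its chromatic symmetric function. -/
theorem almost_all :
    Filter.Tendsto (fun n : ℕ => (Nat.card {T : SimpleGraph (Fin n) // T.IsTree ∧ Det T} : ℝ) /
      (Nat.card {T : SimpleGraph (Fin n) // T.IsTree} : ℝ)) Filter.atTop (nhds 1) := by
  classical
  rw [Metric.tendsto_atTop]
  intro ε hε
  obtain ⟨m0, hm0⟩ := bad_ratio (ε / 2) (by positivity)
  refine ⟨m0 + 1, fun n hn => ?_⟩
  obtain ⟨m, rfl⟩ : ∃ m, n = m + 1 := ⟨n - 1, by omega⟩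
  have h1 := hm0 m (by omega)
  have hpos := trees_pos m
  have e1 : Nat.card {T : SimpleGraph (Fin (m + 1)) // T.IsTree} = (Trees (m + 1)).card := by
    rw [Nat.card_eq_fintype_card, Fintype.card_subtype]
    unfold Trees
    congr
  have e2 : Nat.card {T : SimpleGraph (Fin (m + 1)) // T.IsTree ∧ Det T} =
      ((Trees (m + 1)).filter (fun T => Det T)).card := by
    rw [Nat.card_eq_fintype_card, Fintype.card_subtype]
    congr 1
    ext T
    rw [Finset.mem_filter, Finset.mem_filter, mem_Trees]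
    exact ⟨fun h => h.2, fun h => ⟨Finset.mem_univ _, h⟩⟩
  have e3 := Finset.card_filter_add_card_filter_not (s := Trees (m + 1)) (fun T => Det T)
  have e4 : (((Trees (m + 1)).filter (fun T => Det T)).card : ℝ) +
      (((Trees (m + 1)).filter (fun T => ¬ Det T)).card : ℝ) = ((Trees (m + 1)).card : ℝ) := by
    exact_mod_cast e3
  rw [e1, e2, Real.dist_eq]
  have e5 : (((Trees (m + 1)).filter (fun T => Det T)).card : ℝ) / ((Trees (m + 1)).card : ℝ) - 1
      = - ((((Trees (m + 1)).filter (fun T => ¬ Det T)).card : ℝ) / ((Trees (m + 1)).card : ℝ)) := by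
    field_simp
    linarith
  rw [e5, abs_neg, abs_of_nonneg (by positivity)]
  refine lt_of_le_of_lt ?_ (half_lt_self hε)
  rw [div_le_iff₀ hpos]
  exact h1

end RT
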